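import Mathlib

/-!
# The two turning angles and their independence
-/

namespace Pool.Agent.Helper66
namespace Angles

open Real

/-- deviation from `2π/3` of the turning angle for force triangle (390, 390, 675) -/
noncomputable def ea : ℝ := 2 * arcsin (45 / 52) - 2 * π / 3
/-- deviation from `2π/3` of the turning angle for force triangle (390, 390, 676) -/
noncomputable def eb : ℝ := 2 * arcsin (13 / 15) - 2 * π / 3
/-- deviation from `2π/3` of the turning angle for force triangle (390, 390, 650) -/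
noncomputable def ec : ℝ := 2 * arcsin (5 / 6) - 2 * π / 3

lemma sqrt3_lo : (1.7320508 : ℝ) < √3 := by
  rw [show (1.7320508 : ℝ) = √(1.7320508 ^ 2) by rw [Real.sqrt_sq (by norm_num)]]
  apply Real.sqrt_lt_sqrt (by norm_num)
  norm_num

lemma sqrt3_hi : √3 < (1.7320509 : ℝ) := by
  rw [show (1.7320509 : ℝ) = √(1.7320509 ^ 2) by rw [Real.sqrt_sq (by norm_num)]]
  apply Real.sqrt_lt_sqrt (by norm_num)
  norm_num

lemma sin_shift (t : ℝ) : sin (π / 3 + t) = √3 / 2 * cos t + 1 / 2 * sin t := by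
  rw [Real.sin_add, Real.sin_pi_div_three, Real.cos_pi_div_three]

lemma sin_est {t : ℝ} (ht : |t| ≤ 1) :
    |sin (π / 3 + t) - (√3 / 2 * (1 - t ^ 2 / 2) + 1 / 2 * (t - t ^ 3 / 6))| ≤
      |t| ^ 4 * (5 / 96) + |t| ^ 5 / 100 := by
  rw [sin_shift]
  have h1 := Real.cos_bound ht
  have h2 := Real.sin_bound ht
  have h3 := sqrt3_hi
  have h3' := sqrt3_lo
  have e : √3 / 2 * cos t + 1 / 2 * sin t - (√3 / 2 * (1 - t ^ 2 / 2) + 1 / 2 * (t - t ^ 3 / 6))
      = √3 / 2 * (cos t - (1 - t ^ 2 / 2)) + 1 / 2 * (sin t - (t - t ^ 3 / 6)) := by ring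
  rw [e]
  calc |√3 / 2 * (cos t - (1 - t ^ 2 / 2)) + 1 / 2 * (sin t - (t - t ^ 3 / 6))|
      ≤ |√3 / 2 * (cos t - (1 - t ^ 2 / 2))| + |1 / 2 * (sin t - (t - t ^ 3 / 6))| :=
        abs_add_le _ _
    _ = √3 / 2 * |cos t - (1 - t ^ 2 / 2)| + 1 / 2 * |sin t - (t - t ^ 3 / 6)| := by
        rw [abs_mul, abs_mul, abs_of_pos (by linarith : (0:ℝ) < √3 / 2),
          abs_of_pos (by norm_num : (0:ℝ) < 1 / 2)]
    _ ≤ 1 * |cos t - (1 - t ^ 2 / 2)| + 1 * |sin t - (t - t ^ 3 / 6)| := by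
        apply add_le_add
        · apply mul_le_mul_of_nonneg_right _ (abs_nonneg _)
          linarith
        · apply mul_le_mul_of_nonneg_right _ (abs_nonneg _)
          norm_num
    _ ≤ _ := by rw [one_mul, one_mul]; exact add_le_add h1 h2

lemma pi_lo : (3.1415 : ℝ) < π := Real.pi_gt_d4
lemma pi_hi : π < (3.1416 : ℝ) := Real.pi_lt_d4

lemma arcsin_gt {y t : ℝ} (ht : |t| ≤ 1 / 10) (hy1 : -1 ≤ y) (hy2 : y ≤ 1)
    (h : sin (π / 3 + t) < y) : π / 3 + t < arcsin y := by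
  have h1 := pi_lo
  have h2 := pi_hi
  rw [abs_le] at ht
  rw [Real.lt_arcsin_iff_sin_lt ⟨by linarith, by linarith⟩ ⟨hy1, hy2⟩]
  exact h

lemma arcsin_lt {y t : ℝ} (ht : |t| ≤ 1 / 10) (hy1 : -1 ≤ y) (hy2 : y ≤ 1)
    (h : y < sin (π / 3 + t)) : arcsin y < π / 3 + t := by
  have h1 := pi_lo
  have h2 := pi_hi
  rw [abs_le] at ht
  rw [Real.arcsin_lt_iff_lt_sin ⟨hy1, hy2⟩ ⟨by linarith, by linarith⟩]
  exact h

lemma ea_lo : -0.0026 < ea := by
  have h : π / 3 + (-0.0013) < arcsin (45 / 52) := by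
    apply arcsin_gt (by rw [abs_of_neg] <;> norm_num) (by norm_num) (by norm_num)
    have h1 := sin_est (t := -0.0013) (by rw [abs_of_neg] <;> norm_num)
    rw [abs_le] at h1
    have h2 := sqrt3_hi
    have h3 : |(-0.0013 : ℝ)| = 0.0013 := by rw [abs_of_neg] <;> norm_num
    rw [h3] at h1
    nlinarith [h1.2, h2]
  unfold ea
  linarith

lemma ea_hi : ea < -0.0025 := by
  have h : arcsin (45 / 52) < π / 3 + (-0.00125) := by
    apply arcsin_lt (by rw [abs_of_neg] <;> norm_num) (by norm_num) (by norm_num)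
    have h1 := sin_est (t := -0.00125) (by rw [abs_of_neg] <;> norm_num)
    rw [abs_le] at h1
    have h2 := sqrt3_lo
    have h3 : |(-0.00125 : ℝ)| = 0.00125 := by rw [abs_of_neg] <;> norm_num
    rw [h3] at h1
    nlinarith [h1.1, h2]
  unfold ea
  linarith

lemma eb_lo : 0.0025 < eb := by
  have h : π / 3 + 0.00125 < arcsin (13 / 15) := by
    apply arcsin_gt (by rw [abs_of_pos] <;> norm_num) (by norm_num) (by norm_num)
    have h1 := sin_est (t := 0.00125) (by rw [abs_of_pos] <;> norm_num)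
    rw [abs_le] at h1
    have h2 := sqrt3_hi
    have h3 : |(0.00125 : ℝ)| = 0.00125 := by rw [abs_of_pos] <;> norm_num
    rw [h3] at h1
    nlinarith [h1.2, h2]
  unfold eb
  linarith

lemma eb_hi : eb < 0.0026 := by
  have h : arcsin (13 / 15) < π / 3 + 0.0013 := by
    apply arcsin_lt (by rw [abs_of_pos] <;> norm_num) (by norm_num) (by norm_num)
    have h1 := sin_est (t := 0.0013) (by rw [abs_of_pos] <;> norm_num)
    rw [abs_le] at h1
    have h2 := sqrt3_lo
    have h3 : |(0.0013 : ℝ)| = 0.0013 := by rw [abs_of_pos] <;> norm_num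
    rw [h3] at h1
    nlinarith [h1.1, h2]
  unfold eb
  linarith

lemma ec_lo : -0.125 < ec := by
  have h : π / 3 + (-0.0625) < arcsin (5 / 6) := by
    apply arcsin_gt (by rw [abs_of_neg] <;> norm_num) (by norm_num) (by norm_num)
    have h1 := sin_est (t := -0.0625) (by rw [abs_of_neg] <;> norm_num)
    rw [abs_le] at h1
    have h2 := sqrt3_hi
    have h3 : |(-0.0625 : ℝ)| = 0.0625 := by rw [abs_of_neg] <;> norm_num
    rw [h3] at h1
    nlinarith [h1.2, h2]
  unfold ec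
  linarith

lemma ec_hi : ec < -0.123 := by
  have h : arcsin (5 / 6) < π / 3 + (-0.0615) := by
    apply arcsin_lt (by rw [abs_of_neg] <;> norm_num) (by norm_num) (by norm_num)
    have h1 := sin_est (t := -0.0615) (by rw [abs_of_neg] <;> norm_num)
    rw [abs_le] at h1
    have h2 := sqrt3_lo
    have h3 : |(-0.0615 : ℝ)| = 0.0615 := by rw [abs_of_neg] <;> norm_num
    rw [h3] at h1
    nlinarith [h1.1, h2]
  unfold ec
  linarith

lemma sin_ea : sin (π / 3 + ea / 2) = 675 / 780 := by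
  have : π / 3 + ea / 2 = arcsin (45 / 52) := by unfold ea; ring
  rw [this, Real.sin_arcsin (by norm_num) (by norm_num)]; norm_num

lemma sin_eb : sin (π / 3 + eb / 2) = 676 / 780 := by
  have : π / 3 + eb / 2 = arcsin (13 / 15) := by unfold eb; ring
  rw [this, Real.sin_arcsin (by norm_num) (by norm_num)]; norm_num

lemma sin_ec : sin (π / 3 + ec / 2) = 650 / 780 := by
  have : π / 3 + ec / 2 = arcsin (5 / 6) := by unfold ec; ring
  rw [this, Real.sin_arcsin (by norm_num) (by norm_num)]; norm_num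

/-! ### independence -/

/-- rational points of the circle field of discriminant minus d -/
def QF (d : ℝ) (x : ℝ) : Prop := (∃ r : ℚ, cos x = r) ∧ ∃ s : ℚ, sin x = s * √d

lemma QF_add {d : ℝ} (hd : ∃ n : ℕ, d = n) {x y : ℝ} (hx : QF d x) (hy : QF d y) :
    QF d (x + y) := by
  obtain ⟨n, rfl⟩ := hd
  obtain ⟨⟨r, hr⟩, ⟨s, hs⟩⟩ := hx
  obtain ⟨⟨r', hr'⟩, ⟨s', hs'⟩⟩ := hy
  have hsq : √(n:ℝ) * √(n:ℝ) = n := Real.mul_self_sqrt (Nat.cast_nonneg n)
  refine ⟨⟨r * r' - s * s' * n, ?_⟩, ⟨s * r' + r * s', ?_⟩⟩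
  · rw [Real.cos_add, hr, hr', hs, hs']
    push_cast
    have : (s:ℝ) * √(n:ℝ) * (s' * √(n:ℝ)) = s * s' * (√(n:ℝ) * √(n:ℝ)) := by ring
    rw [this, hsq]
  · rw [Real.sin_add, hr, hr', hs, hs']
    push_cast
    ring

lemma QF_zero {d : ℝ} : QF d 0 := ⟨⟨1, by simp⟩, ⟨0, by simp⟩⟩

lemma QF_nsmul {d : ℝ} (hd : ∃ n : ℕ, d = n) {x : ℝ} (hx : QF d x) (k : ℕ) : QF d (k * x) := by
  induction k with
  | zero => simpa using QF_zero
  | succ k ih =>
    have : ((k + 1 : ℕ) : ℝ) * x = k * x + x := by push_cast; ring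
    rw [this]
    exact QF_add hd ih hx

lemma QF_a : QF 679 (2 * arcsin (45 / 52)) := by
  have hs : sin (arcsin (45 / 52)) = 45 / 52 := Real.sin_arcsin (by norm_num) (by norm_num)
  have hc : cos (arcsin (45 / 52)) = √679 / 52 := by
    rw [Real.cos_arcsin]
    rw [show (1 - (45 / 52 : ℝ) ^ 2) = 679 / 52 ^ 2 by norm_num]
    rw [Real.sqrt_div (by norm_num), Real.sqrt_sq (by norm_num)]
  refine ⟨⟨-673 / 1352, ?_⟩, ⟨45 / 1352, ?_⟩⟩
  · rw [Real.cos_two_mul', hs, hc, div_pow, Real.sq_sqrt (by norm_num)]; norm_num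
  · rw [Real.sin_two_mul, hs, hc]; push_cast; ring

lemma QF_b : QF 14 (2 * arcsin (13 / 15)) := by
  have hs : sin (arcsin (13 / 15)) = 13 / 15 := Real.sin_arcsin (by norm_num) (by norm_num)
  have hc : cos (arcsin (13 / 15)) = 2 * √14 / 15 := by
    rw [Real.cos_arcsin]
    rw [show (1 - (13 / 15 : ℝ) ^ 2) = (2 ^ 2 * 14) / 15 ^ 2 by norm_num]
    rw [Real.sqrt_div (by norm_num), Real.sqrt_sq (by norm_num), Real.sqrt_mul (by norm_num),
      Real.sqrt_sq (by norm_num)]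
  refine ⟨⟨-113 / 225, ?_⟩, ⟨52 / 225, ?_⟩⟩
  · rw [Real.cos_two_mul', hs, hc, div_pow, mul_pow, Real.sq_sqrt (by norm_num)]; norm_num
  · rw [Real.sin_two_mul, hs, hc]; push_cast; ring

lemma cos_a : cos (2 * arcsin (45 / 52)) = ((-673 / 1352 : ℚ) : ℝ) := by
  have hs : sin (arcsin (45 / 52)) = 45 / 52 := Real.sin_arcsin (by norm_num) (by norm_num)
  have hc : cos (arcsin (45 / 52)) = √679 / 52 := by
    rw [Real.cos_arcsin]
    rw [show (1 - (45 / 52 : ℝ) ^ 2) = 679 / 52 ^ 2 by norm_num]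
    rw [Real.sqrt_div (by norm_num), Real.sqrt_sq (by norm_num)]
  rw [Real.cos_two_mul', hs, hc, div_pow, Real.sq_sqrt (by norm_num)]; norm_num

lemma cos_b : cos (2 * arcsin (13 / 15)) = ((-113 / 225 : ℚ) : ℝ) := by
  have hs : sin (arcsin (13 / 15)) = 13 / 15 := Real.sin_arcsin (by norm_num) (by norm_num)
  have hc : cos (arcsin (13 / 15)) = 2 * √14 / 15 := by
    rw [Real.cos_arcsin]
    rw [show (1 - (13 / 15 : ℝ) ^ 2) = (2 ^ 2 * 14) / 15 ^ 2 by norm_num]
    rw [Real.sqrt_div (by norm_num), Real.sqrt_sq (by norm_num), Real.sqrt_mul (by norm_num),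
      Real.sqrt_sq (by norm_num)]
  rw [Real.cos_two_mul', hs, hc, div_pow, mul_pow, Real.sq_sqrt (by norm_num)]; norm_num

lemma irr : Irrational √(9506 : ℝ) := by
  have h : ¬ IsSquare (9506 : ℕ) := by
    rintro ⟨r, hr⟩
    have h1 : r < 98 := by nlinarith
    have h2 : 97 < r := by nlinarith
    omega
  exact_mod_cast (irrational_sqrt_natCast_iff (n := 9506)).mpr h

/-- a rational multiple of `√679` equal to a rational multiple of `√14` is zero -/
lemma sqrt_indep {s t : ℚ} (h : (s : ℝ) * √679 = t * √14) : s = 0 ∧ t = 0 := by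
  by_cases ht : t = 0
  · subst ht
    simp only [Rat.cast_zero, zero_mul] at h
    rcases mul_eq_zero.mp h with h1 | h1
    · exact ⟨by exact_mod_cast h1, rfl⟩
    · rw [Real.sqrt_eq_zero (by norm_num)] at h1
      norm_num at h1
  · exfalso
    apply irr
    refine ⟨s * 679 / t, ?_⟩
    have ht' : (t : ℝ) ≠ 0 := by exact_mod_cast ht
    have h1 : √(9506 : ℝ) = √679 * √14 := by
      rw [← Real.sqrt_mul (by norm_num)]; norm_num
    have h2 : √(679:ℝ) * √679 = 679 := Real.mul_self_sqrt (by norm_num)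
    have h3 : (s : ℝ) * 679 = t * √9506 := by
      calc (s:ℝ) * 679 = s * √679 * √679 := by rw [mul_assoc, h2]
        _ = t * √14 * √679 := by rw [h]
        _ = t * √9506 := by rw [h1]; ring
    push_cast
    rw [h3]
    field_simp

/-- a positive multiple of an angle with non-exceptional rational cosine has nonzero sine -/
lemma sin_ne_zero_of {x : ℝ} {c : ℚ} (hc : cos x = c) (h1 : c ≠ -1) (h2 : c ≠ -1/2) (h3 : c ≠ 0)
    (h4 : c ≠ 1/2) (h5 : c ≠ 1) {k : ℕ} (hk : k ≠ 0) : sin (k * x) ≠ 0 := by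
  intro h
  rw [Real.sin_eq_zero_iff] at h
  obtain ⟨n, hn⟩ := h
  have hk' : (k : ℝ) ≠ 0 := by exact_mod_cast hk
  have hx : ∃ r : ℚ, x = r * π := by
    refine ⟨n / k, ?_⟩
    push_cast
    field_simp
    linarith
  have := niven hx ⟨c, hc⟩
  rw [hc] at this
  simp only [Set.mem_insert_iff, Set.mem_singleton_iff] at this
  rcases this with h | h | h | h | h
  · exact h1 (by exact_mod_cast h)
  · apply h2
    have : (c : ℝ) = ((-1/2 : ℚ) : ℝ) := by rw [h]; push_cast; ring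
    exact_mod_cast this
  · exact h3 (by exact_mod_cast h)
  · apply h4
    have : (c : ℝ) = ((1/2 : ℚ) : ℝ) := by rw [h]; push_cast; ring
    exact_mod_cast this
  · exact h5 (by exact_mod_cast h)

/-- **Independence** of the two deviations. -/
theorem indep {a b : ℕ} (h : (a : ℝ) * ea + b * eb = 0) : a = 0 ∧ b = 0 := by
  set A := 2 * arcsin (45 / 52) with hA
  set B := 2 * arcsin (13 / 15) with hB
  have hrel : ((3 * a : ℕ) : ℝ) * A = (a + b : ℕ) * (2 * π) - ((3 * b : ℕ) : ℝ) * B := by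
    unfold ea eb at h
    rw [← hA, ← hB] at h
    push_cast
    linarith
  have h1 := QF_nsmul (d := 679) ⟨679, by norm_num⟩ QF_a (3 * a)
  have h2 := QF_nsmul (d := 14) ⟨14, by norm_num⟩ QF_b (3 * b)
  obtain ⟨_, ⟨s, hs⟩⟩ := h1
  obtain ⟨_, ⟨t, ht⟩⟩ := h2
  rw [← hA] at hs
  rw [← hB] at ht
  have hsin : sin (((3 * a : ℕ) : ℝ) * A) = - sin (((3 * b : ℕ) : ℝ) * B) := by
    rw [hrel, Real.sin_nat_mul_two_pi_sub]
  have h3 : (s : ℝ) * √679 = ((-t : ℚ) : ℝ) * √14 := by
    rw [← hs, hsin, ht]; push_cast; ring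
  obtain ⟨hs0, ht0⟩ := sqrt_indep h3
  constructor
  · by_contra ha
    refine sin_ne_zero_of cos_a (by norm_num) (by norm_num) (by norm_num) (by norm_num)
      (by norm_num) (k := 3 * a) (by omega) ?_
    rw [hs, hs0]; simp
  · by_contra hb
    refine sin_ne_zero_of cos_b (by norm_num) (by norm_num) (by norm_num) (by norm_num)
      (by norm_num) (k := 3 * b) (by omega) ?_
    have : t = 0 := by linarith [ht0]
    rw [ht, this]; simp

end Angles
end Pool.Agent.Helper66
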