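import Mathlib

/-!
# Geodesic multinets in the Euclidean plane

The Euclidean plane is modelled by `ℂ` (with its usual norm, i.e. the Euclidean distance).
-/

namespace Pool.Agent.Helper66

/-- A geodesic multinet in the Euclidean plane `ℂ`.

* `vertices` is the finite set of all vertices, `unbalanced` the prescribed set of
  unbalanced (boundary) vertices;
* the edges are straight segments between vertices, and `mult x y` is the multiplicity of the
  edge with endpoints `x` and `y`, where `mult x y = 0` means that there is no such edge. -/
structure GeodesicMultinet where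
  vertices : Finset ℂ
  unbalanced : Finset ℂ
  mult : ℂ → ℂ → ℕ
  /-- unbalanced vertices are vertices -/
  unbalanced_subset : unbalanced ⊆ vertices
  /-- edges are unordered -/
  mult_symm : ∀ x y, mult x y = mult y x
  /-- edges are non-degenerate -/
  mult_self : ∀ x, mult x x = 0
  /-- endpoints of edges are vertices -/
  mult_mem : ∀ x y, mult x y ≠ 0 → x ∈ vertices ∧ y ∈ vertices
  /-- two distinct edges meet only at a common endpoint -/
  meet : ∀ x y x' y' z, mult x y ≠ 0 → mult x' y' ≠ 0 → s(x, y) ≠ s(x', y') →
    z ∈ segment ℝ x y → z ∈ segment ℝ x' y' → (z = x ∨ z = y) ∧ (z = x' ∨ z = y')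
  /-- the graph is nonempty -/
  nonempty : vertices.Nonempty
  /-- the graph is connected -/
  connected : ∀ x ∈ vertices, ∀ y ∈ vertices,
    Relation.ReflTransGen (fun a b => mult a b ≠ 0) x y
  /-- at every balanced vertex the unit vectors along the edges, weighted by the
  multiplicities, sum to zero -/
  balanced : ∀ v ∈ vertices, v ∉ unbalanced →
    ∑ w ∈ vertices, (mult v w : ℝ) • ((‖w - v‖⁻¹ : ℝ) • (w - v)) = 0
  /-- every balanced vertex is an endpoint of at least three edges -/
  three_le_degree : ∀ v ∈ vertices, v ∉ unbalanced →
    3 ≤ (vertices.filter (fun w => mult v w ≠ 0)).card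
  /-- no edge joins two unbalanced vertices -/
  no_unbalanced_edge : ∀ x ∈ unbalanced, ∀ y ∈ unbalanced, mult x y = 0

end Pool.Agent.Helper66
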