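import Pool.Agent.Helper66.NetGeom

/-!
# The spiral nets: conclusion
-/

namespace Pool.Agent.Helper66
namespace Geom

open Real Strands Pool.Agent.Helper66.Seq Finset Relation

/-- starting points of the strands -/
noncomputable def P (N : ℕ) (Δ : ℕ → ℝ) : Fin (N + 1) ⊕ Fin N → ℂ
  | .inl j => v Δ j
  | .inr j => v Δ ((j : ℕ) + 1)

/-- end points of the strands -/
noncomputable def Q (N : ℕ) (Δ : ℕ → ℝ) : Fin (N + 1) ⊕ Fin N → ℂ
  | .inl j => v Δ ((j : ℕ) + 1)
  | .inr j => A ((j : ℕ) + 1)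

/-- multiplicities of the strands -/
def W (N : ℕ) (qq : ℕ → ℕ) : Fin (N + 1) ⊕ Fin N → ℕ
  | .inl _ => 390
  | .inr j => qq ((j : ℕ) + 1)

/-- directions of the strands -/
noncomputable def D (N : ℕ) (Δ : ℕ → ℝ) : Fin (N + 1) ⊕ Fin N → ℂ
  | .inl j => u Δ j
  | .inr j => g Δ ((j : ℕ) + 1)

/-- lengths of the strands -/
noncomputable def S (N : ℕ) (Δ : ℕ → ℝ) : Fin (N + 1) ⊕ Fin N → ℝ
  | .inl j => lam Δ j
  | .inr j => t Δ ((j : ℕ) + 1)

section
variable {N : ℕ} {Δ : ℕ → ℝ} {qq : ℕ → ℕ} (H : Valid N Δ qq)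
include H

lemma S_pos (i) : 0 < S N Δ i := by
  rcases i with j | j
  · exact lam_pos H (by omega)
  · exact t_pos H (by omega) (by omega)

lemma S_lt (i) : S N Δ i < 1 := by
  rcases i with j | j
  · exact lam_lt H (by omega)
  · have := t_hi H (j := (j : ℕ) + 1) (by omega) (by omega)
    show t Δ ((j : ℕ) + 1) < 1
    linarith

lemma D_norm (i) : ‖D N Δ i‖ = 1 := by
  rcases i with j | j
  · exact u_norm H j
  · exact g_norm H _

lemma QP (i) : Q N Δ i - P N Δ i = S N Δ i • D N Δ i := by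
  rcases i with j | j
  · exact v_sub H (by omega)
  · exact A_sub H _

lemma QP_norm (i) : ‖Q N Δ i - P N Δ i‖ = S N Δ i := by
  rw [QP H, norm_smul, D_norm H, mul_one, Real.norm_eq_abs, abs_of_pos (S_pos H i)]

lemma dir_eq (i) : dir (P N Δ) (Q N Δ) i = D N Δ i := by
  unfold dir
  rw [QP_norm H, QP H, smul_smul, inv_mul_cancel₀ (S_pos H i).ne', one_smul]

lemma P_ne_Q (i) : P N Δ i ≠ Q N Δ i := by
  intro h
  have h1 := QP_norm H i
  rw [← h, sub_self, norm_zero] at h1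
  exact (S_pos H i).ne h1

lemma DD {i j} (hij : i ≠ j) : cross (D N Δ i) (D N Δ j) ≠ 0 := by
  rcases i with i | i <;> rcases j with j | j
  · have h1 : (i : ℕ) ≠ (j : ℕ) := fun h => hij (congrArg _ (Fin.ext h))
    rcases lt_or_gt_of_ne h1 with h | h
    · exact uu H h (by omega)
    · rw [cross_comm' H, neg_ne_zero]
      exact uu H h (by omega)
  · exact ug H (by omega) (by omega) (by omega)
  · rw [cross_comm' H, neg_ne_zero]
    exact ug H (by omega) (by omega) (by omega)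
  · have h1 : (i : ℕ) ≠ (j : ℕ) := fun h => hij (congrArg _ (Fin.ext h))
    rcases lt_or_gt_of_ne h1 with h | h
    · exact gg H (by omega) (by omega) (by omega)
    · rw [cross_comm' H, neg_ne_zero]
      exact gg H (by omega) (by omega) (by omega)

lemma hnp (i j) (hij : i ≠ j) :
    cross (Q N Δ i - P N Δ i) (Q N Δ j - P N Δ j) ≠ 0 := by
  rw [QP H, QP H, cross_smul]
  exact mul_ne_zero (mul_ne_zero (S_pos H i).ne' (S_pos H j).ne') (DD H hij)

lemma v_zero : v Δ 0 = A 0 := by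
  unfold v
  rw [t_zero_first H]; simp

lemma v_last : v Δ (N + 1) = A (N + 1) := by
  unfold v
  rw [t_zero_last H]; simp

lemma hbal (z : ℂ) (hz : z ∉ B) :
    ∑ i, (W N qq i : ℝ) • (cf (P N Δ) (Q N Δ) i z • dir (P N Δ) (Q N Δ) i) = 0 := by
  classical
  set c : ℕ → ℝ := fun j => if z = v Δ j then 1 else 0 with hc
  have c0 : c 0 = 0 := by
    rw [hc]
    refine if_neg fun h => hz ?_
    rw [h, v_zero H]; exact A_mem 0
  have c1 : c (N + 1) = 0 := by
    rw [hc]
    refine if_neg fun h => hz ?_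
    rw [h, v_last H]; exact A_mem _
  have hcf : ∀ i, cf (P N Δ) (Q N Δ) i z =
      (if z = P N Δ i then (1 : ℝ) else 0) - (if z = Q N Δ i then (1 : ℝ) else 0) := by
    intro i
    unfold cf
    congr
  rw [Fintype.sum_sum_type]
  have e1 : ∀ j : Fin (N + 1), (W N qq (.inl j) : ℝ) •
      (cf (P N Δ) (Q N Δ) (.inl j) z • dir (P N Δ) (Q N Δ) (.inl j)) =
      (fun j : ℕ => (390 : ℝ) • ((c j - c (j + 1)) • u Δ j)) j := by
    intro j
    rw [dir_eq H, hcf]
    simp only [W, P, Q, D, hc, Nat.cast_ofNat]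
    rfl
  have e2 : ∀ j : Fin N, (W N qq (.inr j) : ℝ) •
      (cf (P N Δ) (Q N Δ) (.inr j) z • dir (P N Δ) (Q N Δ) (.inr j)) =
      (fun j : ℕ => (qq (j + 1) : ℝ) • (c (j + 1) • g Δ (j + 1))) j := by
    intro j
    rw [dir_eq H, hcf]
    have : z ≠ A ((j : ℕ) + 1) := fun h => hz (h ▸ A_mem _)
    simp only [W, P, Q, D, hc]
    rw [if_neg this, sub_zero]
    rfl
  rw [Finset.sum_congr rfl (fun j _ => e1 j), Finset.sum_congr rfl (fun j _ => e2 j),
    Fin.sum_univ_eq_sum_range (fun j : ℕ => (390 : ℝ) • ((c j - c (j + 1)) • u Δ j)) (N + 1),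
    Fin.sum_univ_eq_sum_range (fun j : ℕ => (qq (j + 1) : ℝ) • (c (j + 1) • g Δ (j + 1))) N]
  have e3 : ∑ j ∈ range (N + 1), (390 : ℝ) • ((c j - c (j + 1)) • u Δ j) =
      ∑ j ∈ range N, (390 : ℝ) • (c (j + 1) • (u Δ (j + 1) - u Δ j)) := by
    have f1 : ∑ j ∈ range (N + 1), (390 : ℝ) • ((c j - c (j + 1)) • u Δ j) =
        ∑ j ∈ range (N + 1), (390 : ℝ) • (c j • u Δ j) -
        ∑ j ∈ range (N + 1), (390 : ℝ) • (c (j + 1) • u Δ j) := by
      rw [← Finset.sum_sub_distrib]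
      refine Finset.sum_congr rfl fun j _ => ?_
      rw [sub_smul, smul_sub]
    rw [f1, Finset.sum_range_succ', c0, Finset.sum_range_succ _ N, c1]
    simp only [zero_smul, smul_zero, add_zero]
    rw [← Finset.sum_sub_distrib]
    refine Finset.sum_congr rfl fun j _ => ?_
    rw [smul_sub, smul_sub]
  rw [e3, ← Finset.sum_add_distrib]
  refine Finset.sum_eq_zero fun j hj => ?_
  rw [Finset.mem_range] at hj
  have hb := balance (Δ := Δ) j (qq (j + 1) : ℝ) (by
    have := H.turn (j + 1) (by omega) (by omega)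
    exact this)
  have e4 : (390 : ℝ) • (c (j + 1) • (u Δ (j + 1) - u Δ j)) +
      (qq (j + 1) : ℝ) • (c (j + 1) • g Δ (j + 1)) =
      c (j + 1) • ((390 : ℝ) • (u Δ (j + 1) - u Δ j) + (qq (j + 1) : ℝ) • g Δ (j + 1)) := by
    rw [smul_add, smul_comm (c (j + 1)) (390 : ℝ), smul_comm (c (j + 1)) (qq (j + 1) : ℝ)]
  rw [e4, hb, smul_zero]

lemma hB (a : ℂ) (ha : a ∈ B) : ∃ i, a = P N Δ i ∨ a = Q N Δ i := by
  have h3 := H.three
  unfold B at ha
  simp only [Finset.mem_insert, Finset.mem_singleton] at ha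
  rcases ha with rfl | rfl | rfl
  · exact ⟨.inl ⟨0, by omega⟩, Or.inl (v_zero H).symm⟩
  · exact ⟨.inr ⟨0, by omega⟩, Or.inr rfl⟩
  · exact ⟨.inr ⟨1, by omega⟩, Or.inr rfl⟩

lemma hBB (i) (a : ℂ) (ha : a ∈ B) (b : ℂ) (hb : b ∈ B) (h1 : a ∈ sg (P N Δ) (Q N Δ) i)
    (h2 : b ∈ sg (P N Δ) (Q N Δ) i) : a = b := by
  by_contra hab
  have hd := B_dist ha hb hab
  unfold sg at h1 h2
  rw [seg_iff] at h1 h2
  obtain ⟨s, s0, s1, rfl⟩ := h1
  obtain ⟨r, r0, r1, rfl⟩ := h2
  have e : P N Δ i + s • (Q N Δ i - P N Δ i) - (P N Δ i + r • (Q N Δ i - P N Δ i)) =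
      (s - r) • (Q N Δ i - P N Δ i) := by
    rw [sub_smul]; abel
  rw [e, norm_smul, QP_norm H, Real.norm_eq_abs] at hd
  have hl := S_lt H i
  have hp := S_pos H i
  have : |s - r| ≤ 1 := by rw [abs_le]; constructor <;> linarith
  nlinarith

omit H in
lemma hconn (i j) :
    ReflTransGen (fun i j => ∃ z, z ∈ sg (P N Δ) (Q N Δ) i ∧ z ∈ sg (P N Δ) (Q N Δ) j) i j := by
  set R : Fin (N + 1) ⊕ Fin N → Fin (N + 1) ⊕ Fin N → Prop :=
    fun i j => ∃ z, z ∈ sg (P N Δ) (Q N Δ) i ∧ z ∈ sg (P N Δ) (Q N Δ) j with hR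
  have hsymm : ∀ x y, R x y → R y x := by
    rintro x y ⟨z, h1, h2⟩
    exact ⟨z, h2, h1⟩
  have hsymm' : ∀ x y, ReflTransGen R x y → ReflTransGen R y x := by
    intro x y hxy
    induction hxy with
    | refl => exact ReflTransGen.refl
    | tail _ h2 ih => exact ReflTransGen.head (hsymm _ _ h2) ih
  have hl : ∀ k (hk : k < N + 1), ReflTransGen R (.inl ⟨0, by omega⟩) (.inl ⟨k, hk⟩) := by
    intro k
    induction k with
    | zero => intro _; exact ReflTransGen.refl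
    | succ k ih =>
      intro hk
      refine ReflTransGen.tail (ih (by omega)) ?_
      refine ⟨v Δ (k + 1), ?_, ?_⟩
      · exact right_mem_segment ℝ _ _
      · exact left_mem_segment ℝ _ _
  have hall : ∀ x, ReflTransGen R (.inl ⟨0, by omega⟩) x := by
    rintro (k | k)
    · exact hl k k.2
    · refine ReflTransGen.tail (hl k (by omega)) ?_
      refine ⟨v Δ ((k : ℕ) + 1), ?_, ?_⟩
      · exact right_mem_segment ℝ _ _
      · exact left_mem_segment ℝ _ _
  exact (hsymm' _ _ (hall i)).trans (hall j)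

lemma v_notMem {j : ℕ} (h1 : 1 ≤ j) (h2 : j ≤ N) : v Δ j ∉ B := by
  intro hv
  have hn : ‖A j - v Δ j‖ = t Δ j := by
    rw [A_sub H, norm_smul, g_norm H, mul_one, Real.norm_eq_abs, abs_of_pos (t_pos H h1 h2)]
  by_cases hA : A j = v Δ j
  · rw [hA, sub_self, norm_zero] at hn
    exact (t_pos H h1 h2).ne hn
  · have := B_dist (A_mem j) hv hA
    have := t_hi H h1 h2
    linarith

lemma v_inj {i j : ℕ} (hi : 1 ≤ i) (hij : i < j) (hj : 3 * j ≤ N) : v Δ (3 * i) ≠ v Δ (3 * j) := by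
  intro h
  have h1 := A_sub H (3 * i)
  have h2 := A_sub H (3 * j)
  have e1 : A (3 * i) = A 0 := by rw [A_mod, Nat.mul_mod_right]
  have e2 : A (3 * j) = A 0 := by rw [A_mod, Nat.mul_mod_right]
  rw [e1] at h1
  rw [e2, ← h, h1] at h2
  have hg := gg H (i := 3 * i) (j := 3 * j) (by omega) (by omega) (by omega)
  have t1 := t_pos H (j := 3 * i) (by omega) (by omega)
  have t2 := t_pos H (j := 3 * j) (by omega) (by omega)
  have hc : cross (t Δ (3 * i) • g Δ (3 * i)) (t Δ (3 * j) • g Δ (3 * j)) = 0 := by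
    rw [h2]; unfold cross; ring
  rw [cross_smul] at hc
  exact mul_ne_zero (mul_ne_zero t1.ne' t2.ne') hg hc

theorem exists_net (K : ℕ) (hK : 3 * (K + 1) ≤ N) :
    ∃ M : GeodesicMultinet, M.unbalanced = B ∧ (∀ x y, M.mult x y ≤ 676) ∧
      K < (M.vertices \ M.unbalanced).card := by
  classical
  have : Nonempty (Fin (N + 1) ⊕ Fin N) := ⟨.inl ⟨0, by omega⟩⟩
  obtain ⟨M, hM1, hM2, hM3⟩ := exists_multinet (P N Δ) (Q N Δ) (W N qq) B
    (by
      rintro (j | j)
      · show 0 < 390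
        norm_num
      · exact H.qpos _)
    (P_ne_Q H) (hnp H) (hbal H) (hB H) (hBB H) hconn 676
    (by
      rintro (j | j)
      · show 390 ≤ 676
        norm_num
      · exact H.qle _)
  refine ⟨M, hM1, hM2, ?_⟩
  set T : Finset ℂ := (Finset.range (K + 1)).image (fun i => v Δ (3 * (i + 1))) with hT
  have hTcard : T.card = K + 1 := by
    rw [hT, Finset.card_image_of_injOn, Finset.card_range]
    intro i hi j hj hij
    simp only [Finset.coe_range, Set.mem_Iio] at hi hj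
    by_contra hne
    rcases lt_or_gt_of_ne hne with h | h
    · exact v_inj H (i := i + 1) (j := j + 1) (by omega) (by omega) (by omega) hij
    · exact v_inj H (i := j + 1) (j := i + 1) (by omega) (by omega) (by omega) hij.symm
  have hsub : T ⊆ M.vertices \ M.unbalanced := by
    intro z hz
    rw [hT, Finset.mem_image] at hz
    obtain ⟨i, hi, rfl⟩ := hz
    rw [Finset.mem_range] at hi
    rw [Finset.mem_sdiff, hM1]
    refine ⟨?_, v_notMem H (by omega) (by omega)⟩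
    exact (hM3 (.inl ⟨3 * (i + 1), by omega⟩)).1
  have := Finset.card_le_card hsub
  omega

end

theorem main : ∃ A : Finset ℂ, A.card = 3 ∧ ∀ K : ℕ,
    ∃ N : GeodesicMultinet, N.unbalanced = A ∧ (∀ x y, N.mult x y ≤ 676) ∧
      K < (N.vertices \ N.unbalanced).card := by
  refine ⟨B, B_card, fun K => ?_⟩
  exact exists_net (Seq.valid (3 * (K + 1)) (by omega)) K (by omega)

end Geom
end Pool.Agent.Helper66
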