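import Pool.Agent.Helper66.NetDefs

/-!
# From weighted strands to geodesic multinets
-/

namespace Pool.Agent.Helper66
namespace Strands

open Relation

/-- the planar cross product -/
def cross (a b : ℂ) : ℝ := a.re * b.im - a.im * b.re

variable {ι : Type} (p q : ι → ℂ)

/-- the strand as a segment -/
def sg (i : ι) : Set ℂ := segment ℝ (p i) (q i)

/-- parameter along the strand -/
noncomputable def tau (i : ι) (z : ℂ) : ℝ :=
  ((z - p i).re * (q i - p i).re + (z - p i).im * (q i - p i).im) / Complex.normSq (q i - p i)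

lemma seg_iff (x y z : ℂ) :
    z ∈ segment ℝ x y ↔ ∃ t : ℝ, 0 ≤ t ∧ t ≤ 1 ∧ z = x + t • (y - x) := by
  rw [segment_eq_image']
  constructor
  · rintro ⟨t, ⟨h0, h1⟩, rfl⟩
    exact ⟨t, h0, h1, rfl⟩
  · rintro ⟨t, h0, h1, rfl⟩
    exact ⟨t, ⟨h0, h1⟩, rfl⟩

lemma tau_affine (i : ι) (x y : ℂ) (t : ℝ) :
    tau p q i (x + t • (y - x)) = tau p q i x + t * (tau p q i y - tau p q i x) := by
  unfold tau
  simp only [Complex.sub_re, Complex.sub_im, Complex.add_re, Complex.add_im, Complex.real_smul,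
    Complex.mul_re, Complex.mul_im, Complex.ofReal_re, Complex.ofReal_im]
  ring

lemma tau_p (i : ι) : tau p q i (p i) = 0 := by
  simp [tau]

lemma tau_q (i : ι) (h : p i ≠ q i) : tau p q i (q i) = 1 := by
  unfold tau
  have : Complex.normSq (q i - p i) ≠ 0 := by
    rw [Ne, Complex.normSq_eq_zero, sub_eq_zero]
    exact fun h' => h h'.symm
  rw [div_eq_one_iff_eq this, Complex.normSq_apply]

lemma mem_sg (i : ι) (h : p i ≠ q i) (z : ℂ) :
    z ∈ sg p q i ↔ 0 ≤ tau p q i z ∧ tau p q i z ≤ 1 ∧ z = p i + tau p q i z • (q i - p i) := by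
  unfold sg
  rw [seg_iff]
  constructor
  · rintro ⟨t, h0, h1, rfl⟩
    have : tau p q i (p i + t • (q i - p i)) = t := by
      rw [tau_affine, tau_p, tau_q p q i h]; ring
    rw [this]
    exact ⟨h0, h1, rfl⟩
  · rintro ⟨h0, h1, h2⟩
    exact ⟨_, h0, h1, h2⟩

lemma p_mem (i : ι) : p i ∈ sg p q i := left_mem_segment ℝ _ _
lemma q_mem (i : ι) : q i ∈ sg p q i := right_mem_segment ℝ _ _

lemma tau_inj (i : ι) (h : p i ≠ q i) {x y : ℂ} (hx : x ∈ sg p q i) (hy : y ∈ sg p q i)
    (hxy : tau p q i x = tau p q i y) : x = y := by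
  rw [mem_sg p q i h] at hx hy
  rw [hx.2.2, hy.2.2, hxy]

lemma sub_eq (i : ι) (h : p i ≠ q i) {x y : ℂ} (hx : x ∈ sg p q i) (hy : y ∈ sg p q i) :
    y - x = (tau p q i y - tau p q i x) • (q i - p i) := by
  rw [mem_sg p q i h] at hx hy
  conv_lhs => rw [hx.2.2, hy.2.2]
  rw [sub_smul]
  ring

/-- between -/
lemma tau_between (i : ι) {x y z : ℂ} (hz : z ∈ segment ℝ x y) :
    min (tau p q i x) (tau p q i y) ≤ tau p q i z ∧
    tau p q i z ≤ max (tau p q i x) (tau p q i y) := by
  rw [seg_iff] at hz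
  obtain ⟨t, h0, h1, rfl⟩ := hz
  rw [tau_affine]
  set a := tau p q i x
  set b := tau p q i y
  rcases le_total a b with hab | hab
  · rw [min_eq_left hab, max_eq_right hab]
    constructor <;> nlinarith
  · rw [min_eq_right hab, max_eq_left hab]
    constructor <;> nlinarith

lemma seg_sub (i : ι) {x y z : ℂ} (hx : x ∈ sg p q i) (hy : y ∈ sg p q i)
    (hz : z ∈ segment ℝ x y) : z ∈ sg p q i :=
  (convex_segment (p i) (q i)).segment_subset hx hy hz

/-- non parallel strands meet at most once -/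
lemma sub_single (i j : ι) (hi : p i ≠ q i) (hj : p j ≠ q j)
    (hc : cross (q i - p i) (q j - p j) ≠ 0) {x y : ℂ}
    (hxi : x ∈ sg p q i) (hxj : x ∈ sg p q j) (hyi : y ∈ sg p q i) (hyj : y ∈ sg p q j) :
    x = y := by
  by_contra hne
  have h1 := sub_eq p q i hi hxi hyi
  have h2 := sub_eq p q j hj hxj hyj
  set s := tau p q i y - tau p q i x
  set t := tau p q j y - tau p q j x
  have hs : s ≠ 0 := by
    intro h0
    rw [h0, zero_smul, sub_eq_zero] at h1
    exact hne h1.symm
  have ht : t ≠ 0 := by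
    intro h0
    rw [h0, zero_smul, sub_eq_zero] at h2
    exact hne h2.symm
  have h3 : s • (q i - p i) = t • (q j - p j) := by rw [← h1, ← h2]
  apply hc
  have hre := congrArg Complex.re h3
  have him := congrArg Complex.im h3
  simp only [Complex.real_smul, Complex.mul_re, Complex.mul_im, Complex.ofReal_re,
    Complex.ofReal_im, zero_mul, sub_zero, add_zero] at hre him
  have h4 : s * t * cross (q i - p i) (q j - p j) = 0 := by
    unfold cross
    have : s * t * ((q i - p i).re * (q j - p j).im - (q i - p i).im * (q j - p j).re)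
      = (s * (q i - p i).re) * (t * (q j - p j).im) - (s * (q i - p i).im) * (t * (q j - p j).re) := by
      ring
    rw [this, hre, him]; ring
  rcases mul_eq_zero.mp h4 with h5 | h5
  · rcases mul_eq_zero.mp h5 with h6 | h6
    · exact absurd h6 hs
    · exact absurd h6 ht
  · exact h5

/-- the vertex set -/
def VS : Set ℂ := {z | ∃ i, z = p i ∨ z = q i} ∪
  ⋃ (i : ι) (j : ι), {z | i ≠ j ∧ z ∈ sg p q i ∧ z ∈ sg p q j}

lemma VS_finite [Finite ι] (hne : ∀ i, p i ≠ q i)
    (hnp : ∀ i j, i ≠ j → cross (q i - p i) (q j - p j) ≠ 0) : (VS p q).Finite := by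
  unfold VS
  apply Set.Finite.union
  · have : {z | ∃ i, z = p i ∨ z = q i} = Set.range p ∪ Set.range q := by
      ext z
      simp only [Set.mem_ofPred_eq, Set.mem_union, Set.mem_range]
      constructor
      · rintro ⟨i, h | h⟩
        · exact Or.inl ⟨i, h.symm⟩
        · exact Or.inr ⟨i, h.symm⟩
      · rintro (⟨i, h⟩ | ⟨i, h⟩)
        · exact ⟨i, Or.inl h.symm⟩
        · exact ⟨i, Or.inr h.symm⟩
    rw [this]
    exact (Set.finite_range p).union (Set.finite_range q)
  · apply Set.finite_iUnion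
    intro i
    apply Set.finite_iUnion
    intro j
    apply Set.Subsingleton.finite
    rintro x ⟨hij, hxi, hxj⟩ y ⟨_, hyi, hyj⟩
    exact sub_single p q i j (hne i) (hne j) (hnp i j hij) hxi hxj hyi hyj

/-- the combinatorial data of an arrangement of strands with vertex set `V` -/
structure Good (V : Finset ℂ) : Prop where
  ne : ∀ i, p i ≠ q i
  np : ∀ i j, i ≠ j → cross (q i - p i) (q j - p j) ≠ 0
  hp : ∀ i, p i ∈ V
  hq : ∀ i, q i ∈ V
  hx : ∀ i j z, i ≠ j → z ∈ sg p q i → z ∈ sg p q j → z ∈ V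
  hV : ∀ z ∈ V, (∃ i, z = p i ∨ z = q i) ∨ ∃ i j, i ≠ j ∧ z ∈ sg p q i ∧ z ∈ sg p q j

/-- consecutive vertices on strand `i` -/
def adj (V : Finset ℂ) (i : ι) (z w : ℂ) : Prop :=
  z ∈ V ∧ w ∈ V ∧ z ∈ sg p q i ∧ w ∈ sg p q i ∧ z ≠ w ∧
    ∀ v ∈ V, v ∈ sg p q i → ¬ (min (tau p q i z) (tau p q i w) < tau p q i v ∧
      tau p q i v < max (tau p q i z) (tau p q i w))

variable {p q} {V : Finset ℂ}

lemma adj_symm {i : ι} {z w : ℂ} (h : adj p q V i z w) : adj p q V i w z := by
  obtain ⟨h1, h2, h3, h4, h5, h6⟩ := h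
  refine ⟨h2, h1, h4, h3, h5.symm, ?_⟩
  intro v hv hvi
  rw [min_comm, max_comm]
  exact h6 v hv hvi

lemma adj_strand (hG : Good p q V) {i j : ι} {z w : ℂ} (h : adj p q V i z w)
    (h' : adj p q V j z w) : i = j := by
  by_contra hij
  exact h.2.2.2.2.1 (sub_single p q i j (hG.ne i) (hG.ne j) (hG.np i j hij) h.2.2.1 h'.2.2.1
    h.2.2.2.1 h'.2.2.2.1)

lemma mem_seg_V (hG : Good p q V) {z : ℂ} (hz : z ∈ V) : ∃ i, z ∈ sg p q i := by
  rcases hG.hV z hz with ⟨i, h | h⟩ | ⟨i, j, _, h, _⟩
  · exact ⟨i, h ▸ p_mem p q i⟩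
  · exact ⟨i, h ▸ q_mem p q i⟩
  · exact ⟨i, h⟩

lemma next_exists (hG : Good p q V) {i : ι} {z : ℂ} (hz : z ∈ V) (hzi : z ∈ sg p q i)
    (hzq : z ≠ q i) : ∃ w, adj p q V i z w ∧ tau p q i z < tau p q i w := by
  classical
  set S := V.filter (fun w => w ∈ sg p q i ∧ tau p q i z < tau p q i w) with hS
  have hne : S.Nonempty := by
    refine ⟨q i, ?_⟩
    rw [hS, Finset.mem_filter]
    refine ⟨hG.hq i, q_mem p q i, ?_⟩
    have h1 := ((mem_sg p q i (hG.ne i) z).mp hzi).2.1
    rw [tau_q p q i (hG.ne i)]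
    rcases lt_or_eq_of_le h1 with h | h
    · exact h
    · exfalso
      apply hzq
      apply tau_inj p q i (hG.ne i) hzi (q_mem p q i)
      rw [h, tau_q p q i (hG.ne i)]
  obtain ⟨w, hwS, hmin⟩ := S.exists_min_image (tau p q i) hne
  rw [hS, Finset.mem_filter] at hwS
  refine ⟨w, ⟨hz, hwS.1, hzi, hwS.2.1, ?_, ?_⟩, hwS.2.2⟩
  · rintro rfl
    exact lt_irrefl _ hwS.2.2
  · rintro v hv hvi ⟨h1, h2⟩
    rw [min_eq_left hwS.2.2.le] at h1
    rw [max_eq_right hwS.2.2.le] at h2
    have := hmin v (by rw [hS, Finset.mem_filter]; exact ⟨hv, hvi, h1⟩)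
    linarith

lemma prev_exists (hG : Good p q V) {i : ι} {z : ℂ} (hz : z ∈ V) (hzi : z ∈ sg p q i)
    (hzp : z ≠ p i) : ∃ w, adj p q V i z w ∧ tau p q i w < tau p q i z := by
  classical
  set S := V.filter (fun w => w ∈ sg p q i ∧ tau p q i w < tau p q i z) with hS
  have hne : S.Nonempty := by
    refine ⟨p i, ?_⟩
    rw [hS, Finset.mem_filter]
    refine ⟨hG.hp i, p_mem p q i, ?_⟩
    have h1 := ((mem_sg p q i (hG.ne i) z).mp hzi).1
    rw [tau_p p q i]
    rcases lt_or_eq_of_le h1 with h | h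
    · exact h
    · exfalso
      apply hzp
      apply tau_inj p q i (hG.ne i) hzi (p_mem p q i)
      rw [← h, tau_p p q i]
  obtain ⟨w, hwS, hmax⟩ := S.exists_max_image (tau p q i) hne
  rw [hS, Finset.mem_filter] at hwS
  refine ⟨w, ⟨hz, hwS.1, hzi, hwS.2.1, ?_, ?_⟩, hwS.2.2⟩
  · rintro rfl
    exact lt_irrefl _ hwS.2.2
  · rintro v hv hvi ⟨h1, h2⟩
    rw [min_eq_right hwS.2.2.le] at h1
    rw [max_eq_left hwS.2.2.le] at h2
    have := hmax v (by rw [hS, Finset.mem_filter]; exact ⟨hv, hvi, h2⟩)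
    linarith

lemma next_unique (hG : Good p q V) {i : ι} {z w w' : ℂ} (h : adj p q V i z w)
    (h' : adj p q V i z w') (hw : tau p q i z < tau p q i w) (hw' : tau p q i z < tau p q i w') :
    w = w' := by
  apply tau_inj p q i (hG.ne i) h.2.2.2.1 h'.2.2.2.1
  rcases lt_trichotomy (tau p q i w) (tau p q i w') with hlt | heq | hlt
  · exfalso
    apply h'.2.2.2.2.2 w h.2.1 h.2.2.2.1
    rw [min_eq_left hw'.le, max_eq_right hw'.le]
    exact ⟨hw, hlt⟩
  · exact heq
  · exfalso
    apply h.2.2.2.2.2 w' h'.2.1 h'.2.2.2.1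
    rw [min_eq_left hw.le, max_eq_right hw.le]
    exact ⟨hw', hlt⟩

lemma prev_unique (hG : Good p q V) {i : ι} {z w w' : ℂ} (h : adj p q V i z w)
    (h' : adj p q V i z w') (hw : tau p q i w < tau p q i z) (hw' : tau p q i w' < tau p q i z) :
    w = w' := by
  apply tau_inj p q i (hG.ne i) h.2.2.2.1 h'.2.2.2.1
  rcases lt_trichotomy (tau p q i w) (tau p q i w') with hlt | heq | hlt
  · exfalso
    apply h.2.2.2.2.2 w' h'.2.1 h'.2.2.2.1
    rw [min_eq_right hw.le, max_eq_left hw.le]
    exact ⟨hlt, hw'⟩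
  · exact heq
  · exfalso
    apply h'.2.2.2.2.2 w h.2.1 h.2.2.2.1
    rw [min_eq_right hw'.le, max_eq_left hw'.le]
    exact ⟨hlt, hw⟩

/-- the unit direction of a strand -/
noncomputable def dir (p q : ι → ℂ) (i : ι) : ℂ := (‖q i - p i‖⁻¹ : ℝ) • (q i - p i)

lemma unit_pos (hG : Good p q V) {i : ι} {z w : ℂ} (hz : z ∈ sg p q i) (hw : w ∈ sg p q i)
    (h : tau p q i z < tau p q i w) : (‖w - z‖⁻¹ : ℝ) • (w - z) = dir p q i := by
  rw [sub_eq p q i (hG.ne i) hz hw, norm_smul, Real.norm_eq_abs, abs_of_pos (by linarith),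
    smul_smul, mul_inv]
  unfold dir
  congr 1
  have : tau p q i w - tau p q i z ≠ 0 := by linarith
  field_simp

lemma unit_neg (hG : Good p q V) {i : ι} {z w : ℂ} (hz : z ∈ sg p q i) (hw : w ∈ sg p q i)
    (h : tau p q i w < tau p q i z) : (‖w - z‖⁻¹ : ℝ) • (w - z) = - dir p q i := by
  rw [← unit_pos hG hw hz h, norm_sub_rev, ← smul_neg, neg_sub]

/-- the neighbours of `z` on strand `i` -/
noncomputable def nb (p q : ι → ℂ) (V : Finset ℂ) (i : ι) (z : ℂ) : Finset ℂ :=
  open Classical in V.filter (fun w => adj p q V i z w)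

lemma mem_nb {i : ι} {z w : ℂ} : w ∈ nb p q V i z ↔ adj p q V i z w := by
  classical
  unfold nb
  rw [Finset.mem_filter]
  exact ⟨fun h => h.2, fun h => ⟨h.2.1, h⟩⟩

lemma nb_sum (hG : Good p q V) (i : ι) {z : ℂ} (hz : z ∈ V) :
    ∑ w ∈ nb p q V i z, ((‖w - z‖⁻¹ : ℝ) • (w - z)) =
      (open Classical in
        ((if z = p i then 1 else 0) - (if z = q i then 1 else 0) : ℝ)) • dir p q i := by
  classical
  by_cases hzi : z ∈ sg p q i
  · -- split into next and previous
    have hsplit : nb p q V i z = (nb p q V i z).filter (fun w => tau p q i z < tau p q i w) ∪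
        (nb p q V i z).filter (fun w => tau p q i w < tau p q i z) := by
      ext w
      simp only [Finset.mem_union, Finset.mem_filter]
      constructor
      · intro hw
        rcases lt_trichotomy (tau p q i z) (tau p q i w) with h | h | h
        · exact Or.inl ⟨hw, h⟩
        · exfalso
          have hw' := mem_nb.mp hw
          exact hw'.2.2.2.2.1 (tau_inj p q i (hG.ne i) hw'.2.2.1 hw'.2.2.2.1 h)
        · exact Or.inr ⟨hw, h⟩
      · rintro (h | h)
        · exact h.1
        · exact h.1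
    have hdisj : Disjoint ((nb p q V i z).filter (fun w => tau p q i z < tau p q i w))
        ((nb p q V i z).filter (fun w => tau p q i w < tau p q i z)) := by
      rw [Finset.disjoint_filter]
      intro w _ h1 h2
      exact lt_asymm h1 h2
    rw [hsplit, Finset.sum_union hdisj]
    have hplus : ∑ w ∈ (nb p q V i z).filter (fun w => tau p q i z < tau p q i w),
        ((‖w - z‖⁻¹ : ℝ) • (w - z)) = (if z = q i then (0:ℝ) else 1) • dir p q i := by
      by_cases hzq : z = q i
      · rw [if_pos hzq]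
        have : (nb p q V i z).filter (fun w => tau p q i z < tau p q i w) = ∅ := by
          rw [Finset.filter_eq_empty_iff]
          intro w hw hlt
          have hw' := mem_nb.mp hw
          have h1 := ((mem_sg p q i (hG.ne i) w).mp hw'.2.2.2.1).2.1
          rw [hzq, tau_q p q i (hG.ne i)] at hlt
          linarith
        rw [this]; simp
      · rw [if_neg hzq]
        obtain ⟨w, hw, hlt⟩ := next_exists hG hz hzi hzq
        have : (nb p q V i z).filter (fun w => tau p q i z < tau p q i w) = {w} := by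
          ext v
          rw [Finset.mem_filter, Finset.mem_singleton]
          constructor
          · rintro ⟨hv, hvlt⟩
            exact next_unique hG (mem_nb.mp hv) hw hvlt hlt
          · rintro rfl
            exact ⟨mem_nb.mpr hw, hlt⟩
        rw [this, Finset.sum_singleton, unit_pos hG hzi hw.2.2.2.1 hlt, one_smul]
    have hminus : ∑ w ∈ (nb p q V i z).filter (fun w => tau p q i w < tau p q i z),
        ((‖w - z‖⁻¹ : ℝ) • (w - z)) = (if z = p i then (0:ℝ) else -1) • dir p q i := by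
      by_cases hzp : z = p i
      · rw [if_pos hzp]
        have : (nb p q V i z).filter (fun w => tau p q i w < tau p q i z) = ∅ := by
          rw [Finset.filter_eq_empty_iff]
          intro w hw hlt
          have hw' := mem_nb.mp hw
          have h1 := ((mem_sg p q i (hG.ne i) w).mp hw'.2.2.2.1).1
          rw [hzp, tau_p p q i] at hlt
          linarith
        rw [this]; simp
      · rw [if_neg hzp]
        obtain ⟨w, hw, hlt⟩ := prev_exists hG hz hzi hzp
        have : (nb p q V i z).filter (fun w => tau p q i w < tau p q i z) = {w} := by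
          ext v
          rw [Finset.mem_filter, Finset.mem_singleton]
          constructor
          · rintro ⟨hv, hvlt⟩
            exact prev_unique hG (mem_nb.mp hv) hw hvlt hlt
          · rintro rfl
            exact ⟨mem_nb.mpr hw, hlt⟩
        rw [this, Finset.sum_singleton, unit_neg hG hzi hw.2.2.2.1 hlt, neg_smul, one_smul]
    rw [hplus, hminus, ← add_smul]
    congr 1
    have hpq := hG.ne i
    by_cases h1 : z = p i
    · have h2 : z ≠ q i := fun h => hpq (h1.symm.trans h)
      rw [if_neg h2, if_pos h1, if_pos h1, if_neg h2]; norm_num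
    · by_cases h2 : z = q i
      · rw [if_pos h2, if_neg h1, if_neg h1, if_pos h2]; norm_num
      · rw [if_neg h2, if_neg h1, if_neg h1, if_neg h2]; norm_num
  · have h1 : z ≠ p i := fun h => hzi (h ▸ p_mem p q i)
    have h2 : z ≠ q i := fun h => hzi (h ▸ q_mem p q i)
    have : nb p q V i z = ∅ := by
      rw [Finset.eq_empty_iff_forall_notMem]
      intro w hw
      exact hzi (mem_nb.mp hw).2.2.1
    rw [this, if_neg h1, if_neg h2]
    simp

/-! ### multiplicities -/

/-- multiplicity of a pair of points -/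
noncomputable def mlt [Fintype ι] (p q : ι → ℂ) (V : Finset ℂ) (wt : ι → ℕ) (z w : ℂ) : ℕ :=
  open Classical in ∑ i, if adj p q V i z w then wt i else 0

lemma mlt_eq [Fintype ι] (hG : Good p q V) (wt : ι → ℕ) {i : ι} {z w : ℂ}
    (h : adj p q V i z w) : mlt p q V wt z w = wt i := by
  classical
  unfold mlt
  rw [Finset.sum_eq_single i]
  · rw [if_pos h]
  · intro j _ hj
    rw [if_neg]
    intro h'
    exact hj (adj_strand hG h' h)
  · intro h'
    exact absurd (Finset.mem_univ i) h'

lemma mlt_ne_zero [Fintype ι] (hG : Good p q V) {wt : ι → ℕ} (hwt : ∀ i, 0 < wt i) {z w : ℂ} :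
    mlt p q V wt z w ≠ 0 ↔ ∃ i, adj p q V i z w := by
  classical
  constructor
  · intro h
    unfold mlt at h
    obtain ⟨i, _, hi⟩ := Finset.exists_ne_zero_of_sum_ne_zero h
    by_cases ha : adj p q V i z w
    · exact ⟨i, ha⟩
    · rw [if_neg ha] at hi
      exact absurd rfl hi
  · rintro ⟨i, hi⟩
    rw [mlt_eq hG wt hi]
    exact (hwt i).ne'

lemma mlt_le [Fintype ι] (hG : Good p q V) {wt : ι → ℕ} {n : ℕ} (hn : ∀ i, wt i ≤ n) (z w : ℂ) :
    mlt p q V wt z w ≤ n := by
  classical
  by_cases h : ∃ i, adj p q V i z w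
  · obtain ⟨i, hi⟩ := h
    rw [mlt_eq hG wt hi]
    exact hn i
  · have : mlt p q V wt z w = 0 := by
      unfold mlt
      apply Finset.sum_eq_zero
      intro i _
      rw [if_neg]
      exact fun h' => h ⟨i, h'⟩
    omega

lemma mlt_symm [Fintype ι] (wt : ι → ℕ) (z w : ℂ) :
    mlt p q V wt z w = mlt p q V wt w z := by
  classical
  unfold mlt
  apply Finset.sum_congr rfl
  intro i _
  by_cases h : adj p q V i z w
  · rw [if_pos h, if_pos (adj_symm h)]
  · rw [if_neg h, if_neg (fun h' => h (adj_symm h'))]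

lemma mlt_self [Fintype ι] (wt : ι → ℕ) (z : ℂ) : mlt p q V wt z z = 0 := by
  classical
  unfold mlt
  apply Finset.sum_eq_zero
  intro i _
  rw [if_neg]
  exact fun h => h.2.2.2.2.1 rfl

/-- the weighted sum of unit vectors at a vertex -/
lemma mlt_sum [Fintype ι] (hG : Good p q V) (wt : ι → ℕ) {z : ℂ} (hz : z ∈ V) :
    ∑ w ∈ V, (mlt p q V wt z w : ℝ) • ((‖w - z‖⁻¹ : ℝ) • (w - z)) =
      ∑ i, (wt i : ℝ) • ((open Classical in
        ((if z = p i then 1 else 0) - (if z = q i then 1 else 0) : ℝ)) • dir p q i) := by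
  classical
  have h1 : ∀ w ∈ V, (mlt p q V wt z w : ℝ) • ((‖w - z‖⁻¹ : ℝ) • (w - z)) =
      ∑ i, if adj p q V i z w then (wt i : ℝ) • ((‖w - z‖⁻¹ : ℝ) • (w - z)) else 0 := by
    intro w _
    unfold mlt
    rw [Nat.cast_sum, Finset.sum_smul]
    apply Finset.sum_congr rfl
    intro i _
    by_cases h : adj p q V i z w
    · rw [if_pos h, if_pos h]
    · rw [if_neg h, if_neg h]; simp
  rw [Finset.sum_congr rfl h1, Finset.sum_comm]
  apply Finset.sum_congr rfl
  intro i _
  rw [← nb_sum hG i hz, ← Finset.sum_filter, Finset.smul_sum]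
  apply Finset.sum_congr
  · unfold nb
    congr!
  · intro w _
    rfl

/-! ### meeting of edges -/

lemma consec_ordered {a b c d t : ℝ} (hab : a < t) (htb : t < b) (hct : c ≤ t) (htd : t ≤ d)
    (h1 : ¬ (a < c ∧ c < b)) (h2 : ¬ (a < d ∧ d < b))
    (h3 : ¬ (c < a ∧ a < d)) (h4 : ¬ (c < b ∧ b < d)) : a = c ∧ b = d := by
  have e1 : c ≤ a := by
    by_contra h
    exact h1 ⟨not_le.mp h, by linarith⟩
  have e2 : b ≤ d := by
    by_contra h
    exact h2 ⟨by linarith, not_le.mp h⟩
  have e3 : a ≤ c := by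
    by_contra h
    exact h3 ⟨not_le.mp h, by linarith⟩
  have e4 : d ≤ b := by
    by_contra h
    exact h4 ⟨by linarith, not_le.mp h⟩
  exact ⟨le_antisymm e3 e1, le_antisymm e2 e4⟩

lemma consec_half {a b c d t : ℝ} (hab : min a b < t) (htb : t < max a b)
    (hct : min c d ≤ t) (htd : t ≤ max c d)
    (h1 : ¬ (min a b < c ∧ c < max a b)) (h2 : ¬ (min a b < d ∧ d < max a b))
    (h3 : ¬ (min c d < a ∧ a < max c d)) (h4 : ¬ (min c d < b ∧ b < max c d)) :
    (a = c ∧ b = d) ∨ (a = d ∧ b = c) := by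
  rcases le_total a b with hab' | hab' <;> rcases le_total c d with hcd | hcd
  · rw [min_eq_left hab'] at *; rw [max_eq_right hab'] at *
    rw [min_eq_left hcd] at *; rw [max_eq_right hcd] at *
    exact Or.inl (consec_ordered hab htb hct htd h1 h2 h3 h4)
  · rw [min_eq_left hab'] at *; rw [max_eq_right hab'] at *
    rw [min_eq_right hcd] at *; rw [max_eq_left hcd] at *
    exact Or.inr (consec_ordered hab htb hct htd h2 h1 h3 h4)
  · rw [min_eq_right hab'] at *; rw [max_eq_left hab'] at *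
    rw [min_eq_left hcd] at *; rw [max_eq_right hcd] at *
    exact Or.inr ((consec_ordered hab htb hct htd h1 h2 h4 h3).symm)
  · rw [min_eq_right hab'] at *; rw [max_eq_left hab'] at *
    rw [min_eq_right hcd] at *; rw [max_eq_left hcd] at *
    exact Or.inl ((consec_ordered hab htb hct htd h2 h1 h4 h3).symm)

lemma end_of_not_strict {a b t : ℝ} (h1 : min a b ≤ t) (h2 : t ≤ max a b)
    (h : ¬ (min a b < t ∧ t < max a b)) : t = a ∨ t = b := by
  rcases le_total a b with hab | hab
  · rw [min_eq_left hab] at *; rw [max_eq_right hab] at *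
    by_contra hc
    push Not at hc
    exact h ⟨lt_of_le_of_ne h1 hc.1.symm, lt_of_le_of_ne h2 hc.2⟩
  · rw [min_eq_right hab] at *; rw [max_eq_left hab] at *
    by_contra hc
    push Not at hc
    exact h ⟨lt_of_le_of_ne h1 hc.2.symm, lt_of_le_of_ne h2 hc.1⟩

/-- a vertex lying on an edge is one of its endpoints -/
lemma vertex_on_edge (hG : Good p q V) {i : ι} {x y z : ℂ} (h : adj p q V i x y) (hz : z ∈ V)
    (hzs : z ∈ segment ℝ x y) : z = x ∨ z = y := by
  have hzi : z ∈ sg p q i := seg_sub p q i h.2.2.1 h.2.2.2.1 hzs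
  have hb := tau_between p q i hzs
  rcases end_of_not_strict hb.1 hb.2 (h.2.2.2.2.2 z hz hzi) with h1 | h1
  · exact Or.inl (tau_inj p q i (hG.ne i) hzi h.2.2.1 h1)
  · exact Or.inr (tau_inj p q i (hG.ne i) hzi h.2.2.2.1 h1)

lemma meet_lemma (hG : Good p q V) {i j : ι} {x y x' y' z : ℂ} (h : adj p q V i x y)
    (h' : adj p q V j x' y') (hne : s(x, y) ≠ s(x', y')) (hz : z ∈ segment ℝ x y)
    (hz' : z ∈ segment ℝ x' y') : (z = x ∨ z = y) ∧ (z = x' ∨ z = y') := by
  have hzi : z ∈ sg p q i := seg_sub p q i h.2.2.1 h.2.2.2.1 hz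
  have hzj : z ∈ sg p q j := seg_sub p q j h'.2.2.1 h'.2.2.2.1 hz'
  by_cases hij : i = j
  · subst hij
    have hb := tau_between p q i hz
    have hb' := tau_between p q i hz'
    have key : ∀ {a b c d : ℂ}, adj p q V i a b → adj p q V i c d → s(a, b) ≠ s(c, d) →
        z ∈ segment ℝ a b → z ∈ segment ℝ c d → z = a ∨ z = b := by
      intro a b c d hab hcd hn hza hzc
      have b1 := tau_between p q i hza
      have b2 := tau_between p q i hzc
      by_cases hs : min (tau p q i a) (tau p q i b) < tau p q i z ∧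
          tau p q i z < max (tau p q i a) (tau p q i b)
      · exfalso
        rcases consec_half hs.1 hs.2 b2.1 b2.2 (hab.2.2.2.2.2 c hcd.1 hcd.2.2.1)
          (hab.2.2.2.2.2 d hcd.2.1 hcd.2.2.2.1) (hcd.2.2.2.2.2 a hab.1 hab.2.2.1)
          (hcd.2.2.2.2.2 b hab.2.1 hab.2.2.2.1) with ⟨e1, e2⟩ | ⟨e1, e2⟩
        · apply hn
          rw [tau_inj p q i (hG.ne i) hab.2.2.1 hcd.2.2.1 e1,
            tau_inj p q i (hG.ne i) hab.2.2.2.1 hcd.2.2.2.1 e2]
        · apply hn
          rw [tau_inj p q i (hG.ne i) hab.2.2.1 hcd.2.2.2.1 e1,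
            tau_inj p q i (hG.ne i) hab.2.2.2.1 hcd.2.2.1 e2]
          exact Sym2.eq_swap
      · rcases end_of_not_strict b1.1 b1.2 hs with h1 | h1
        · exact Or.inl (tau_inj p q i (hG.ne i) hzi hab.2.2.1 h1)
        · exact Or.inr (tau_inj p q i (hG.ne i) hzi hab.2.2.2.1 h1)
    exact ⟨key h h' hne hz hz', key h' h hne.symm hz' hz⟩
  · have hzV : z ∈ V := hG.hx i j z hij hzi hzj
    exact ⟨vertex_on_edge hG h hzV hz, vertex_on_edge hG h' hzV hz'⟩

/-! ### connectivity -/

lemma reach (hG : Good p q V) (i : ι) : ∀ n : ℕ, ∀ z ∈ V, z ∈ sg p q i →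
    (open Classical in (V.filter (fun v => v ∈ sg p q i ∧ tau p q i v < tau p q i z)).card) = n →
    ReflTransGen (fun a b => ∃ k, adj p q V k a b) (p i) z := by
  classical
  intro n
  induction n using Nat.strong_induction_on with
  | _ n ih =>
    intro z hz hzi hn
    by_cases hzp : z = p i
    · rw [hzp]
    · obtain ⟨w, hw, hlt⟩ := prev_exists hG hz hzi hzp
      have hlt' : (V.filter (fun v => v ∈ sg p q i ∧ tau p q i v < tau p q i w)).card < n := by
        rw [← hn]
        apply Finset.card_lt_card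
        rw [Finset.ssubset_iff_of_subset]
        · refine ⟨w, ?_, ?_⟩
          · rw [Finset.mem_filter]
            exact ⟨hw.2.1, hw.2.2.2.1, hlt⟩
          · rw [Finset.mem_filter]
            rintro ⟨_, _, h⟩
            exact lt_irrefl _ h
        · intro v hv
          rw [Finset.mem_filter] at hv ⊢
          exact ⟨hv.1, hv.2.1, hv.2.2.trans hlt⟩
      have := ih _ hlt' w hw.2.1 hw.2.2.2.1 rfl
      exact this.tail ⟨i, adj_symm hw⟩

lemma reach_symm {a b : ℂ} (h : ReflTransGen (fun a b => ∃ k, adj p q V k a b) a b) :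
    ReflTransGen (fun a b => ∃ k, adj p q V k a b) b a := by
  induction h with
  | refl => exact ReflTransGen.refl
  | tail _ hbc ih =>
    obtain ⟨k, hk⟩ := hbc
    exact (ReflTransGen.single ⟨k, adj_symm hk⟩).trans ih

lemma reach_strands (hG : Good p q V) {i j : ι}
    (h : ReflTransGen (fun i j => ∃ z, z ∈ sg p q i ∧ z ∈ sg p q j) i j) :
    ReflTransGen (fun a b => ∃ k, adj p q V k a b) (p i) (p j) := by
  classical
  induction h with
  | refl => exact ReflTransGen.refl
  | tail _ hbc ih =>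
    rename_i b c _
    obtain ⟨z, hzb, hzc⟩ := hbc
    by_cases hbc' : b = c
    · rw [← hbc']; exact ih
    · have hzV := hG.hx b c z hbc' hzb hzc
      have h1 := reach hG b _ z hzV hzb rfl
      have h2 := reach hG c _ z hzV hzc rfl
      exact (ih.trans h1).trans (reach_symm h2)

/-! ### degrees -/

lemma nb_disjoint (hG : Good p q V) {i j : ι} (hij : i ≠ j) (z : ℂ) :
    Disjoint (nb p q V i z) (nb p q V j z) := by
  rw [Finset.disjoint_left]
  intro w hw hw'
  exact hij (adj_strand hG (mem_nb.mp hw) (mem_nb.mp hw'))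

lemma nb_card_end (hG : Good p q V) {i : ι} {z : ℂ} (hz : z ∈ V) (h : z = p i ∨ z = q i) :
    1 ≤ (nb p q V i z).card := by
  rw [Nat.one_le_iff_ne_zero, Finset.card_ne_zero]
  rcases h with h | h
  · obtain ⟨w, hw, _⟩ := next_exists hG hz (h ▸ p_mem p q i) (fun h' => hG.ne i (h.symm.trans h'))
    exact ⟨w, mem_nb.mpr hw⟩
  · obtain ⟨w, hw, _⟩ := prev_exists hG hz (h ▸ q_mem p q i) (fun h' => hG.ne i (h'.symm.trans h))
    exact ⟨w, mem_nb.mpr hw⟩

lemma nb_card_mid (hG : Good p q V) {i : ι} {z : ℂ} (hz : z ∈ V) (hzi : z ∈ sg p q i)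
    (h1 : z ≠ p i) (h2 : z ≠ q i) : 2 ≤ (nb p q V i z).card := by
  classical
  obtain ⟨w, hw, hlt⟩ := next_exists hG hz hzi h2
  obtain ⟨w', hw', hlt'⟩ := prev_exists hG hz hzi h1
  have hne : w ≠ w' := by
    rintro rfl
    exact lt_asymm hlt hlt'
  have : ({w, w'} : Finset ℂ) ⊆ nb p q V i z := by
    intro v hv
    rw [Finset.mem_insert, Finset.mem_singleton] at hv
    rcases hv with rfl | rfl
    · exact mem_nb.mpr hw
    · exact mem_nb.mpr hw'
  calc 2 = ({w, w'} : Finset ℂ).card := (Finset.card_pair hne).symm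
    _ ≤ _ := Finset.card_le_card this

lemma dir_ne_zero (hG : Good p q V) (i : ι) : dir p q i ≠ 0 := by
  unfold dir
  have h : q i - p i ≠ 0 := sub_ne_zero.mpr (hG.ne i).symm
  apply smul_ne_zero
  · exact inv_ne_zero (norm_ne_zero_iff.mpr h)
  · exact h

lemma dir_indep (hG : Good p q V) {i j : ι} (hij : i ≠ j) {a b : ℝ} (ha : a ≠ 0) (hb : b ≠ 0)
    (h : a • dir p q i + b • dir p q j = 0) : False := by
  unfold dir at h
  have hi : q i - p i ≠ 0 := sub_ne_zero.mpr (hG.ne i).symm
  have hj : q j - p j ≠ 0 := sub_ne_zero.mpr (hG.ne j).symm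
  rw [smul_smul, smul_smul] at h
  set c := a * ‖q i - p i‖⁻¹
  set d := b * ‖q j - p j‖⁻¹
  have hc : c ≠ 0 := mul_ne_zero ha (inv_ne_zero (norm_ne_zero_iff.mpr hi))
  have hd : d ≠ 0 := mul_ne_zero hb (inv_ne_zero (norm_ne_zero_iff.mpr hj))
  apply hG.np i j hij
  have hre := congrArg Complex.re h
  have him := congrArg Complex.im h
  simp only [Complex.add_re, Complex.add_im, Complex.real_smul, Complex.mul_re, Complex.mul_im,
    Complex.ofReal_re, Complex.ofReal_im, zero_mul, sub_zero, add_zero, Complex.zero_re,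
    Complex.zero_im] at hre him
  have h4 : c * d * cross (q i - p i) (q j - p j) = 0 := by
    unfold cross
    have e1 : c * (q i - p i).re = - (d * (q j - p j).re) := by linarith
    have e2 : c * (q i - p i).im = - (d * (q j - p j).im) := by linarith
    have : c * d * ((q i - p i).re * (q j - p j).im - (q i - p i).im * (q j - p j).re)
      = (c * (q i - p i).re) * (d * (q j - p j).im) - (c * (q i - p i).im) * (d * (q j - p j).re) := by
      ring
    rw [this, e1, e2]; ring
  rcases mul_eq_zero.mp h4 with h5 | h5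
  · rcases mul_eq_zero.mp h5 with h6 | h6
    · exact absurd h6 hc
    · exact absurd h6 hd
  · exact h5

/-- the coefficient of strand `i` at `z` -/
noncomputable def cf (p q : ι → ℂ) (i : ι) (z : ℂ) : ℝ :=
  open Classical in ((if z = p i then 1 else 0) - (if z = q i then 1 else 0) : ℝ)

lemma cf_ne_zero (hG : Good p q V) {i : ι} {z : ℂ} (h : z = p i ∨ z = q i) : cf p q i z ≠ 0 := by
  classical
  unfold cf
  rcases h with h | h
  · have : z ≠ q i := fun h' => hG.ne i (h.symm.trans h')
    rw [if_pos h, if_neg this]; norm_num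
  · have : z ≠ p i := fun h' => hG.ne i (h'.symm.trans h)
    rw [if_neg this, if_pos h]; norm_num

lemma cf_eq_zero {i : ι} {z : ℂ} (h : ¬ (z = p i ∨ z = q i)) : cf p q i z = 0 := by
  classical
  push Not at h
  unfold cf
  rw [if_neg h.1, if_neg h.2]; norm_num

lemma three_ends [Fintype ι] (hG : Good p q V) {wt : ι → ℕ} (hwt : ∀ i, 0 < wt i) {z : ℂ}
    (hbal : ∑ i, (wt i : ℝ) • (cf p q i z • dir p q i) = 0) (hex : ∃ i, z = p i ∨ z = q i) :
    3 ≤ (open Classical in (Finset.univ.filter (fun i => z = p i ∨ z = q i)).card) := by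
  classical
  set E := Finset.univ.filter (fun i => z = p i ∨ z = q i) with hE
  have hsum : ∑ i ∈ E, (wt i : ℝ) • (cf p q i z • dir p q i) = 0 := by
    rw [← hbal]
    apply Finset.sum_subset (Finset.filter_subset _ _)
    intro i _ hi
    rw [Finset.mem_filter] at hi
    have hi' : ¬ (z = p i ∨ z = q i) := fun h => hi ⟨Finset.mem_univ i, h⟩
    rw [cf_eq_zero hi']
    simp
  have hpos : 0 < E.card := by
    rw [Finset.card_pos]
    obtain ⟨i, hi⟩ := hex
    exact ⟨i, by rw [hE, Finset.mem_filter]; exact ⟨Finset.mem_univ i, hi⟩⟩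
  by_contra hlt
  have hcases : E.card = 1 ∨ E.card = 2 := by
    push Not at hlt
    have : E.card < 3 := hlt
    omega
  rcases hcases with h1 | h2
  · obtain ⟨i, hi⟩ := Finset.card_eq_one.mp h1
    rw [hi, Finset.sum_singleton, smul_smul] at hsum
    have hiE : i ∈ E := by rw [hi]; exact Finset.mem_singleton_self i
    rw [hE, Finset.mem_filter] at hiE
    rcases smul_eq_zero.mp hsum with h | h
    · rcases mul_eq_zero.mp h with h | h
      · exact (hwt i).ne' (by exact_mod_cast h)
      · exact cf_ne_zero hG hiE.2 h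
    · exact dir_ne_zero hG i h
  · obtain ⟨i, j, hij, hi⟩ := Finset.card_eq_two.mp h2
    rw [hi, Finset.sum_pair hij, smul_smul, smul_smul] at hsum
    have hiE : i ∈ E := by rw [hi]; exact Finset.mem_insert_self i _
    have hjE : j ∈ E := by
      rw [hi]; exact Finset.mem_insert_of_mem (Finset.mem_singleton_self j)
    rw [hE, Finset.mem_filter] at hiE hjE
    refine dir_indep hG hij ?_ ?_ hsum
    · exact mul_ne_zero (by exact_mod_cast (hwt i).ne') (cf_ne_zero hG hiE.2)
    · exact mul_ne_zero (by exact_mod_cast (hwt j).ne') (cf_ne_zero hG hjE.2)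

lemma degree_lemma [Fintype ι] (hG : Good p q V) {wt : ι → ℕ} (hwt : ∀ i, 0 < wt i) {z : ℂ}
    (hz : z ∈ V) (hbal : ∑ i, (wt i : ℝ) • (cf p q i z • dir p q i) = 0) :
    3 ≤ (V.filter (fun w => mlt p q V wt z w ≠ 0)).card := by
  classical
  have heq : V.filter (fun w => mlt p q V wt z w ≠ 0) =
      Finset.univ.biUnion (fun i => nb p q V i z) := by
    ext w
    rw [Finset.mem_filter, Finset.mem_biUnion, mlt_ne_zero hG hwt]
    constructor
    · rintro ⟨_, i, hi⟩
      exact ⟨i, Finset.mem_univ i, mem_nb.mpr hi⟩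
    · rintro ⟨i, _, hi⟩
      have := mem_nb.mp hi
      exact ⟨this.2.1, i, this⟩
  rw [heq, Finset.card_biUnion (fun i _ j _ hij => nb_disjoint hG hij z)]
  by_cases hex : ∃ i, z = p i ∨ z = q i
  · have h3 := three_ends hG hwt hbal hex
    calc 3 ≤ (Finset.univ.filter (fun i => z = p i ∨ z = q i)).card := h3
      _ = ∑ i ∈ Finset.univ.filter (fun i => z = p i ∨ z = q i), 1 := by
          rw [Finset.card_eq_sum_ones]
      _ ≤ ∑ i ∈ Finset.univ.filter (fun i => z = p i ∨ z = q i), (nb p q V i z).card := by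
          apply Finset.sum_le_sum
          intro i hi
          rw [Finset.mem_filter] at hi
          exact nb_card_end hG hz hi.2
      _ ≤ ∑ i, (nb p q V i z).card := by
          apply Finset.sum_le_sum_of_subset
          exact Finset.filter_subset _ _
  · rcases hG.hV z hz with h | ⟨i, j, hij, hi, hj⟩
    · exact absurd h hex
    · push Not at hex
      have h1 := nb_card_mid hG hz hi (hex i).1 (hex i).2
      have h2 := nb_card_mid hG hz hj (hex j).1 (hex j).2
      calc 3 ≤ (nb p q V i z).card + (nb p q V j z).card := by omega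
        _ = ∑ k ∈ ({i, j} : Finset ι), (nb p q V k z).card := by
          rw [Finset.sum_pair hij]
        _ ≤ ∑ k, (nb p q V k z).card := by
          apply Finset.sum_le_sum_of_subset
          exact Finset.subset_univ _

/-- **Arrangement lemma.**  Finitely many pairwise non-parallel weighted segments, balanced away
from a finite set `B`, give a geodesic multinet. -/
theorem exists_multinet [Fintype ι] [Nonempty ι] (p q : ι → ℂ) (wt : ι → ℕ) (B : Finset ℂ)
    (hwt : ∀ i, 0 < wt i) (hne : ∀ i, p i ≠ q i)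
    (hnp : ∀ i j, i ≠ j → cross (q i - p i) (q j - p j) ≠ 0)
    (hbal : ∀ z, z ∉ B → ∑ i, (wt i : ℝ) • (cf p q i z • dir p q i) = 0)
    (hB : ∀ a ∈ B, ∃ i, a = p i ∨ a = q i)
    (hBB : ∀ i, ∀ a ∈ B, ∀ b ∈ B, a ∈ sg p q i → b ∈ sg p q i → a = b)
    (hconn : ∀ i j, ReflTransGen (fun i j => ∃ z, z ∈ sg p q i ∧ z ∈ sg p q j) i j)
    (n : ℕ) (hn : ∀ i, wt i ≤ n) :
    ∃ N : GeodesicMultinet, N.unbalanced = B ∧ (∀ x y, N.mult x y ≤ n) ∧
      ∀ i, p i ∈ N.vertices ∧ q i ∈ N.vertices := by
  classical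
  set V : Finset ℂ := (VS_finite p q hne hnp).toFinset with hVdef
  have hmem : ∀ z, z ∈ V ↔ z ∈ VS p q := by
    intro z
    rw [hVdef, Set.Finite.mem_toFinset]
  have hG : Good p q V := by
    refine ⟨hne, hnp, ?_, ?_, ?_, ?_⟩
    · intro i
      rw [hmem]
      exact Or.inl ⟨i, Or.inl rfl⟩
    · intro i
      rw [hmem]
      exact Or.inl ⟨i, Or.inr rfl⟩
    · intro i j z hij hi hj
      rw [hmem]
      refine Or.inr ?_
      rw [Set.mem_iUnion]
      refine ⟨i, ?_⟩
      rw [Set.mem_iUnion]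
      exact ⟨j, hij, hi, hj⟩
    · intro z hz
      rw [hmem] at hz
      rcases hz with h | h
      · exact Or.inl h
      · rw [Set.mem_iUnion] at h
        obtain ⟨i, h⟩ := h
        rw [Set.mem_iUnion] at h
        obtain ⟨j, hij, hi, hj⟩ := h
        exact Or.inr ⟨i, j, hij, hi, hj⟩
  have hreachV : ∀ z ∈ V, ∃ i, ReflTransGen (fun a b => ∃ k, adj p q V k a b) (p i) z := by
    intro z hz
    obtain ⟨i, hi⟩ := mem_seg_V hG hz
    exact ⟨i, reach hG i _ z hz hi rfl⟩
  let N : GeodesicMultinet :=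
    { vertices := V
      unbalanced := B
      mult := mlt p q V wt
      unbalanced_subset := by
        intro a ha
        obtain ⟨i, h | h⟩ := hB a ha
        · rw [h]; exact hG.hp i
        · rw [h]; exact hG.hq i
      mult_symm := mlt_symm wt
      mult_self := mlt_self wt
      mult_mem := by
        intro x y h
        obtain ⟨i, hi⟩ := (mlt_ne_zero hG hwt).mp h
        exact ⟨hi.1, hi.2.1⟩
      meet := by
        intro x y x' y' z h h' hs hz hz'
        obtain ⟨i, hi⟩ := (mlt_ne_zero hG hwt).mp h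
        obtain ⟨j, hj⟩ := (mlt_ne_zero hG hwt).mp h'
        exact meet_lemma hG hi hj hs hz hz'
      nonempty := by
        obtain ⟨i⟩ := ‹Nonempty ι›
        exact ⟨p i, hG.hp i⟩
      connected := by
        intro x hx y hy
        obtain ⟨i, hi⟩ := hreachV x hx
        obtain ⟨j, hj⟩ := hreachV y hy
        have h1 := ((reach_symm hi).trans (reach_strands hG (hconn i j))).trans hj
        exact ReflTransGen.mono (fun a b hab => (mlt_ne_zero hG hwt).mpr hab) _ _ h1
      balanced := by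
        intro v hv hvB
        rw [mlt_sum hG wt hv]
        exact hbal v hvB
      three_le_degree := by
        intro v hv hvB
        exact degree_lemma hG hwt hv (hbal v hvB)
      no_unbalanced_edge := by
        intro x hx y hy
        by_contra h
        obtain ⟨i, hi⟩ := (mlt_ne_zero hG hwt).mp h
        exact hi.2.2.2.2.1 (hBB i x hx y hy hi.2.2.1 hi.2.2.2.1) }
  exact ⟨N, rfl, mlt_le hG hn, fun i => ⟨hG.hp i, hG.hq i⟩⟩

end Strands
end Pool.Agent.Helper66
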