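import Pool.Agent.Helper66.NetSeq
import Pool.Agent.Helper66.NetStrands

/-!
# The spiral nets
-/

namespace Pool.Agent.Helper66
namespace Geom

open Real Strands Seq Finset Relation

/-- unit complex number with argument `x` -/
noncomputable def E (x : ℝ) : ℂ := Complex.exp (x * Complex.I)

lemma E_add (x y : ℝ) : E (x + y) = E x * E y := by
  unfold E
  rw [← Complex.exp_add]
  congr 1
  push_cast
  ring

lemma E_re (x : ℝ) : (E x).re = cos x := Complex.exp_ofReal_mul_I_re x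
lemma E_im (x : ℝ) : (E x).im = sin x := Complex.exp_ofReal_mul_I_im x

lemma E_norm (x : ℝ) : ‖E x‖ = 1 := Complex.norm_exp_ofReal_mul_I x

lemma E_ne (x : ℝ) : E x ≠ 0 := Complex.exp_ne_zero _

lemma E_zero : E 0 = 1 := by simp [E]

lemma E_neg_mul (x : ℝ) : E x * E (-x) = 1 := by rw [← E_add]; simp [E_zero]

lemma cross_smul (a b : ℝ) (z w : ℂ) : cross (a • z) (b • w) = a * b * cross z w := by
  unfold cross
  simp only [Complex.real_smul, Complex.mul_re, Complex.mul_im, Complex.ofReal_re,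
    Complex.ofReal_im]
  ring

lemma cross_E (x y : ℝ) : cross (E x) (E y) = sin (y - x) := by
  unfold cross
  rw [E_re, E_im, E_re, E_im, Real.sin_sub]
  ring

/-- `-i e^{ix}` is `e^{i(x-π/2)}` -/
lemma negI_E (x : ℝ) : -Complex.I * E x = E (x - π / 2) := by
  apply Complex.ext
  · rw [E_re, Real.cos_sub_pi_div_two]
    simp [Complex.mul_re, E_im, E_re]
  · rw [E_im, Real.sin_sub_pi_div_two]
    simp [Complex.mul_im, E_im, E_re]

/-- terminals -/
noncomputable def A (j : ℕ) : ℂ := E (2 * π * j / 3) / (E (2 * π / 3) - 1)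

lemma E_period (x : ℝ) : E (x + 2 * π) = E x := by
  apply Complex.ext
  · rw [E_re, E_re, Real.cos_add_two_pi]
  · rw [E_im, E_im, Real.sin_add_two_pi]

lemma A_period (j : ℕ) : A (j + 3) = A j := by
  unfold A
  have : 2 * π * ((j + 3 : ℕ) : ℝ) / 3 = 2 * π * j / 3 + 2 * π := by push_cast; ring
  rw [this, E_period]

lemma A_mod (j : ℕ) : A j = A (j % 3) := by
  induction j using Nat.strong_induction_on with
  | _ j ih =>
    by_cases h : j < 3
    · rw [Nat.mod_eq_of_lt h]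
    · obtain ⟨k, rfl⟩ := Nat.exists_eq_add_of_le' (show 3 ≤ j by omega)
      rw [A_period, ih k (by omega), Nat.add_mod_right]

lemma om_ne : E (2 * π / 3) - 1 ≠ 0 := by
  intro h
  have h1 := congrArg Complex.im h
  simp only [Complex.sub_im, Complex.one_im, sub_zero, Complex.zero_im, E_im] at h1
  have h2 : 0 < sin (2 * π / 3) := by
    apply Real.sin_pos_of_pos_of_lt_pi <;> linarith [Real.pi_pos]
  linarith

lemma A_succ_sub (j : ℕ) : A (j + 1) - A j = E (2 * π * j / 3) := by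
  unfold A
  have : 2 * π * ((j + 1 : ℕ) : ℝ) / 3 = 2 * π * j / 3 + 2 * π / 3 := by push_cast; ring
  rw [this, E_add, ← sub_div, div_eq_iff om_ne]
  ring

lemma A_dist_succ (j : ℕ) : ‖A (j + 1) - A j‖ = 1 := by rw [A_succ_sub, E_norm]

/-- the set of terminals -/
noncomputable def B : Finset ℂ := {A 0, A 1, A 2}

lemma A_mem (j : ℕ) : A j ∈ B := by
  rw [A_mod]
  have h : j % 3 < 3 := Nat.mod_lt _ (by norm_num)
  unfold B
  simp only [Finset.mem_insert, Finset.mem_singleton]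
  interval_cases j % 3 <;> simp

lemma A20 : ‖A 2 - A 0‖ = 1 := by
  have h := A_dist_succ 2
  rw [show 2 + 1 = 0 + 3 from rfl, A_period, norm_sub_rev] at h
  exact h

lemma B_dist {a b : ℂ} (ha : a ∈ B) (hb : b ∈ B) (hab : a ≠ b) : ‖a - b‖ = 1 := by
  unfold B at ha hb
  simp only [Finset.mem_insert, Finset.mem_singleton] at ha hb
  have h1 := A_dist_succ 0
  have h2 := A_dist_succ 1
  have h3 := A20
  rw [zero_add] at h1
  rw [show 1 + 1 = 2 from rfl] at h2
  rcases ha with rfl | rfl | rfl <;> rcases hb with rfl | rfl | rfl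
  · exact absurd rfl hab
  · rw [norm_sub_rev]; exact h1
  · rw [norm_sub_rev]; exact h3
  · exact h1
  · exact absurd rfl hab
  · rw [norm_sub_rev]; exact h2
  · exact h3
  · exact h2
  · exact absurd rfl hab

lemma B_card : B.card = 3 := by
  unfold B
  have h1 := A_dist_succ 0
  have h2 := A_dist_succ 1
  have h3 := A20
  rw [zero_add] at h1
  rw [show 1 + 1 = 2 from rfl] at h2
  have n01 : A 0 ≠ A 1 := by intro h; rw [h, sub_self, norm_zero] at h1; norm_num at h1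
  have n12 : A 1 ≠ A 2 := by intro h; rw [h, sub_self, norm_zero] at h2; norm_num at h2
  have n02 : A 0 ≠ A 2 := by intro h; rw [h, sub_self, norm_zero] at h3; norm_num at h3
  rw [Finset.card_insert_of_notMem, Finset.card_insert_of_notMem, Finset.card_singleton]
  · simpa using n12
  · simp only [Finset.mem_insert, Finset.mem_singleton, not_or]
    exact ⟨n01, n02⟩

variable (Δ : ℕ → ℝ)

noncomputable def a (j : ℕ) : ℝ := ∑ i ∈ range j, sin (Δ i)
noncomputable def h (j : ℕ) : ℝ := π / 3 + (Δ j - Δ (j - 1)) / 2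
noncomputable def t (j : ℕ) : ℝ := a Δ j / cos (h Δ j)
noncomputable def ψ (j : ℕ) : ℝ := 2 * π * j / 3 + Δ j
noncomputable def u (j : ℕ) : ℂ := E (ψ Δ j)
noncomputable def g (j : ℕ) : ℂ := -Complex.I * E (ψ Δ j - h Δ j)
noncomputable def v (j : ℕ) : ℂ := A j - (t Δ j : ℂ) * g Δ j
noncomputable def lam (j : ℕ) : ℝ :=
  cos (Δ j) - t Δ (j + 1) * sin (h Δ (j + 1)) - t Δ j * sin (h Δ j)

variable {Δ}

lemma psi_h (k : ℕ) : ψ Δ k + h Δ (k + 1) = ψ Δ (k + 1) - h Δ (k + 1) := by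
  unfold ψ h
  rw [Nat.add_sub_cancel]
  push_cast
  ring

lemma a_zero : a Δ 0 = 0 := by simp [a]
lemma a_succ (k : ℕ) : a Δ (k + 1) = a Δ k + sin (Δ k) := by unfold a; rw [sum_range_succ]

lemma v_step (k : ℕ) (h1 : t Δ k * cos (h Δ k) = a Δ k)
    (h2 : t Δ (k + 1) * cos (h Δ (k + 1)) = a Δ (k + 1)) :
    v Δ (k + 1) - v Δ k = lam Δ k • u Δ k := by
  have e1 : E (2 * π * k / 3) = u Δ k * E (- Δ k) := by
    unfold u
    rw [← E_add]
    congr 1
    unfold ψ; ring
  have e2 : g Δ (k + 1) = -Complex.I * (u Δ k * E (h Δ (k + 1))) := by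
    unfold g u
    rw [← E_add, psi_h]
  have e3 : g Δ k = -Complex.I * (u Δ k * E (- h Δ k)) := by
    unfold g u
    rw [← E_add, sub_eq_add_neg]
  have e4 : v Δ (k + 1) - v Δ k = (A (k + 1) - A k) - (t Δ (k + 1) : ℂ) * g Δ (k + 1)
      + (t Δ k : ℂ) * g Δ k := by
    unfold v; ring
  rw [e4, A_succ_sub, e1, e2, e3]
  have e5 : E (- Δ k) + Complex.I * ((t Δ (k + 1) : ℂ) * E (h Δ (k + 1)))
      - Complex.I * ((t Δ k : ℂ) * E (- h Δ k)) = (lam Δ k : ℂ) := by
    rw [a_succ] at h2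
    apply Complex.ext
    · simp only [Complex.sub_re, Complex.add_re, Complex.mul_re, Complex.I_re, Complex.I_im,
        Complex.mul_im, Complex.ofReal_re, Complex.ofReal_im, E_re, E_im, Real.cos_neg,
        Real.sin_neg]
      unfold lam
      ring
    · simp only [Complex.sub_im, Complex.add_im, Complex.mul_im, Complex.I_re, Complex.I_im,
        Complex.mul_re, Complex.ofReal_re, Complex.ofReal_im, E_re, E_im, Real.cos_neg,
        Real.sin_neg]
      linarith
  rw [Complex.real_smul, ← e5]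
  ring

lemma balance (k : ℕ) (qv : ℝ) (hq : sin (h Δ (k + 1)) = qv / 780) :
    (390 : ℝ) • (u Δ (k + 1) - u Δ k) + qv • g Δ (k + 1) = 0 := by
  set M := ψ Δ (k + 1) - h Δ (k + 1) with hM
  have e1 : u Δ (k + 1) = E M * E (h Δ (k + 1)) := by
    unfold u
    rw [← E_add, hM]; congr 1; ring
  have e2 : u Δ k = E M * E (- h Δ (k + 1)) := by
    unfold u
    rw [← E_add, hM, ← psi_h]; congr 1; ring
  have e3 : g Δ (k + 1) = -Complex.I * E M := rfl
  have e4 : (390 : ℝ) • (E (h Δ (k + 1)) - E (- h Δ (k + 1))) - qv • Complex.I = 0 := by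
    apply Complex.ext
    · simp [E_re, E_im]
    · simp only [Complex.sub_im, Complex.real_smul, Complex.mul_im, Complex.ofReal_re,
        Complex.ofReal_im, E_re, E_im, Real.cos_neg, Real.sin_neg, Complex.I_re, Complex.I_im,
        Complex.zero_im, hq]
      ring
  rw [e1, e2, e3]
  have e5 : (390 : ℝ) • (E M * E (h Δ (k + 1)) - E M * E (- h Δ (k + 1))) +
      qv • (-Complex.I * E M) =
      E M * ((390 : ℝ) • (E (h Δ (k + 1)) - E (- h Δ (k + 1))) - qv • Complex.I) := by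
    simp only [Complex.real_smul]
    ring
  rw [e5, e4, mul_zero]

/-! ### estimates -/

section
variable {N : ℕ} {qq : ℕ → ℕ} (H : Valid N Δ qq)
include H

lemma h_lo {j : ℕ} (h1 : 1 ≤ j) (h2 : j ≤ N) : π / 3 - 0.0625 ≤ h Δ j := by
  unfold h
  linarith [H.turn_lo j h1 h2]

lemma h_hi {j : ℕ} (h1 : 1 ≤ j) (h2 : j ≤ N) : h Δ j ≤ π / 3 + 0.0013 := by
  unfold h
  linarith [H.turn_hi j h1 h2]

lemma cos_h {j : ℕ} (h1 : 1 ≤ j) (h2 : j ≤ N) : 0.49 ≤ cos (h Δ j) := by
  have l1 := h_lo H h1 h2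
  have l2 := h_hi H h1 h2
  have p1 := Angles.pi_lo
  have p2 := Angles.pi_hi
  have hmono : cos (π / 3 + 0.0013) ≤ cos (h Δ j) := by
    apply Real.cos_le_cos_of_nonneg_of_le_pi
    · linarith
    · linarith
    · exact l2
  have he : cos (π / 3 + 0.0013) = 1 / 2 * cos 0.0013 - √3 / 2 * sin 0.0013 := by
    rw [Real.cos_add, Real.cos_pi_div_three, Real.sin_pi_div_three]
  have hc : 0.99 ≤ cos (0.0013 : ℝ) := by
    have := Real.one_sub_sq_div_two_le_cos (x := 0.0013)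
    linarith
  have hs : sin (0.0013 : ℝ) ≤ 0.0013 := Real.sin_le (by norm_num)
  have hs0 : 0 ≤ sin (0.0013 : ℝ) := Real.sin_nonneg_of_nonneg_of_le_pi (by norm_num) (by linarith)
  have h3 := Angles.sqrt3_hi
  have h3' := Angles.sqrt3_lo
  have : √3 / 2 * sin (0.0013 : ℝ) ≤ 1 * 0.0013 := by
    apply mul_le_mul _ hs hs0 (by norm_num)
    linarith
  linarith

lemma sin_h {j : ℕ} (h1 : 1 ≤ j) (h2 : j ≤ N) : 0 < sin (h Δ j) ∧ sin (h Δ j) ≤ 0.87 := by
  have : sin (h Δ j) = qq j / 780 := H.turn j h1 h2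
  rw [this]
  have q1 : (0:ℝ) < qq j := by exact_mod_cast H.qpos j
  have q2 : (qq j : ℝ) ≤ 676 := by exact_mod_cast H.qle j
  constructor
  · positivity
  · rw [div_le_iff₀ (by norm_num)]; linarith

lemma t_cos {j : ℕ} (h2 : j ≤ N + 1) : t Δ j * cos (h Δ j) = a Δ j := by
  rcases Nat.eq_zero_or_pos j with h0 | h0
  · subst h0
    unfold t
    rw [a_zero]; simp
  · rcases Nat.lt_or_ge j (N + 1) with h3 | h3
    · have := cos_h H h0 (by omega)
      unfold t
      rw [div_mul_cancel₀]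
      intro h
      rw [h] at this
      norm_num at this
    · have : j = N + 1 := le_antisymm h2 h3
      have ha : a Δ j = 0 := by rw [this]; exact H.aend
      unfold t
      rw [ha]; simp

lemma t_zero_first : t Δ 0 = 0 := by unfold t; rw [a_zero]; simp
lemma t_zero_last : t Δ (N + 1) = 0 := by
  unfold t
  have : a Δ (N + 1) = 0 := H.aend
  rw [this]; simp

lemma t_pos {j : ℕ} (h1 : 1 ≤ j) (h2 : j ≤ N) : 0 < t Δ j := by
  have c := cos_h H h1 h2
  exact div_pos (H.apos j h1 h2) (by linarith)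

lemma t_hi {j : ℕ} (h1 : 1 ≤ j) (h2 : j ≤ N) : t Δ j ≤ 0.41 := by
  have c := cos_h H h1 h2
  have a2 : a Δ j ≤ 0.2 := H.ahi j h1 h2
  unfold t
  rw [div_le_iff₀ (by linarith)]
  nlinarith

lemma ts_bound {j : ℕ} (h2 : j ≤ N + 1) :
    0 ≤ t Δ j * sin (h Δ j) ∧ t Δ j * sin (h Δ j) ≤ 0.36 := by
  rcases Nat.eq_zero_or_pos j with h0 | h0
  · subst h0
    rw [t_zero_first H]; norm_num
  · rcases Nat.lt_or_ge j (N + 1) with h3 | h3
    · have h4 : j ≤ N := by omega
      have t1 := t_pos H h0 h4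
      have t2 := t_hi H h0 h4
      have s1 := sin_h H h0 h4
      constructor
      · exact mul_nonneg t1.le s1.1.le
      · calc t Δ j * sin (h Δ j) ≤ 0.41 * 0.87 := mul_le_mul t2 s1.2 s1.1.le (by norm_num)
          _ ≤ 0.36 := by norm_num
    · have : j = N + 1 := le_antisymm h2 h3
      rw [this, t_zero_last H]; norm_num

lemma ts_pos {j : ℕ} (h1 : 1 ≤ j) (h2 : j ≤ N) : 0 < t Δ j * sin (h Δ j) :=
  mul_pos (t_pos H h1 h2) (sin_h H h1 h2).1

lemma lam_pos {j : ℕ} (hj : j ≤ N) : 0 < lam Δ j := by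
  have b1 := ts_bound H (j := j + 1) (by omega)
  have b2 := ts_bound H (j := j) (by omega)
  have hs := H.small j hj
  have hc : 0.99 ≤ cos (Δ j) := by
    have := Real.one_sub_sq_div_two_le_cos (x := Δ j)
    have h2 : (Δ j) ^ 2 ≤ 0.14 ^ 2 := by
      rw [← sq_abs (Δ j)]
      exact pow_le_pow_left₀ (abs_nonneg _) hs 2
    norm_num at h2 ⊢
    linarith
  unfold lam
  linarith [b1.2, b2.2]

lemma lam_lt {j : ℕ} (hj : j ≤ N) : lam Δ j < 1 := by
  have b1 := ts_bound H (j := j + 1) (by omega)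
  have b2 := ts_bound H (j := j) (by omega)
  have hc := Real.cos_le_one (Δ j)
  have h3 := H.three
  unfold lam
  rcases Nat.eq_zero_or_pos j with h0 | h0
  · have := ts_pos H (j := j + 1) (by omega) (by omega)
    linarith [b2.1]
  · have := ts_pos H (j := j) h0 hj
    linarith [b1.1]

lemma v_sub {j : ℕ} (hj : j ≤ N) : v Δ (j + 1) - v Δ j = lam Δ j • u Δ j :=
  v_step j (t_cos H (by omega)) (t_cos H (by omega))

lemma A_sub (j : ℕ) : A j - v Δ j = t Δ j • g Δ j := by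
  unfold v
  rw [Complex.real_smul]; ring

lemma g_eq (j : ℕ) : g Δ j = E (ψ Δ j - h Δ j - π / 2) := by
  unfold g
  rw [negI_E]

lemma g_norm (j : ℕ) : ‖g Δ j‖ = 1 := by rw [g_eq H, E_norm]
lemma u_norm (j : ℕ) : ‖u Δ j‖ = 1 := E_norm _

/-! directions -/

lemma sin_int {k : ℤ} {x : ℝ} (hx : |x| < π / 3) (h0 : sin (2 * π * k / 3 + x) = 0) : x = 0 := by
  rw [Real.sin_eq_zero_iff] at h0
  obtain ⟨n, hn⟩ := h0
  have hp := Real.pi_pos
  have h1 : x = π / 3 * (3 * n - 2 * k : ℤ) := by push_cast; linarith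
  by_cases hz : (3 * n - 2 * k : ℤ) = 0
  · rw [h1, hz]; simp
  · exfalso
    have h2 : (1 : ℝ) ≤ |((3 * n - 2 * k : ℤ) : ℝ)| := by
      exact_mod_cast Int.one_le_abs hz
    rw [h1, abs_mul, abs_of_pos (by linarith : 0 < π / 3)] at hx
    nlinarith

lemma sin_half {k : ℤ} {x : ℝ} (hx : |x| < π / 6) : sin (2 * π * k / 3 + π / 6 + x) ≠ 0 := by
  intro h0
  rw [Real.sin_eq_zero_iff] at h0
  obtain ⟨n, hn⟩ := h0
  have hp := Real.pi_pos
  have h1 : x = π / 6 * (6 * n - 4 * k - 1 : ℤ) := by push_cast; linarith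
  have hz : (6 * n - 4 * k - 1 : ℤ) ≠ 0 := by omega
  have h2 : (1 : ℝ) ≤ |((6 * n - 4 * k - 1 : ℤ) : ℝ)| := by
    exact_mod_cast Int.one_le_abs hz
  rw [h1, abs_mul, abs_of_pos (by linarith : 0 < π / 6)] at hx
  nlinarith

lemma uu {i j : ℕ} (hij : i < j) (hj : j ≤ N) : cross (u Δ i) (u Δ j) ≠ 0 := by
  unfold u
  rw [cross_E]
  intro h0
  have e : ψ Δ j - ψ Δ i = 2 * π * ((j : ℤ) - (i : ℤ) : ℤ) / 3 + (Δ j - Δ i) := by
    unfold ψ; push_cast; ring
  rw [e] at h0
  have s1 := H.small j hj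
  have s2 := H.small i (by omega)
  have p1 := Angles.pi_lo
  have : Δ j - Δ i = 0 := by
    apply sin_int H _ h0
    rw [abs_le] at s1 s2
    rw [abs_lt]; constructor <;> linarith
  exact H.dist i j hij hj (by linarith)

lemma ang_g {j : ℕ} (hj : 1 ≤ j) :
    ψ Δ j - h Δ j - π / 2 = 2 * π * j / 3 - 5 * π / 6 + (Δ (j - 1) + Δ j) / 2 := by
  unfold ψ h
  ring

lemma gg {i j : ℕ} (hi : 1 ≤ i) (hij : i < j) (hj : j ≤ N) : cross (g Δ i) (g Δ j) ≠ 0 := by
  rw [g_eq H, g_eq H, cross_E, ang_g H hi, ang_g H (by omega)]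
  intro h0
  have e : 2 * π * j / 3 - 5 * π / 6 + (Δ (j - 1) + Δ j) / 2 -
      (2 * π * i / 3 - 5 * π / 6 + (Δ (i - 1) + Δ i) / 2) =
      2 * π * ((j : ℤ) - (i : ℤ) : ℤ) / 3 + ((Δ (j - 1) + Δ j) / 2 - (Δ (i - 1) + Δ i) / 2) := by
    push_cast; ring
  rw [e] at h0
  have s1 := H.small j hj
  have s2 := H.small i (by omega)
  have s3 := H.small (j - 1) (by omega)
  have s4 := H.small (i - 1) (by omega)
  have p1 := Angles.pi_lo
  have : (Δ (j - 1) + Δ j) / 2 - (Δ (i - 1) + Δ i) / 2 = 0 := by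
    apply sin_int H _ h0
    rw [abs_le] at s1 s2 s3 s4
    rw [abs_lt]; constructor <;> linarith
  exact H.dist2 i j hi hij hj (by linarith)

lemma ug {i j : ℕ} (hi : i ≤ N) (hj1 : 1 ≤ j) (hj : j ≤ N) : cross (u Δ i) (g Δ j) ≠ 0 := by
  rw [g_eq H, ang_g H hj1]
  unfold u
  rw [cross_E]
  have e : 2 * π * j / 3 - 5 * π / 6 + (Δ (j - 1) + Δ j) / 2 - ψ Δ i =
      (2 * π * ((j : ℤ) - (i : ℤ) : ℤ) / 3 + π / 6 + ((Δ (j - 1) + Δ j) / 2 - Δ i)) - π := by
    unfold ψ; push_cast; ring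
  rw [e, Real.sin_sub_pi, neg_ne_zero]
  have s1 := H.small j hj
  have s2 := H.small i (by omega)
  have s3 := H.small (j - 1) (by omega)
  have p1 := Angles.pi_lo
  apply sin_half H
  rw [abs_le] at s1 s2 s3
  rw [abs_lt]; constructor <;> linarith

lemma cross_comm' (x y : ℂ) : cross x y = - cross y x := by unfold cross; ring

end

end Geom
end Pool.Agent.Helper66
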