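import Pool.Agent.Helper66.NetAngles

/-!
# Arbitrarily long valid sequences of directions
-/

namespace Pool.Agent.Helper66
namespace Seq

open Real Angles Finset

/-- feedback recursion: first component the deviation, second the running sum of sines -/
noncomputable def st : ℕ → ℝ × ℝ
  | 0 => (0, 0)
  | k + 1 =>
    let D' := if 0 ≤ (st k).1 + (st k).2 / 6 then (st k).1 - eb else (st k).1 - ea
    (D', (st k).2 + sin D')

noncomputable def D (k : ℕ) : ℝ := (st k).1
noncomputable def Q (k : ℕ) : ℝ := (st k).2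

lemma D_zero : D 0 = 0 := rfl
lemma Q_zero : Q 0 = 0 := rfl

lemma D_succ (k : ℕ) : D (k + 1) = if 0 ≤ D k + Q k / 6 then D k - eb else D k - ea := rfl
lemma Q_succ (k : ℕ) : Q (k + 1) = Q k + sin (D (k + 1)) := rfl

lemma inv (k : ℕ) : |D k + Q k / 6| ≤ 0.0052 ∧ |Q k| ≤ 0.0312 := by
  induction k with
  | zero => rw [D_zero, Q_zero]; norm_num
  | succ k ih =>
    obtain ⟨h1, h2⟩ := ih
    rw [abs_le] at h1 h2
    have e1 := ea_lo
    have e2 := ea_hi
    have e3 := eb_lo
    have e4 := eb_hi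
    -- the new value
    have hD : -0.013 ≤ D (k + 1) ∧ D (k + 1) ≤ 0.013 ∧
        (-0.0027 ≤ D (k + 1) + Q k / 6 ∧ D (k + 1) + Q k / 6 ≤ 0.0027) := by
      rw [D_succ]
      split_ifs with hs
      · refine ⟨by linarith, by linarith, by linarith, by linarith⟩
      · push Not at hs
        refine ⟨by linarith, by linarith, by linarith, by linarith⟩
    obtain ⟨d1, d2, d3, d4⟩ := hD
    have hsin_abs : |sin (D (k + 1))| ≤ 0.013 := by
      calc |sin (D (k + 1))| ≤ |D (k + 1)| := Real.abs_sin_le_abs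
        _ ≤ 0.013 := by rw [abs_le]; constructor <;> linarith
    rw [abs_le] at hsin_abs
    have hs' : -0.0052 ≤ D (k + 1) + Q (k + 1) / 6 ∧ D (k + 1) + Q (k + 1) / 6 ≤ 0.0052 := by
      rw [Q_succ]
      constructor <;> linarith [hsin_abs.1, hsin_abs.2]
    refine ⟨by rw [abs_le]; exact hs', ?_⟩
    rw [abs_le]
    have hpi := Angles.pi_lo
    constructor
    · by_contra hlt
      push Not at hlt
      have hpos : 0 < D (k + 1) := by linarith [hs'.1]
      have : 0 < sin (D (k + 1)) := Real.sin_pos_of_pos_of_lt_pi hpos (by linarith)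
      rw [Q_succ] at hlt
      linarith
    · by_contra hlt
      push Not at hlt
      have hneg : D (k + 1) < 0 := by linarith [hs'.2]
      have : sin (D (k + 1)) < 0 := Real.sin_neg_of_neg_of_neg_pi_lt hneg (by linarith)
      rw [Q_succ] at hlt
      linarith

lemma D_bound (k : ℕ) : |D k| ≤ 0.0104 := by
  obtain ⟨h1, h2⟩ := inv k
  rw [abs_le] at *
  constructor <;> linarith

/-- full half-sequence -/
noncomputable def Df (L : ℕ) (k : ℕ) : ℝ := if k ≤ L then D k else D L - ec

lemma Df_of_le {L k : ℕ} (h : k ≤ L) : Df L k = D k := if_pos h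
lemma Df_last (L : ℕ) : Df L (L + 1) = D L - ec := if_neg (by omega)
lemma Df_zero (L : ℕ) : Df L 0 = 0 := by rw [Df_of_le (Nat.zero_le L)]; rfl

lemma Df_bound {L k : ℕ} (h : k ≤ L) : |Df L k| ≤ 0.0104 := by
  rw [Df_of_le h]; exact D_bound k

lemma Df_last_bound (L : ℕ) : 0.1126 < Df L (L + 1) ∧ Df L (L + 1) < 0.1354 := by
  rw [Df_last]
  have h := D_bound L
  rw [abs_le] at h
  have h1 := ec_lo
  have h2 := ec_hi
  constructor <;> linarith

lemma Df_step {L k : ℕ} (h : k < L) : Df L k - Df L (k + 1) = ea ∨ Df L k - Df L (k + 1) = eb := by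
  rw [Df_of_le h.le, Df_of_le (by omega : k + 1 ≤ L), D_succ]
  split_ifs
  · right; ring
  · left; ring

lemma Df_step_last (L : ℕ) : Df L L - Df L (L + 1) = ec := by
  rw [Df_last, Df_of_le le_rfl]; ring

/-- partial sums -/
noncomputable def S (L k : ℕ) : ℝ := ∑ i ∈ range k, sin (Df L i)

lemma S_eq_Q {L k : ℕ} (h : k ≤ L) : S L (k + 1) = Q k := by
  unfold S
  induction k with
  | zero => simp [Df_zero, Q_zero]
  | succ k ih =>
    rw [sum_range_succ, ih (by omega), Df_of_le h, Q_succ]

lemma S_bound {L k : ℕ} (h : k ≤ L + 1) : |S L k| ≤ 0.0312 := by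
  cases k with
  | zero => simp [S]; norm_num
  | succ k =>
    rw [S_eq_Q (by omega)]
    exact (inv k).2

lemma S_succ (L k : ℕ) : S L (k + 1) = S L k + sin (Df L k) := by
  unfold S; rw [sum_range_succ]

/-- the forward sequence of deviations; `m = L + 1` -/
noncomputable def Dl (L : ℕ) (j : ℕ) : ℝ :=
  if j ≤ L + 1 then Df L (L + 1 - j) else - Df L (j - (L + 1))

lemma Dl_le {L j : ℕ} (h : j ≤ L + 1) : Dl L j = Df L (L + 1 - j) := if_pos h
lemma Dl_ge {L j : ℕ} (h : L + 1 ≤ j) : Dl L j = - Df L (j - (L + 1)) := by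
  unfold Dl
  split_ifs with h'
  · have : j = L + 1 := le_antisymm h' h
    subst this
    simp [Df_zero]
  · rfl

/-- forward partial sums -/
lemma a_le {L j : ℕ} (h : j ≤ L + 2) :
    ∑ i ∈ range j, sin (Dl L i) = S L (L + 2) - S L (L + 2 - j) := by
  induction j with
  | zero => simp
  | succ j ih =>
    rw [sum_range_succ, ih (by omega), Dl_le (by omega)]
    have h1 : L + 2 - j = (L + 2 - (j + 1)) + 1 := by omega
    have h2 : L + 1 - j = L + 2 - (j + 1) := by omega
    have h3 := S_succ L (L + 2 - (j + 1))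
    rw [h1, h2, h3]; ring

lemma a_ge {L k : ℕ} :
    ∑ i ∈ range (L + 2 + k), sin (Dl L i) = S L (L + 2) - S L (1 + k) := by
  induction k with
  | zero =>
    rw [add_zero, a_le le_rfl]
    simp [S, Df_zero]
  | succ k ih =>
    have h1 : L + 2 + k - (L + 1) = 1 + k := by omega
    have h3 := S_succ L (1 + k)
    have h4 : 1 + (k + 1) = 1 + k + 1 := by omega
    rw [← add_assoc, sum_range_succ, ih, Dl_ge (by omega), Real.sin_neg, h1, h4, h3]; ring

lemma a_form {L j : ℕ} (h1 : 1 ≤ j) (h2 : j ≤ 2 * (L + 1)) :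
    ∃ k, 1 ≤ k ∧ k ≤ L + 1 ∧ ∑ i ∈ range j, sin (Dl L i) = S L (L + 2) - S L k := by
  rcases le_or_gt j (L + 1) with h | h
  · exact ⟨L + 2 - j, by omega, by omega, a_le (by omega)⟩
  · obtain ⟨k, rfl⟩ := Nat.exists_eq_add_of_le (show L + 2 ≤ j from h)
    exact ⟨1 + k, by omega, by omega, a_ge⟩

/-- what the geometric construction needs -/
structure Valid (N : ℕ) (Δ : ℕ → ℝ) (qq : ℕ → ℕ) : Prop where
  three : 3 ≤ N
  small : ∀ j, j ≤ N → |Δ j| ≤ 0.14
  turn : ∀ j, 1 ≤ j → j ≤ N → sin (π / 3 + (Δ j - Δ (j - 1)) / 2) = qq j / 780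
  turn_lo : ∀ j, 1 ≤ j → j ≤ N → -0.125 ≤ Δ j - Δ (j - 1)
  turn_hi : ∀ j, 1 ≤ j → j ≤ N → Δ j - Δ (j - 1) ≤ 0.0026
  qpos : ∀ j, 0 < qq j
  qle : ∀ j, qq j ≤ 676
  apos : ∀ j, 1 ≤ j → j ≤ N → 0 < ∑ i ∈ range j, sin (Δ i)
  ahi : ∀ j, 1 ≤ j → j ≤ N → ∑ i ∈ range j, sin (Δ i) ≤ 0.2
  aend : ∑ i ∈ range (N + 1), sin (Δ i) = 0
  dist : ∀ i j, i < j → j ≤ N → Δ i ≠ Δ j
  dist2 : ∀ i j, 1 ≤ i → i < j → j ≤ N → Δ (i - 1) + Δ i ≠ Δ (j - 1) + Δ j

/-- the three possible turns -/
lemma turn_cases {L j : ℕ} (h1 : 1 ≤ j) (h2 : j ≤ 2 * (L + 1)) :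
    (Dl L j - Dl L (j - 1) = ea ∨ Dl L j - Dl L (j - 1) = eb) ∨
      Dl L j - Dl L (j - 1) = ec := by
  rcases le_or_gt j (L + 1) with h | h
  · rw [Dl_le h, Dl_le (by omega)]
    have h3 : L + 1 - (j - 1) = (L + 1 - j) + 1 := by omega
    rw [h3]
    rcases Nat.lt_or_ge (L + 1 - j) L with h4 | h4
    · exact Or.inl (Df_step h4)
    · right
      have : L + 1 - j = L := by omega
      rw [this]; exact Df_step_last L
  · rw [Dl_ge (by omega), Dl_ge (by omega)]
    have h3 : j - (L + 1) = (j - 1 - (L + 1)) + 1 := by omega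
    rw [h3]
    have h5 : ∀ x y : ℝ, - x - (- y) = y - x := by intro x y; ring
    rw [h5]
    rcases Nat.lt_or_ge (j - 1 - (L + 1)) L with h4 | h4
    · exact Or.inl (Df_step h4)
    · right
      have : j - 1 - (L + 1) = L := by omega
      rw [this]; exact Df_step_last L

/-- interior turns -/
lemma turn_int {L j : ℕ} (h1 : 2 ≤ j) (h2 : j + 1 ≤ 2 * (L + 1)) :
    Dl L j - Dl L (j - 1) = ea ∨ Dl L j - Dl L (j - 1) = eb := by
  rcases le_or_gt j (L + 1) with h | h
  · rw [Dl_le h, Dl_le (by omega)]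
    have h3 : L + 1 - (j - 1) = (L + 1 - j) + 1 := by omega
    rw [h3]
    exact Df_step (by omega)
  · rw [Dl_ge (by omega), Dl_ge (by omega)]
    have h3 : j - (L + 1) = (j - 1 - (L + 1)) + 1 := by omega
    rw [h3]
    have h5 : ∀ x y : ℝ, - x - (- y) = y - x := by intro x y; ring
    rw [h5]
    exact Df_step (by omega)

lemma int_comb {L i : ℕ} (h1 : 1 ≤ i) : ∀ d : ℕ, i + d + 1 ≤ 2 * (L + 1) →
    ∃ a b : ℕ, a + b = d ∧ Dl L (i + d) - Dl L i = a * ea + b * eb := by
  intro d
  induction d with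
  | zero => intro _; exact ⟨0, 0, rfl, by simp⟩
  | succ d ih =>
    intro h
    obtain ⟨a, b, hab, he⟩ := ih (by omega)
    have ht := turn_int (L := L) (j := i + (d + 1)) (by omega) (by omega)
    have h3 : i + (d + 1) - 1 = i + d := by omega
    rw [h3] at ht
    rcases ht with ht | ht
    · refine ⟨a + 1, b, by omega, ?_⟩
      push_cast
      linarith
    · refine ⟨a, b + 1, by omega, ?_⟩
      push_cast
      linarith

lemma int_bound {L j : ℕ} (h1 : 1 ≤ j) (h2 : j + 1 ≤ 2 * (L + 1)) : |Dl L j| ≤ 0.0104 := by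
  rcases le_or_gt j (L + 1) with h | h
  · rw [Dl_le h]; exact Df_bound (by omega)
  · rw [Dl_ge (by omega), abs_neg]; exact Df_bound (by omega)

lemma Dl_first (L : ℕ) : 0.1126 < Dl L 0 ∧ Dl L 0 < 0.1354 := by
  rw [Dl_le (by omega)]; exact Df_last_bound L

lemma Dl_end (L : ℕ) : -0.1354 < Dl L (2 * (L + 1)) ∧ Dl L (2 * (L + 1)) < -0.1126 := by
  rw [Dl_ge (by omega)]
  have h : 2 * (L + 1) - (L + 1) = L + 1 := by omega
  rw [h]
  have := Df_last_bound L
  constructor <;> linarith [this.1, this.2]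

/-- spoke multiplicities -/
noncomputable def qs (L j : ℕ) : ℕ :=
  open Classical in
  if Dl L j - Dl L (j - 1) = ea then 675 else if Dl L j - Dl L (j - 1) = eb then 676 else 650

theorem valid (L : ℕ) (hL : 1 ≤ L) : Valid (2 * (L + 1)) (Dl L) (qs L) := by
  classical
  have e1 := ea_lo
  have e2 := ea_hi
  have e3 := eb_lo
  have e4 := eb_hi
  have e5 := ec_lo
  have e6 := ec_hi
  have hfirst := Dl_first L
  have hlast := Dl_end L
  have hdist : ∀ i j, i < j → j ≤ 2 * (L + 1) → Dl L i ≠ Dl L j := by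
    intro i j hij hj heq
    rcases Nat.eq_zero_or_pos i with hi0 | hi0
    · subst hi0
      rcases Nat.lt_or_ge j (2 * (L + 1)) with hj' | hj'
      · have := int_bound (L := L) (j := j) (by omega) (by omega)
        rw [abs_le] at this
        linarith [hfirst.1, this.2]
      · have : j = 2 * (L + 1) := le_antisymm hj hj'
        subst this
        linarith [hfirst.1, hlast.2]
    · rcases Nat.lt_or_ge j (2 * (L + 1)) with hj' | hj'
      · obtain ⟨d, rfl⟩ := Nat.exists_eq_add_of_lt hij
        obtain ⟨a, b, hab, he⟩ := int_comb (L := L) (i := i) hi0 (d + 1) (by omega)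
        rw [← add_assoc] at he
        have : (a : ℝ) * ea + b * eb = 0 := by rw [← he, heq]; ring
        have := indep this
        omega
      · have : j = 2 * (L + 1) := le_antisymm hj hj'
        subst this
        have := int_bound (L := L) (j := i) (by omega) (by omega)
        rw [abs_le] at this
        linarith [hlast.2, this.1]
  refine ⟨by omega, ?_, ?_, ?_, ?_, ?_, ?_, ?_, ?_, ?_, hdist, ?_⟩
  · -- small
    intro j hj
    rcases Nat.eq_zero_or_pos j with hj0 | hj0
    · subst hj0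
      rw [abs_le]
      constructor <;> linarith [hfirst.1, hfirst.2]
    · rcases Nat.lt_or_ge j (2 * (L + 1)) with hj' | hj'
      · have := int_bound (L := L) (j := j) (by omega) (by omega)
        linarith
      · have : j = 2 * (L + 1) := le_antisymm hj hj'
        subst this
        rw [abs_le]
        constructor <;> linarith [hlast.1, hlast.2]
  · -- turn
    intro j h1 h2
    unfold qs
    split_ifs with h3 h4
    · rw [h3, sin_ea]; norm_num
    · rw [h4, sin_eb]; norm_num
    · rcases turn_cases (L := L) h1 h2 with (h | h) | h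
      · exact absurd h h3
      · exact absurd h h4
      · rw [h, sin_ec]; norm_num
  · intro j h1 h2
    rcases turn_cases (L := L) h1 h2 with (h | h) | h <;> rw [h] <;> linarith
  · intro j h1 h2
    rcases turn_cases (L := L) h1 h2 with (h | h) | h <;> rw [h] <;> linarith
  · intro j
    unfold qs
    split_ifs <;> norm_num
  · intro j
    unfold qs
    split_ifs <;> norm_num
  · -- apos
    intro j h1 h2
    obtain ⟨k, hk1, hk2, he⟩ := a_form (L := L) h1 h2
    rw [he, S_succ]
    have b1 := S_bound (L := L) (k := L + 1) le_rfl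
    have b2 := S_bound (L := L) (k := k) hk2
    rw [abs_le] at b1 b2
    have b3 := Df_last_bound L
    have b4 : 0.1 < sin (Df L (L + 1)) := by
      have := Real.sin_bound (x := Df L (L + 1)) (by rw [abs_le]; constructor <;> linarith [b3.1, b3.2])
      rw [abs_le] at this
      have hx0 : 0 < Df L (L + 1) := by linarith [b3.1]
      have habs : |Df L (L + 1)| = Df L (L + 1) := abs_of_pos hx0
      rw [habs] at this
      set x := Df L (L + 1)
      have hx1 : x ^ 2 ≤ 0.02 := by nlinarith [b3.1, b3.2]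
      have hx3 : x ^ 3 ≤ 0.02 * x := by
        have : x ^ 3 = x ^ 2 * x := by ring
        rw [this]; exact mul_le_mul_of_nonneg_right hx1 hx0.le
      have hx5 : x ^ 5 ≤ 0.02 * x := by
        have : x ^ 5 = x ^ 2 * (x ^ 2 * x) := by ring
        rw [this]
        have h0 : 0 ≤ x ^ 2 * x := by positivity
        have h6 : x ^ 2 * x ≤ x := by nlinarith
        calc x ^ 2 * (x ^ 2 * x) ≤ 0.02 * (x ^ 2 * x) := mul_le_mul_of_nonneg_right hx1 h0
          _ ≤ 0.02 * x := mul_le_mul_of_nonneg_left h6 (by norm_num)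
      linarith [this.1, b3.1]
    linarith [b1.1, b2.2]
  · -- ahi
    intro j h1 h2
    obtain ⟨k, hk1, hk2, he⟩ := a_form (L := L) h1 h2
    rw [he, S_succ]
    have b1 := S_bound (L := L) (k := L + 1) le_rfl
    have b2 := S_bound (L := L) (k := k) hk2
    rw [abs_le] at b1 b2
    have b3 := Df_last_bound L
    have b4 : sin (Df L (L + 1)) ≤ Df L (L + 1) := Real.sin_le (by linarith [b3.1])
    linarith [b1.2, b2.1, b3.2]
  · -- aend
    have h : 2 * (L + 1) + 1 = L + 2 + (L + 1) := by omega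
    rw [h, a_ge]
    have h' : 1 + (L + 1) = L + 2 := by omega
    rw [h']; ring
  · -- dist2
    intro i j hi hij hj heq
    rcases Nat.eq_or_lt_of_le hi with hi1 | hi1
    · subst hi1
      have b1 := int_bound (L := L) (j := 1) (by omega) (by omega)
      rw [abs_le] at b1
      have b2 := int_bound (L := L) (j := j - 1) (by omega) (by omega)
      rw [abs_le] at b2
      have h0 : (1:ℕ) - 1 = 0 := rfl
      rw [h0] at heq
      rcases Nat.lt_or_ge j (2 * (L + 1)) with hj' | hj'
      · have := int_bound (L := L) (j := j) (by omega) (by omega)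
        rw [abs_le] at this
        linarith [hfirst.1, this.2, b1.1, b2.2]
      · have : j = 2 * (L + 1) := le_antisymm hj hj'
        rw [this] at heq
        rw [this] at b2
        linarith [hfirst.1, hlast.2, b1.1, b2.2]
    · rcases Nat.lt_or_ge j (2 * (L + 1)) with hj' | hj'
      · obtain ⟨d, rfl⟩ := Nat.exists_eq_add_of_lt hij
        obtain ⟨a, b, hab, he⟩ := int_comb (L := L) (i := i) (by omega) (d + 1) (by omega)
        obtain ⟨a', b', hab', he'⟩ := int_comb (L := L) (i := i - 1) (by omega) (d + 1) (by omega)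
        rw [← add_assoc] at he
        have h3 : i - 1 + (d + 1) = i + d + 1 - 1 := by omega
        rw [h3] at he'
        have : ((a + a' : ℕ) : ℝ) * ea + ((b + b' : ℕ) : ℝ) * eb = 0 := by
          push_cast
          linarith
        have := indep this
        omega
      · have : j = 2 * (L + 1) := le_antisymm hj hj'
        rw [this] at heq
        have b1 := int_bound (L := L) (j := i) (by omega) (by omega)
        have b2 := int_bound (L := L) (j := i - 1) (by omega) (by omega)
        have b3 := int_bound (L := L) (j := 2 * (L + 1) - 1) (by omega) (by omega)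
        rw [abs_le] at b1 b2 b3
        linarith [hlast.2, b1.1, b2.1, b3.2]

end Seq
end Pool.Agent.Helper66
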