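import Mathlib

set_option autoImplicit false

open Set Filter Topology

namespace Pool.Agent.Helper66

universe u

/-- The Sokolov property, with one closed set in each finite power. -/
def IsSok (X : Type u) [TopologicalSpace X] : Prop :=
  ∀ F : (n : ℕ) → Set (Fin n → X), (∀ n, IsClosed (F n)) →
    ∃ f : X → X, Continuous f ∧
      (∃ N : Set (Set X), N.Countable ∧
        ∀ x ∈ Set.range f, ∀ U : Set X, IsOpen U → x ∈ U →
          ∃ A ∈ N, x ∈ A ∧ A ⊆ U ∩ Set.range f) ∧
      ∀ n, ∀ x ∈ F n, f ∘ x ∈ F n

/-- A generic choice recursion on a well order. -/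
theorem exists_rec {Ω : Type*} [LinearOrder Ω] [WellFoundedLT Ω] {Z : Type*} [Nonempty Z]
    (P : (α : Ω) → (Ω → Z) → Z → Prop)
    (hP : ∀ α (h h' : Ω → Z) z, (∀ β < α, h β = h' β) → P α h z → P α h' z)
    (hex : ∀ α (h : Ω → Z), (∀ β < α, P β h (h β)) → ∃ z, P α h z) :
    ∃ p : Ω → Z, ∀ α, P α p (p α) := by
  classical
  let z0 : Z := Classical.arbitrary Z
  let ext : (α : Ω) → ((β : Ω) → β < α → Z) → Ω → Z :=
    fun α h β => if hβ : β < α then h β hβ else z0
  let G : (α : Ω) → ((β : Ω) → β < α → Z) → Z :=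
    fun α h => if hz : ∃ z, P α (ext α h) z then hz.choose else z0
  let p : Ω → Z := WellFounded.fix (r := (· < ·)) wellFounded_lt G
  have hp : ∀ α, p α = G α (fun β _ => p β) := fun α => WellFounded.fix_eq _ _ _
  refine ⟨p, fun α => ?_⟩
  induction α using WellFoundedLT.induction with
  | ind α ih =>
    have hext : ∀ β < α, ext α (fun β _ => p β) β = p β := by
      intro β hβ
      simp [ext, hβ]
    have hz : ∃ z, P α (ext α (fun β _ => p β)) z := by
      refine hex α _ fun β hβ => ?_
      rw [hext β hβ]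
      refine hP β p _ _ (fun γ hγ => (hext γ (hγ.trans hβ)).symm) (ih β hβ)
    have h1 : p α = hz.choose := by
      rw [hp α]
      simp only [G]
      rw [dif_pos hz]
    rw [h1]
    exact hP α _ p _ hext hz.choose_spec

/-- The Sokolov property for countably many closed subsets of one finite power. -/
theorem IsSok.seq_fin {X : Type u} [TopologicalSpace X] (hS : IsSok X) (k : ℕ)
    (C : ℕ → Set (Fin k → X)) (hC : ∀ j, IsClosed (C j)) :
    ∃ f : X → X, Continuous f ∧
      (∃ N : Set (Set X), N.Countable ∧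
        ∀ x ∈ Set.range f, ∀ U : Set X, IsOpen U → x ∈ U →
          ∃ A ∈ N, x ∈ A ∧ A ⊆ U ∩ Set.range f) ∧
      ∀ j, ∀ x ∈ C j, f ∘ x ∈ C j := by
  obtain ⟨f, hf, hN, hF⟩ := hS
    (fun n => {y | ∀ j, ∀ h : k + j = n,
      (fun i : Fin k => y (Fin.cast h (Fin.castAdd j i))) ∈ C j}) (by
      intro n
      simp only [Set.ofPred_forall]
      refine isClosed_iInter fun j => isClosed_iInter fun h => ?_
      refine (hC j).preimage ?_
      fun_prop)
  refine ⟨f, hf, hN, fun j x hx => ?_⟩
  rcases Nat.eq_zero_or_pos k with hk | hk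
  · subst hk
    have : f ∘ x = x := Subsingleton.elim _ _
    rw [this]
    exact hx
  · let a : X := x ⟨0, hk⟩
    let y : Fin (k + j) → X := fun i => if h : (i : ℕ) < k then x ⟨i, h⟩ else a
    have hy := hF (k + j) y (by
      intro j' h
      have hj : j' = j := by omega
      subst hj
      have : (fun i : Fin k => y (Fin.cast h (Fin.castAdd j' i))) = x := by
        funext i
        simp [y]
      rw [this]
      exact hx)
    have h2 := hy j rfl
    have : (fun i : Fin k => (f ∘ y) (Fin.cast rfl (Fin.castAdd j i))) = f ∘ x := by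
      funext i
      simp [y]
    rw [this] at h2
    exact h2

/-- The Sokolov property for a countable family of closed subsets of one finite power. -/
theorem IsSok.fam {X : Type u} [TopologicalSpace X] (hS : IsSok X) {J : Type*} [Finite J]
    {ι : Type*} [Countable ι] (C : ι → Set (J → X)) (hC : ∀ j, IsClosed (C j)) :
    ∃ f : X → X, Continuous f ∧
      (∃ N : Set (Set X), N.Countable ∧
        ∀ x ∈ Set.range f, ∀ U : Set X, IsOpen U → x ∈ U →
          ∃ A ∈ N, x ∈ A ∧ A ⊆ U ∩ Set.range f) ∧
      ∀ j, ∀ x ∈ C j, f ∘ x ∈ C j := by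
  obtain ⟨k, ⟨e⟩⟩ := Finite.exists_equiv_fin J
  obtain ⟨r, hr⟩ := exists_injective_nat ι
  obtain ⟨f, hf, hN, hF⟩ := hS.seq_fin k
    (fun n => {y | ∀ j, r j = n → (y ∘ e) ∈ C j}) (by
      intro n
      simp only [Set.ofPred_forall]
      refine isClosed_iInter fun j => isClosed_iInter fun h => ?_
      refine (hC j).preimage ?_
      fun_prop)
  refine ⟨f, hf, hN, fun j x hx => ?_⟩
  have h1 := hF (r j) (x ∘ e.symm) (by
    intro j' hj'
    have : j' = j := hr hj'
    subst this
    have : (x ∘ e.symm) ∘ e = x := by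
      funext i
      simp
    rw [this]
    exact hx) j rfl
  have : (f ∘ (x ∘ e.symm)) ∘ e = f ∘ x := by
    funext i
    simp
  rw [this] at h1
  exact h1

/-- A compact subspace with a countable network, inside a compact Hausdorff space, has a countable
separating family of continuous functions. -/
theorem exists_sep_of_network {X : Type u} [TopologicalSpace X] [CompactSpace X] [T2Space X]
    (R : Set X)
    (hN : ∃ N : Set (Set X), N.Countable ∧
        ∀ x ∈ R, ∀ U : Set X, IsOpen U → x ∈ U →
          ∃ A ∈ N, x ∈ A ∧ A ⊆ U ∩ R) :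
    ∃ S : Set C(X, ℝ), S.Countable ∧ ∀ x ∈ R, ∀ y ∈ R, x ≠ y → ∃ g ∈ S, g x ≠ g y := by
  classical
  obtain ⟨N, hNc, hN⟩ := hN
  let g : Set X × Set X → C(X, ℝ) := fun p =>
    if h : Disjoint (closure p.1) (closure p.2) then
      (exists_continuous_zero_one_of_isClosed isClosed_closure isClosed_closure h).choose
    else 0
  refine ⟨g '' (N ×ˢ N), (hNc.prod hNc).image g, fun x hx y hy hxy => ?_⟩
  obtain ⟨U, hxU, hU, V, hyV, hV, hd⟩ := exists_open_nhds_disjoint_closure hxy
  obtain ⟨A, hA, hxA, hAU⟩ := hN x hx U hU hxU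
  obtain ⟨B, hB, hyB, hBV⟩ := hN y hy V hV hyV
  have hAB : Disjoint (closure A) (closure B) :=
    hd.mono (closure_mono (hAU.trans inter_subset_left))
      (closure_mono (hBV.trans inter_subset_left))
  refine ⟨g (A, B), mem_image_of_mem g ⟨hA, hB⟩, ?_⟩
  have hg : g (A, B) = (exists_continuous_zero_one_of_isClosed isClosed_closure
      isClosed_closure hAB).choose := by
    simp only [g]
    rw [dif_pos hAB]
  have hs := (exists_continuous_zero_one_of_isClosed isClosed_closure
      isClosed_closure hAB).choose_spec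
  rw [← hg] at hs
  have h1 := hs.1 (subset_closure hxA)
  have h2 := hs.2.1 (subset_closure hyB)
  simp only [Pi.zero_apply, Pi.one_apply] at h1 h2
  rw [h1, h2]
  norm_num

/-- Closed subsets with a countable separating family are second countable. -/
theorem secondCountable_of_sep {X : Type u} [TopologicalSpace X] [CompactSpace X] [T2Space X]
    (R : Set X) (hR : IsClosed R)
    (S : Set C(X, ℝ)) (hSc : S.Countable)
    (hS : ∀ x ∈ R, ∀ y ∈ R, x ≠ y → ∃ g ∈ S, g x ≠ g y) :
    SecondCountableTopology R := by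
  have : Countable S := hSc.to_subtype
  have hc : CompactSpace R := isCompact_iff_compactSpace.1 hR.isCompact
  let e : R → (S → ℝ) := fun x g => g.1 x.1
  have he : Continuous e := by
    refine continuous_pi fun g => ?_
    exact g.1.continuous.comp continuous_subtype_val
  have hinj : Function.Injective e := by
    intro x y hxy
    by_contra hne
    have hne' : x.1 ≠ y.1 := fun h => hne (Subtype.ext h)
    obtain ⟨g, hg, hgne⟩ := hS x.1 x.2 y.1 y.2 hne'
    exact hgne (congrFun hxy ⟨g, hg⟩)
  exact (he.isClosedEmbedding hinj).isInducing.secondCountableTopology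

end Pool.Agent.Helper66
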