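import Pool.Agent.Helper66.SokBasic

set_option autoImplicit false

open Set Filter Topology

namespace Pool.Agent.Helper66

universe u

/-- A well order of type omega one: it is uncountable with countable closed initial segments. -/
theorem exists_omega1 : ∃ (Ω : Type) (_ : LinearOrder Ω), WellFoundedLT Ω ∧
    (∀ a : Ω, (Iic a).Countable) ∧ ¬ Countable Ω := by
  refine ⟨(Cardinal.aleph 1).ord.ToType, inferInstance, inferInstance, ?_, ?_⟩
  · intro a
    have h1 : (Iio a).Countable := by
      have h := Cardinal.mk_Iio_lt a (by simp)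
      rw [← Cardinal.le_aleph0_iff_set_countable]
      have h2 : Cardinal.mk (Cardinal.aleph 1).ord.ToType = Order.succ Cardinal.aleph0 := by
        rw [Cardinal.mk_ord_toType, Cardinal.succ_aleph0]
      exact Order.lt_succ_iff.1 (lt_of_lt_of_eq h h2)
    have h2 : Iic a = insert a (Iio a) := by
      ext b
      simp [le_iff_eq_or_lt]
    rw [h2]
    exact h1.insert a
  · intro h
    have h1 := (Cardinal.mk_le_aleph0_iff (α := (Cardinal.aleph 1).ord.ToType)).2 h
    rw [Cardinal.mk_ord_toType] at h1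
    exact absurd h1 (not_le.2 Cardinal.aleph0_lt_aleph_one)

/-- Countable sets are bounded in a well order of type omega one. -/
theorem bdd_of_countable {Ω : Type*} [LinearOrder Ω]
    (h1 : ∀ a : Ω, (Iic a).Countable) (h2 : ¬ Countable Ω) {s : Set Ω} (hs : s.Countable) :
    ∃ b, ∀ a ∈ s, a < b := by
  by_contra hcon
  push Not at hcon
  apply h2
  have : (univ : Set Ω) = ⋃ a ∈ s, Iic a := by
    ext b
    simp only [mem_univ, mem_iUnion, mem_Iic, exists_prop, true_iff]
    exact hcon b
  rw [← countable_univ_iff, this]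
  exact hs.biUnion fun a _ => h1 a

/-- The intersection of a decreasing family of nonempty closed sets indexed by a
nonempty linear order is nonempty in a compact space. -/
theorem iInter_nonempty_of_antitone {Y : Type*} [TopologicalSpace Y] [CompactSpace Y]
    {ι : Type*} [Nonempty ι] [LinearOrder ι] (K : ι → Set Y) (hanti : Antitone K)
    (hne : ∀ i, (K i).Nonempty) (hcl : ∀ i, IsClosed (K i)) : (⋂ i, K i).Nonempty := by
  refine IsCompact.nonempty_iInter_of_directed_nonempty_isCompact_isClosed K ?_ hne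
    (fun i => (hcl i).isCompact) hcl
  intro i j
  rcases le_total i j with h | h
  · exact ⟨j, hanti h, subset_rfl⟩
  · exact ⟨i, subset_rfl, hanti h⟩

/-- In a set containing closures of its countable subsets, a countable family of
neighbourhoods of a point of the closure meets the set in one point. -/
theorem exists_mem_iInter_nhds {Y : Type*} [TopologicalSpace Y] [CompactSpace Y]
    {A : Set Y} (hA : ∀ D ⊆ A, D.Countable → closure D ⊆ A) {x : Y} (hx : x ∈ closure A)
    {ι : Type*} [Countable ι] [Nonempty ι] (V : ι → Set Y) (hV : ∀ i, V i ∈ 𝓝 x)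
    (hVc : ∀ i, IsClosed (V i)) : ∃ a ∈ A, ∀ i, a ∈ V i := by
  obtain ⟨e, he⟩ := exists_surjective_nat ι
  have h1 : ∀ n : ℕ, ∃ a ∈ A, ∀ m ≤ n, a ∈ V (e m) := by
    intro n
    have h2 : (⋂ m ∈ Iic n, V (e m)) ∈ 𝓝 x := by
      refine (biInter_mem (finite_Iic n)).2 fun m _ => hV (e m)
    obtain ⟨a, ha1, ha2⟩ := mem_closure_iff_nhds.1 hx _ h2
    refine ⟨a, ha2, fun m hm => ?_⟩
    simp only [mem_iInter] at ha1
    exact ha1 m hm
  choose a haA haV using h1
  obtain ⟨b, hb⟩ := iInter_nonempty_of_antitone (fun n : ℕ => closure (a '' Ici n))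
    (fun m n hmn => closure_mono (image_mono (Ici_subset_Ici.2 hmn)))
    (fun n => ⟨a n, subset_closure ⟨n, self_mem_Ici, rfl⟩⟩) (fun n => isClosed_closure)
  rw [mem_iInter] at hb
  refine ⟨b, ?_, fun i => ?_⟩
  · refine hA (a '' Ici 0) ?_ (Set.Countable.image (Set.to_countable _) a) (hb 0)
    rintro _ ⟨n, _, rfl⟩
    exact haA n
  · obtain ⟨n, rfl⟩ := he i
    have h3 : closure (a '' Ici n) ⊆ V (e n) := by
      refine closure_minimal ?_ (hVc (e n))
      rintro _ ⟨m, hm, rfl⟩
      exact haV m n hm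
    exact h3 (hb n)

/-- In a finite power of a Sokolov compact space, a set containing the closures of its
countable subsets is closed. -/
theorem IsSok.isClosed_pow {X : Type u} [TopologicalSpace X] [CompactSpace X] [T2Space X]
    (hS : IsSok X) {I : Type} [Finite I] (A : Set (I → X))
    (hA : ∀ D ⊆ A, D.Countable → closure D ⊆ A) : IsClosed A := by
  classical
  by_contra hnot
  have hex : ∃ x ∈ closure A, x ∉ A := by
    by_contra hcon
    push Not at hcon
    exact hnot (isClosed_of_closure_subset hcon)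
  obtain ⟨p, hpcl, hpA⟩ := hex
  obtain ⟨Ω, _, _, hcount, hunc⟩ := exists_omega1
  have hΩne : Nonempty Ω := by
    by_contra h
    rw [not_nonempty_iff] at h
    exact hunc inferInstance
  have hcount' : ∀ a : Ω, (Iio a).Countable := fun a => (hcount a).mono Iio_subset_Iic_self
  have hmax : ∀ a : Ω, ∃ b, a < b := fun a => by
    obtain ⟨b, hb⟩ := bdd_of_countable hcount hunc (countable_singleton a)
    exact ⟨b, hb a rfl⟩
  have hYne : Nonempty ((I → X) × Set (I → X)) := ⟨(p, univ)⟩
  -- the recursion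
  obtain ⟨q, hq⟩ := exists_rec (Ω := Ω) (Z := (I → X) × Set (I → X))
    (fun α h z => z.1 ∈ A ∧ z.1 ∈ z.2 ∧ (∀ β < α, z.1 ∈ (h β).2) ∧ IsClosed z.2 ∧ z.2 ∈ 𝓝 p ∧
      Disjoint z.2 (closure ((fun β => (h β).1) '' Iio α)))
    (by
      rintro α h h' z hh ⟨h1, h2, h3, h4, h5, h6⟩
      refine ⟨h1, h2, fun β hβ => ?_, h4, h5, ?_⟩
      · rw [← hh β hβ]
        exact h3 β hβ
      · have : (fun β => (h' β).1) '' Iio α = (fun β => (h β).1) '' Iio α := by
          refine image_congr fun β hβ => ?_
          rw [hh β hβ]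
        rw [this]
        exact h6)
    (by
      intro α h hprev
      have hD : closure ((fun β => (h β).1) '' Iio α) ⊆ A := by
        refine hA _ ?_ ((hcount' α).image _)
        rintro _ ⟨β, hβ, rfl⟩
        exact (hprev β hβ).1
      have hpD : p ∉ closure ((fun β => (h β).1) '' Iio α) := fun hp => hpA (hD hp)
      have hopen : IsOpen (closure ((fun β => (h β).1) '' Iio α))ᶜ := isClosed_closure.isOpen_compl
      obtain ⟨V, hVn, hVc, hVs⟩ := exists_mem_nhds_isClosed_subset (hopen.mem_nhds hpD)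
      have hc : Countable (Iio α) := (hcount' α).to_subtype
      obtain ⟨a, haA, haV⟩ := exists_mem_iInter_nhds hA hpcl
        (ι := Option (Iio α)) (fun o => o.elim V (fun β => (h β.1).2))
        (by
          rintro (_ | β)
          · exact hVn
          · exact (hprev β.1 β.2).2.2.2.2.1)
        (by
          rintro (_ | β)
          · exact hVc
          · exact (hprev β.1 β.2).2.2.2.1)
      refine ⟨(a, V), haA, haV none, fun β hβ => haV (some ⟨β, hβ⟩), hVc, hVn, ?_⟩
      exact disjoint_left.2 fun y hy hy' => hVs hy hy')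
  let x : Ω → (I → X) := fun α => (q α).1
  let L : Ω → Set (I → X) := fun α => closure (x '' Iio α)
  let L' : Ω → Set (I → X) := fun α => closure (x '' Iic α)
  let R : Ω → Set (I → X) := fun α => closure (x '' Ici α)
  let Rinf : Set (I → X) := ⋂ α, R α
  let Q : Set (I → X) := closure (range x)
  have hLR : ∀ α, Disjoint (R α) (L α) := by
    intro α
    obtain ⟨_, _, _, h4, _, h6⟩ := hq α
    refine Disjoint.mono_left ?_ h6
    refine closure_minimal ?_ h4
    rintro _ ⟨β, hβ, rfl⟩
    rcases (show α ≤ β from hβ).lt_or_eq with h | h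
    · exact (hq β).2.2.1 α h
    · subst h
      exact (hq α).2.1
  have hRanti : Antitone R := fun α β h => closure_mono (image_mono (Ici_subset_Ici.2 h))
  have hRne : Rinf.Nonempty := iInter_nonempty_of_antitone R hRanti
    (fun α => ⟨x α, subset_closure ⟨α, self_mem_Ici, rfl⟩⟩) (fun α => isClosed_closure)
  have hRinf : ∀ α, Rinf ⊆ R α := fun α => iInter_subset _ α
  have hRQ : ∀ α, R α ⊆ Q := fun α => closure_mono (image_subset_range _ _)
  have hL'L : ∀ α β, α < β → L' α ⊆ L β := fun α β h =>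
    closure_mono (image_mono fun γ hγ => lt_of_le_of_lt hγ h)
  have hRL' : ∀ α, ∀ y ∈ Rinf, y ∉ L' α := by
    intro α y hy hy'
    obtain ⟨β, hβ⟩ := hmax α
    exact disjoint_left.1 (hLR β) (hRinf β hy) (hL'L α β hβ hy')
  have hQLR : ∀ α, Q ⊆ L α ∪ R α := by
    intro α
    have h1 : range x ⊆ x '' Iio α ∪ x '' Ici α := by
      rintro _ ⟨β, rfl⟩
      rcases lt_or_ge β α with h | h
      · exact Or.inl ⟨β, h, rfl⟩
      · exact Or.inr ⟨β, h, rfl⟩
    exact (closure_mono h1).trans closure_union.subset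
  -- the closed relation
  let E : Set ((I → X) × (I → X)) := {z | z.1 ∈ Q ∧ z.2 ∈ Q ∧ ∀ α, z.2 ∈ L' α ∨ z.1 ∈ R α}
  have hEc : IsClosed E := by
    have : E = (Prod.fst ⁻¹' Q) ∩ ((Prod.snd ⁻¹' Q) ∩
        ⋂ α, (Prod.snd ⁻¹' (L' α) ∪ Prod.fst ⁻¹' (R α))) := by
      ext z
      simp [E]
    rw [this]
    refine (isClosed_closure.preimage continuous_fst).inter
      ((isClosed_closure.preimage continuous_snd).inter (isClosed_iInter fun α => ?_))
    exact (isClosed_closure.preimage continuous_snd).union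
      (isClosed_closure.preimage continuous_fst)
  obtain ⟨o⟩ := hΩne
  let bot : Ω := wellFounded_lt.min (univ : Set Ω) ⟨o, trivial⟩
  have hbot : ∀ a, bot ≤ a := fun a => not_lt.1 (wellFounded_lt.not_lt_min univ (mem_univ a))
  -- the retraction-like map
  let C : Option (Option (Option Unit)) → Set (I ⊕ I → X) := fun s =>
    match s with
    | none => {y | (y ∘ Sum.inl, y ∘ Sum.inr) ∈ E}
    | some none => {y | y ∘ Sum.inl ∈ Q}
    | some (some none) => {y | y ∘ Sum.inl ∈ Rinf}
    | some (some (some ())) => {y | y ∘ Sum.inl = x bot}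
  have hC : ∀ j, IsClosed (C j) := by
    rintro (_ | _ | _ | _)
    · refine hEc.preimage ?_
      fun_prop
    · exact isClosed_closure.preimage (by fun_prop)
    · exact (isClosed_iInter fun α => isClosed_closure).preimage (by fun_prop)
    · exact isClosed_eq (by fun_prop) continuous_const
  obtain ⟨f, hf, hN, hfC⟩ := hS.fam C hC
  let F : (I → X) → (I → X) := fun y => f ∘ y
  have hF : Continuous F := by
    refine continuous_pi fun i => ?_
    exact hf.comp (continuous_apply i)
  have hFE : ∀ y y', (y, y') ∈ E → (F y, F y') ∈ E := by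
    intro y y' h
    exact hfC none (Sum.elim y y') h
  have hFQ : ∀ y ∈ Q, F y ∈ Q := by
    intro y h
    exact hfC (some none) (Sum.elim y y) h
  have hFR : ∀ y ∈ Rinf, F y ∈ Rinf := by
    intro y h
    exact hfC (some (some none)) (Sum.elim y y) h
  have hFx : F (x bot) = x bot := by
    exact hfC (some (some (some ()))) (Sum.elim (x bot) (x bot)) (by
      show Sum.elim (x bot) (x bot) ∘ Sum.inl = x bot
      simp)
  -- second countability of the range
  obtain ⟨S, hSc, hSsep⟩ := exists_sep_of_network (range f) hN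
  have hsc : SecondCountableTopology (range f) :=
    secondCountable_of_sep (range f) (isCompact_range hf).isClosed S hSc hSsep
  obtain ⟨α₀, hα₀⟩ : ∃ α₀, ∀ y, F y ∈ R α₀ → F y ∈ Rinf := by
    let j : (I → range f) → (I → X) := fun y i => (y i).1
    have hj : Continuous j := by fun_prop
    have hopen : ∀ α, IsOpen (j ⁻¹' (R α)ᶜ) := fun α =>
      (isClosed_closure.isOpen_compl).preimage hj
    obtain ⟨T, hTc, hT⟩ := TopologicalSpace.isOpen_iUnion_countable (fun α => j ⁻¹' (R α)ᶜ) hopen
    obtain ⟨α₀, hα₀⟩ := bdd_of_countable hcount hunc hTc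
    refine ⟨α₀, fun y hy => ?_⟩
    by_contra hcon
    simp only [Rinf, mem_iInter, not_forall] at hcon
    obtain ⟨α, hα⟩ := hcon
    let z : I → range f := fun i => ⟨f (y i), mem_range_self _⟩
    have hz : z ∈ ⋃ α, j ⁻¹' (R α)ᶜ := mem_iUnion.2 ⟨α, hα⟩
    rw [← hT] at hz
    simp only [mem_iUnion] at hz
    obtain ⟨β, hβT, hβ⟩ := hz
    exact hβ (hRanti (hα₀ β hβT).le hy)
  have hnotP : ∀ α, F (x α) ∉ Rinf → F (x α) ∈ L α₀ := by
    intro α h
    have h1 : F (x α) ∈ Q := hFQ _ (subset_closure (mem_range_self α))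
    rcases hQLR α₀ h1 with h2 | h2
    · exact h2
    · exact absurd (hα₀ _ h2) h
  have hP : ∃ α, F (x α) ∈ Rinf := by
    by_contra hcon
    push Not at hcon
    obtain ⟨z, hz⟩ := hRne
    have h1 : F z ∈ R α₀ := hRinf α₀ (hFR z hz)
    have h2 : z ∈ Q := hRQ α₀ (hRinf α₀ hz)
    have h3 : F z ∈ L α₀ := by
      have h4 : closure (range x) ⊆ F ⁻¹' (L α₀) := by
        refine closure_minimal ?_ (isClosed_closure.preimage hF)
        rintro _ ⟨α, rfl⟩
        exact hnotP α (hcon α)
      exact h4 h2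
    exact disjoint_left.1 (hLR α₀) h1 h3
  let αs : Ω := wellFounded_lt.min {α | F (x α) ∈ Rinf} hP
  have hαs : F (x αs) ∈ Rinf := wellFounded_lt.min_mem {α | F (x α) ∈ Rinf} hP
  have hmin : ∀ β < αs, F (x β) ∉ Rinf := fun β hβ h =>
    wellFounded_lt.not_lt_min {α | F (x α) ∈ Rinf} h hβ
  have hne : bot ≠ αs := by
    intro h
    rw [← h, hFx] at hαs
    exact hRL' bot _ hαs (subset_closure ⟨bot, self_mem_Iic, rfl⟩)
  have hlt : bot < αs := lt_of_le_of_ne (hbot _) hne
  have hIne : Nonempty (Iio αs) := ⟨⟨bot, hlt⟩⟩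
  obtain ⟨y, hy⟩ := iInter_nonempty_of_antitone
    (fun β : Iio αs => closure (x '' Ico β.1 αs))
    (fun β γ h => closure_mono (image_mono (Ico_subset_Ico_left h)))
    (fun β => ⟨x β.1, subset_closure ⟨β.1, ⟨le_rfl, β.2⟩, rfl⟩⟩) (fun β => isClosed_closure)
  rw [mem_iInter] at hy
  have hyE : (y, x αs) ∈ E := by
    refine ⟨?_, subset_closure (mem_range_self _), fun α => ?_⟩
    · exact closure_mono (image_subset_range _ _) (hy ⟨bot, hlt⟩)
    · rcases lt_or_ge α αs with h | h
      · right
        exact closure_mono (image_mono fun γ hγ => hγ.1) (hy ⟨α, h⟩)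
      · left
        exact subset_closure ⟨αs, h, rfl⟩
  obtain ⟨_, _, h3⟩ := hFE _ _ hyE
  have hFy : F y ∈ Rinf := by
    refine mem_iInter.2 fun α => ?_
    rcases h3 α with h | h
    · exact absurd h (hRL' α _ hαs)
    · exact h
  have hFy' : F y ∈ L α₀ := by
    have h4 : closure (x '' Ico bot αs) ⊆ F ⁻¹' (L α₀) := by
      refine closure_minimal ?_ (isClosed_closure.preimage hF)
      rintro _ ⟨α, hα, rfl⟩
      exact hnotP α (hmin α hα.2)
    exact h4 (hy ⟨bot, hlt⟩)
  exact disjoint_left.1 (hLR α₀) (hRinf α₀ hFy) hFy'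

end Pool.Agent.Helper66
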