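import Pool.Agent.Helper66.SokMon

set_option autoImplicit false

open Set Filter Topology Cardinal

namespace Pool.Agent.Helper66

universe u

variable {X : Type u}

/-- The functional `g ↦ ∑ c i * g (w i)`. -/
noncomputable def ev {I : Type} [Fintype I] (c : I → ℝ) (w : I → X) : (X → ℝ) →L[ℝ] ℝ :=
  ∑ i, c i • ContinuousLinearMap.proj (R := ℝ) (φ := fun _ : X => ℝ) (w i)

theorem ev_apply {I : Type} [Fintype I] (c : I → ℝ) (w : I → X) (g : X → ℝ) :
    ev c w g = ∑ i, c i * g (w i) := by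
  simp [ev]

variable [TopologicalSpace X]

theorem continuous_ev {I : Type} [Fintype I] (c : I → ℝ) (g : C(X, ℝ)) :
    Continuous fun w : I → X => ev c w g := by
  simp only [ev_apply]
  refine continuous_finsetSum _ fun i _ => continuous_const.mul ?_
  exact g.continuous.comp (continuous_apply i)

theorem isClosed_agree {I : Type} (S : Set C(X, ℝ)) :
    IsClosed {p : (I → X) × (I → X) | Agree S p.1 p.2} := by
  have : {p : (I → X) × (I → X) | Agree S p.1 p.2} =
      ⋂ g ∈ S, ⋂ i, {p : (I → X) × (I → X) | g (p.1 i) = g (p.2 i)} := by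
    ext p
    simp [Agree]
  rw [this]
  refine isClosed_biInter fun g _ => isClosed_iInter fun i => ?_
  refine isClosed_eq ?_ ?_
  · exact g.continuous.comp ((continuous_apply i).comp continuous_fst)
  · exact g.continuous.comp ((continuous_apply i).comp continuous_snd)

theorem Agree.mono {I : Type} {S S' : Set C(X, ℝ)} (h : S ⊆ S') {w v : I → X}
    (hw : Agree S' w v) : Agree S w v := fun g hg i => hw g (h hg) i

/-- Union of the families indexed below `γ`. -/
def low {Ω : Type*} [LinearOrder Ω] {Z : Type*} (s : Ω → Set Z) (γ : Ω) : Set Z :=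
  ⋃ η ∈ Iio γ, s η

theorem low_mono {Ω : Type*} [LinearOrder Ω] {Z : Type*} (s : Ω → Set Z) : Monotone (low s) := by
  intro a b h
  exact biUnion_subset_biUnion_left (Iio_subset_Iio h)

theorem subset_low {Ω : Type*} [LinearOrder Ω] {Z : Type*} (s : Ω → Set Z) {a b : Ω} (h : a < b) :
    s a ⊆ low s b := subset_biUnion_of_mem (u := s) h

variable [CompactSpace X] [T2Space X]

/-- The set of essential indices is countable. -/
theorem IsSok.gamma_countable (hS : IsSok X) {I : Type} [Fintype I] {Ω : Type*} [LinearOrder Ω]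
    [WellFoundedLT Ω] (TT : Ω → Set (I → X)) (hTT : Monotone TT) (sp : Ω → Set C(X, ℝ))
    (hsp : ∀ η, ∀ w ∈ closure (TT η), ∀ v ∈ closure (TT η), Agree (sp η) w v → w = v)
    (c : I → ℝ) (g : C(X, ℝ)) (Γ : Set Ω)
    (hΓ : ∀ γ ∈ Γ, (Iio γ).Nonempty → ∃ w ∈ closure (TT γ), ∃ v ∈ closure (low TT γ),
      Agree (low (low sp) γ) w v ∧ ev c w g ≠ ev c v g) : Γ.Countable := by
  by_contra hunc
  -- a subset of type omega one
  obtain ⟨G, hGΓ, hGu, hGc⟩ : ∃ G : Set Ω, G ⊆ Γ ∧ ¬ G.Countable ∧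
      ∀ γ ∈ G, (G ∩ Iio γ).Countable := by
    by_cases h : ∃ γ', ¬ (Γ ∩ Iio γ').Countable
    · let γ' := wellFounded_lt.min {γ' | ¬ (Γ ∩ Iio γ').Countable} h
      have h1 : ¬ (Γ ∩ Iio γ').Countable :=
        wellFounded_lt.min_mem {γ' | ¬ (Γ ∩ Iio γ').Countable} h
      refine ⟨Γ ∩ Iio γ', inter_subset_left, h1, fun γ hγ => ?_⟩
      have h2 : ¬ γ ∈ {γ' | ¬ (Γ ∩ Iio γ').Countable} := fun h3 =>
        wellFounded_lt.not_lt_min _ h3 hγ.2
      have h4 : (Γ ∩ Iio γ).Countable := by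
        by_contra h5
        exact h2 h5
      exact h4.mono (inter_subset_inter_left _ inter_subset_left)
    · push Not at h
      exact ⟨Γ, subset_rfl, hunc, fun γ _ => h γ⟩
  have hGc' : ∀ γ ∈ G, (G ∩ Iic γ).Countable := by
    intro γ hγ
    refine ((hGc γ hγ).insert γ).mono ?_
    rintro b ⟨hb, hb'⟩
    rcases (show b ≤ γ from hb').lt_or_eq with h | h
    · exact Or.inr ⟨hb, h⟩
    · exact Or.inl h
  let J : Set Ω := {η | ∃ γ ∈ G, η ≤ γ}
  have hGJ : G ⊆ J := fun γ hγ => ⟨γ, hγ, le_rfl⟩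
  have hbd : ∀ s : Set Ω, s ⊆ J → s.Countable → ∃ γ ∈ G, ∀ b ∈ s, b < γ := by
    intro s hsJ hs
    by_contra hcon
    push Not at hcon
    have h1 : ∀ b : s, ∃ γ ∈ G, b.1 ≤ γ := fun b => hsJ b.2
    choose γb hγG hγb using h1
    have : Countable s := hs.to_subtype
    apply hGu
    refine (countable_iUnion fun b : s => hGc' (γb b) (hγG b)).mono ?_
    intro γ hγ
    obtain ⟨b, hb, hγb'⟩ := hcon γ hγ
    exact mem_iUnion.2 ⟨⟨b, hb⟩, hγ, hγb'.trans (hγb ⟨b, hb⟩)⟩
  have hJne : Nonempty J := by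
    have : G.Nonempty := by
      by_contra h
      rw [not_nonempty_iff_eq_empty] at h
      exact hGu (h ▸ countable_empty)
    obtain ⟨γ, hγ⟩ := this
    exact ⟨⟨γ, hGJ hγ⟩⟩
  have hJb : ∀ s : Set J, s.Countable → ∃ b, ∀ a ∈ s, a ≤ b := by
    intro s hs
    obtain ⟨γ, hγ, h⟩ := hbd (Subtype.val '' s) (by
      rintro _ ⟨a, _, rfl⟩
      exact a.2) (hs.image _)
    refine ⟨⟨γ, hGJ hγ⟩, fun a ha => ?_⟩
    exact (h a.1 ⟨a, ha, rfl⟩).le
  let Z : Set (I → X) := closure (⋃ η : J, TT η.1)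
  have hZ : Z = ⋃ η : J, closure (TT η.1) :=
    hS.closure_iUnion hJb (fun η : J => TT η.1) (fun a b h => hTT h)
  have hTZ : ∀ η ∈ J, closure (TT η) ⊆ Z := by
    intro η hη
    exact closure_mono (subset_iUnion (fun η : J => TT η.1) ⟨η, hη⟩)
  have hn : ∀ n : ℕ, ∃ η ∈ J, ∀ w ∈ Z, ∀ v ∈ Z, Agree (low sp η) w v →
      |ev c w g - ev c v g| < 1 / ((n : ℝ) + 1) := by
    intro n
    by_contra hcon
    push Not at hcon
    let K : J → Set ((I → X) × (I → X)) := fun η =>
      {p | p.1 ∈ Z ∧ p.2 ∈ Z ∧ Agree (low sp η.1) p.1 p.2 ∧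
        1 / ((n : ℝ) + 1) ≤ |ev c p.1 g - ev c p.2 g|}
    obtain ⟨p, hp⟩ := iInter_nonempty_of_antitone K (by
        rintro a b h p ⟨h1, h2, h3, h4⟩
        exact ⟨h1, h2, h3.mono (low_mono sp h), h4⟩)
      (by
        intro η
        obtain ⟨w, hw, v, hv, h1, h2⟩ := hcon η.1 η.2
        exact ⟨(w, v), hw, hv, h1, h2⟩)
      (by
        intro η
        have hKe : K η = (Prod.fst ⁻¹' Z) ∩ ((Prod.snd ⁻¹' Z) ∩
            ({p : (I → X) × (I → X) | Agree (low sp η.1) p.1 p.2} ∩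
              {p : (I → X) × (I → X) | 1 / ((n : ℝ) + 1) ≤ |ev c p.1 g - ev c p.2 g|})) := rfl
        rw [hKe]
        refine (isClosed_closure.preimage continuous_fst).inter
          ((isClosed_closure.preimage continuous_snd).inter
          ((isClosed_agree _).inter ?_))
        refine isClosed_le continuous_const ?_
        exact (((continuous_ev c g).comp continuous_fst).sub
          ((continuous_ev c g).comp continuous_snd)).abs)
    rw [mem_iInter] at hp
    obtain ⟨η₀⟩ := hJne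
    have h1 := (hp η₀).1
    have h2 := (hp η₀).2.1
    rw [hZ] at h1 h2
    obtain ⟨a, ha⟩ := mem_iUnion.1 h1
    obtain ⟨b, hb⟩ := mem_iUnion.1 h2
    obtain ⟨γ, hγ, hlt⟩ := hbd {(max a b).1} (by
      rintro _ rfl
      exact (max a b).2) (countable_singleton _)
    have h3 : Agree (sp (max a b).1) p.1 p.2 :=
      (hp ⟨γ, hGJ hγ⟩).2.2.1.mono (subset_low sp (hlt _ rfl))
    have h4 : p.1 = p.2 := hsp _ _ (closure_mono (hTT (le_max_left a b)) ha) _
      (closure_mono (hTT (le_max_right a b)) hb) h3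
    have h5 := (hp η₀).2.2.2
    rw [h4, sub_self, abs_zero] at h5
    have h6 : (0 : ℝ) < 1 / ((n : ℝ) + 1) := by positivity
    linarith
  choose η hηJ hη using hn
  obtain ⟨γ, hγG, hγ⟩ := hbd (range η) (by
    rintro _ ⟨n, rfl⟩
    exact hηJ n) (countable_range η)
  obtain ⟨w, hw, v, hv, h1, h2⟩ := hΓ γ (hGΓ hγG) ⟨η 0, hγ _ (mem_range_self 0)⟩
  apply h2
  have hwZ : w ∈ Z := hTZ γ (hGJ hγG) hw
  have hvZ : v ∈ Z := by
    refine hTZ γ (hGJ hγG) (closure_mono ?_ hv)
    exact iUnion₂_subset fun a ha => hTT (le_of_lt ha)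
  have h3 : ∀ n : ℕ, |ev c w g - ev c v g| < 1 / ((n : ℝ) + 1) := by
    intro n
    exact hη n w hwZ v hvZ (h1.mono (subset_low (low sp) (hγ _ (mem_range_self n))))
  by_contra hne
  have h4 : 0 < |ev c w g - ev c v g| := abs_pos.2 (sub_ne_zero.2 hne)
  obtain ⟨n, hn⟩ := exists_nat_one_div_lt h4
  exact absurd (h3 n) (not_lt.2 hn.le)

end Pool.Agent.Helper66
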