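import Pool.Agent.Helper66.SokClosed

set_option autoImplicit false

open Set Filter Topology Cardinal

namespace Pool.Agent.Helper66

universe u

/-- A family of continuous functions separates the points of the closure of `D`. -/
def SepBy {X : Type u} [TopologicalSpace X] (S : Set C(X, ℝ)) (D : Set X) : Prop :=
  ∀ x ∈ closure D, ∀ y ∈ closure D, (∀ g ∈ S, g x = g y) → x = y

/-- The monolithicity hypothesis at the cardinals of countable cofinality. -/
def MonCof (X : Type u) [TopologicalSpace X] (μ : Cardinal.{u}) : Prop :=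
  ∀ D : Set X, ℵ₀ < #D → #D < μ → (#D).ord.cof = ℵ₀ →
    ∃ S : Set C(X, ℝ), #S ≤ #D ∧ SepBy S D

variable {X : Type u} [TopologicalSpace X] [CompactSpace X] [T2Space X]

theorem IsSok.sep_countable (hS : IsSok X) (D : Set X) (hD : D.Countable) :
    ∃ S : Set C(X, ℝ), S.Countable ∧ SepBy S D := by
  have : Countable D := hD.to_subtype
  obtain ⟨f, hf, hN, hfC⟩ := hS.fam (J := Unit) (ι := D) (fun d => {y | y () = d.1})
    (fun d => isClosed_eq (continuous_apply _) continuous_const)
  have hfix : D ⊆ range f := by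
    intro d hd
    refine ⟨d, ?_⟩
    exact hfC ⟨d, hd⟩ (fun _ => d) rfl
  have hcl : closure D ⊆ range f := closure_minimal hfix (isCompact_range hf).isClosed
  obtain ⟨S, hSc, hSs⟩ := exists_sep_of_network (range f) hN
  refine ⟨S, hSc, fun x hx y hy h => ?_⟩
  by_contra hne
  obtain ⟨g, hg, hgne⟩ := hSs x (hcl hx) y (hcl hy) hne
  exact hgne (h g hg)

/-- Directed unions of closures are closed, in finite powers of Sokolov compact spaces. -/
theorem IsSok.closure_iUnion (hS : IsSok X) {I : Type} [Finite I] {ι : Type*} [LinearOrder ι]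
    (hb : ∀ s : Set ι, s.Countable → ∃ b, ∀ a ∈ s, a ≤ b)
    (T : ι → Set (I → X)) (hT : Monotone T) :
    closure (⋃ i, T i) = ⋃ i, closure (T i) := by
  apply Subset.antisymm
  · refine closure_minimal (iUnion_mono fun i => subset_closure) ?_
    refine hS.isClosed_pow _ fun D hD hDc => ?_
    have h1 : ∀ d : D, ∃ i, d.1 ∈ closure (T i) := fun d => mem_iUnion.1 (hD d.2)
    choose i hi using h1
    have : Countable D := hDc.to_subtype
    obtain ⟨b, hb⟩ := hb (range i) (countable_range i)
    refine Subset.trans (closure_minimal (fun d hd => ?_) isClosed_closure)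
      (subset_iUnion (fun i => closure (T i)) b)
    exact closure_mono (hT (hb _ (mem_range_self ⟨d, hd⟩))) (hi ⟨d, hd⟩)
  · exact iUnion_subset fun i => closure_mono (subset_iUnion _ i)

theorem bdd_of_cof {κ : Cardinal.{u}} (hκ : ℵ₀ ≤ κ) (hc : κ.ord.cof ≠ ℵ₀)
    (s : Set κ.ord.ToType) (hs : s.Countable) : ∃ b, ∀ a ∈ s, a ≤ b := by
  by_contra hcon
  push Not at hcon
  have h1 : IsCofinal s := by
    intro b
    obtain ⟨a, ha, hab⟩ := hcon b
    exact ⟨a, ha, hab.le⟩
  have h2 := Order.cof_le h1
  rw [Ordinal.cof_toType] at h2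
  have h3 : #s ≤ ℵ₀ := Cardinal.le_aleph0_iff_set_countable.2 hs
  have h4 : ℵ₀ ≤ κ.ord.cof := by
    rw [Ordinal.aleph0_le_cof_iff, Ordinal.one_lt_cof_iff]
    exact Cardinal.isSuccLimit_ord hκ
  exact hc (le_antisymm (h2.trans h3) h4)

theorem IsSok.mon (hS : IsSok X) (μ : Cardinal.{u}) (hM : MonCof X μ) (D : Set X) (hD : #D < μ) :
    ∃ S : Set C(X, ℝ), #S ≤ max #D ℵ₀ ∧ SepBy S D := by
  classical
  induction hκ : #D using WellFoundedLT.induction generalizing D with
  | ind κ ih =>
    rcases le_or_gt κ ℵ₀ with h0 | h0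
    · have hDc : D.Countable := Cardinal.le_aleph0_iff_set_countable.1 (hκ ▸ h0)
      obtain ⟨S, hSc, hSs⟩ := hS.sep_countable D hDc
      exact ⟨S, (Cardinal.le_aleph0_iff_set_countable.2 hSc).trans (le_max_right _ _), hSs⟩
    · by_cases hc : κ.ord.cof = ℵ₀
      · obtain ⟨S, hS1, hS2⟩ := hM D (hκ ▸ h0) hD (hκ ▸ hc)
        exact ⟨S, (hκ ▸ hS1 : #S ≤ κ).trans (le_max_left _ _), hS2⟩
      · -- the main case
        have he : #κ.ord.ToType = #D := by rw [Cardinal.mk_ord_toType, hκ]
        obtain ⟨e⟩ := Cardinal.eq.1 he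
        have hb := bdd_of_cof h0.le hc
        let T : κ.ord.ToType → Set X := fun i => (fun j => (e j).1) '' Iic i
        have hTm : Monotone T := fun i j h => image_mono (Iic_subset_Iic.2 h)
        have hTD : ∀ i, T i ⊆ D := by
          rintro i _ ⟨j, _, rfl⟩
          exact (e j).2
        have hTU : ⋃ i, T i = D := by
          apply Subset.antisymm (iUnion_subset hTD)
          intro d hd
          refine mem_iUnion.2 ⟨e.symm ⟨d, hd⟩, ⟨e.symm ⟨d, hd⟩, self_mem_Iic, ?_⟩⟩
          simp
        have hTc : ∀ i, #(T i) < κ := by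
          intro i
          refine lt_of_le_of_lt Cardinal.mk_image_le ?_
          have h1 : #(Iio i) < κ := by
            have := Cardinal.mk_Iio_lt i (by simp)
            rwa [Cardinal.mk_ord_toType] at this
          have h2 : Iic i = insert i (Iio i) := by
            ext b
            simp [le_iff_eq_or_lt]
          rw [h2]
          refine lt_of_le_of_lt (Cardinal.mk_insert_le) ?_
          exact Cardinal.add_lt_of_lt h0.le h1 (lt_trans Cardinal.one_lt_aleph0 h0)
        have hcl : closure D = ⋃ i, closure (T i) := by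
          let q : (Unit → X) ≃ₜ X := Homeomorph.funUnique Unit X
          have h1 := hS.closure_iUnion (I := Unit) hb (fun i => q ⁻¹' T i)
            (fun i j h => preimage_mono (hTm h))
          have h2 : q ⁻¹' closure D = ⋃ i, q ⁻¹' closure (T i) := by
            rw [q.preimage_closure, ← hTU, preimage_iUnion, h1]
            simp only [q.preimage_closure]
          rw [← preimage_iUnion] at h2
          exact q.surjective.preimage_injective h2
        have hex : ∀ i, ∃ S : Set C(X, ℝ), #S ≤ max #(T i) ℵ₀ ∧ SepBy S (T i) := by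
          intro i
          exact ih _ (hTc i) (T i) (lt_trans (hTc i) (hκ ▸ hD)) rfl
        choose S hS1 hS2 using hex
        refine ⟨⋃ i, S i, ?_, ?_⟩
        · refine le_trans (Cardinal.mk_iUnion_le_sum_mk) ?_
          refine le_trans (Cardinal.sum_le_sum _ (fun _ => κ) fun i => ?_) ?_
          · exact (hS1 i).trans (max_le (hTc i).le h0.le)
          · rw [Cardinal.sum_const', Cardinal.mk_ord_toType, Cardinal.mul_eq_self h0.le]
            exact le_max_left _ _
        · intro x hx y hy h
          rw [hcl] at hx hy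
          obtain ⟨i, hi⟩ := mem_iUnion.1 hx
          obtain ⟨j, hj⟩ := mem_iUnion.1 hy
          refine hS2 (max i j) x (closure_mono (hTm (le_max_left i j)) hi) y
            (closure_mono (hTm (le_max_right i j)) hj) fun g hg => ?_
          exact h g (mem_iUnion.2 ⟨_, hg⟩)

/-- Agreement of two points of a power on a family of functions. -/
def Agree {I : Type} (S : Set C(X, ℝ)) (w v : I → X) : Prop := ∀ g ∈ S, ∀ i, g (w i) = g (v i)

theorem IsSok.mon_pow (hS : IsSok X) (μ : Cardinal.{u}) (hμ : ℵ₀ < μ) (hM : MonCof X μ)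
    {I : Type} [Finite I] (D : Set (I → X)) (hD : #D < μ) :
    ∃ S : Set C(X, ℝ), #S ≤ max #D ℵ₀ ∧
      ∀ w ∈ closure D, ∀ v ∈ closure D, Agree S w v → w = v := by
  let D' : Set X := ⋃ i, (fun w : I → X => w i) '' D
  have hD' : #D' ≤ max #D ℵ₀ := by
    have hI : Countable (ULift.{u} I) := inferInstance
    have h0 : D' = ⋃ i : ULift.{u} I, (fun w : I → X => w i.down) '' D := by
      ext x
      simp [D']
    rw [h0]
    refine le_trans (Cardinal.mk_iUnion_le_sum_mk) ?_
    refine le_trans (Cardinal.sum_le_sum _ (fun _ => #D) fun i => Cardinal.mk_image_le) ?_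
    rw [Cardinal.sum_const']
    refine (mul_le_mul' (Cardinal.mk_le_aleph0) (le_max_left #D ℵ₀)).trans ?_
    rw [Cardinal.aleph0_mul_eq (le_max_right _ _)]
  obtain ⟨S, hS1, hS2⟩ := hS.mon μ hM D' (lt_of_le_of_lt hD' (max_lt hD hμ))
  refine ⟨S, hS1.trans (max_le hD' (le_max_right _ _)), fun w hw v hv h => ?_⟩
  have hcl : ∀ w ∈ closure D, ∀ i, w i ∈ closure D' := by
    intro w hw i
    have h1 : (fun w : I → X => w i) w ∈ closure ((fun w : I → X => w i) '' D) :=
      image_closure_subset_closure_image (continuous_apply i) (mem_image_of_mem _ hw)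
    exact closure_mono (subset_iUnion (fun i => (fun w : I → X => w i) '' D) i) h1
  funext i
  exact hS2 _ (hcl w hw i) _ (hcl v hv i) fun g hg => h g hg i

end Pool.Agent.Helper66
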