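import Pool.Agent.Helper66.SokGamma

set_option autoImplicit false

open Set Filter Topology Cardinal

namespace Pool.Agent.Helper66

universe u

variable {X : Type u} [TopologicalSpace X]

/-- A set `T` of points of a finite power, with coefficients `c`, admits a good family of
functionals. -/
def Good {I : Type} [Fintype I] (c : I → ℝ) (T : Set (I → X)) : Prop :=
  ∃ (A : Type u) (φ : A → ((X → ℝ) →L[ℝ] ℝ)),
    (∀ g : C(X, ℝ), (∀ a, φ a g = 0) → ∀ t ∈ T, ev c t g = 0) ∧
    (∀ g : C(X, ℝ), {a | φ a g ≠ 0}.Countable) ∧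
    (∀ g : C(X, ℝ), (∀ w ∈ closure T, ev c w g = 0) → ∀ a, φ a g = 0)

theorem good_of_countable {I : Type} [Fintype I] (c : I → ℝ) (T : Set (I → X))
    (hT : T.Countable) : Good c T := by
  have : Countable T := hT.to_subtype
  refine ⟨T, fun t => ev c t.1, fun g h t ht => h ⟨t, ht⟩, fun g => Set.to_countable _,
    fun g h a => h a.1 (subset_closure a.2)⟩

variable [CompactSpace X] [T2Space X]

omit [T2Space X] in
/-- Finite nets with respect to finite lists of functions. -/
theorem exists_net {I : Type} [Fintype I] (T : Set (I → X)) (L : List C(X, ℝ)) (n : ℕ) :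
    ∃ N : Set (I → X), N.Finite ∧ N ⊆ T ∧
      ∀ t ∈ T, ∃ t' ∈ N, ∀ g ∈ L, ∀ i, |g (t i) - g (t' i)| < 1 / ((n : ℝ) + 1) := by
  have hpos : (0 : ℝ) < 1 / ((n : ℝ) + 1) := by positivity
  let U : (I → X) → Set (I → X) := fun t =>
    {w | ∀ g ∈ L, ∀ i, |g (w i) - g (t i)| < 1 / ((n : ℝ) + 1)}
  have hU : ∀ t, IsOpen (U t) := by
    intro t
    have : U t = ⋂ g ∈ {g | g ∈ L}, ⋂ i, {w : I → X | |g (w i) - g (t i)| < 1 / ((n : ℝ) + 1)} := by
      ext w
      simp [U]
    rw [this]
    refine (List.finite_toSet L).isOpen_biInter fun g _ => isOpen_iInter_of_finite fun i => ?_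
    refine isOpen_lt ?_ continuous_const
    exact ((g.continuous.comp (continuous_apply i)).sub continuous_const).abs
  have hcover : closure T ⊆ ⋃ t : T, U t.1 := by
    intro w hw
    obtain ⟨t, ht1, ht2⟩ := mem_closure_iff.1 hw (U w) (hU w) (by
      intro g _ i
      simpa using hpos)
    refine mem_iUnion.2 ⟨⟨t, ht2⟩, fun g hg i => ?_⟩
    rw [abs_sub_comm]
    exact ht1 g hg i
  obtain ⟨s, hs⟩ := (isClosed_closure (s := T)).isCompact.elim_finite_subcover
    (fun t : T => U t.1) (fun t => hU t.1) hcover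
  refine ⟨Subtype.val '' (s : Set T), s.finite_toSet.image _, ?_, ?_⟩
  · rintro _ ⟨t, _, rfl⟩
    exact t.2
  · intro t ht
    have h1 := hs (subset_closure ht)
    simp only [mem_iUnion] at h1
    obtain ⟨t', ht', h2⟩ := h1
    exact ⟨t'.1, ⟨t', ht', rfl⟩, h2⟩

/-- Lists of elements of a directed union of a monotone family below `γ`. -/
theorem list_low {Ω : Type*} [LinearOrder Ω] {Z : Type*} (s : Ω → Set Z) (hs : Monotone s) (γ : Ω)
    (hγ : (Iio γ).Nonempty) (L : List Z) (hL : ∀ g ∈ L, g ∈ low s γ) :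
    ∃ η < γ, ∀ g ∈ L, g ∈ s η := by
  induction L with
  | nil =>
    obtain ⟨η, hη⟩ := hγ
    exact ⟨η, hη, by simp⟩
  | cons a L ih =>
    obtain ⟨η, hη, h⟩ := ih fun g hg => hL g (List.mem_cons_of_mem _ hg)
    have h1 := hL a List.mem_cons_self
    simp only [low, mem_iUnion] at h1
    obtain ⟨ζ, hζ, h2⟩ := h1
    refine ⟨max η ζ, max_lt hη hζ, fun g hg => ?_⟩
    rcases List.mem_cons.1 hg with rfl | h3
    · exact hs (le_max_right _ _) h2
    · exact hs (le_max_left _ _) (h g h3)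

omit [T2Space X] in
/-- The compactness argument producing the companion point. -/
theorem exists_companion {I : Type} [Fintype I] (B : Set (I → X)) (D : Set C(X, ℝ)) (t : I → X)
    (h : ∀ (L : List C(X, ℝ)) (n : ℕ), (∀ g ∈ L, g ∈ D) →
      ∃ b ∈ B, ∀ g ∈ L, ∀ i, |g (t i) - g (b i)| < 1 / ((n : ℝ) + 1)) :
    ∃ v ∈ closure B, Agree D t v := by
  let K : (List D) × ℕ → Set (I → X) := fun p =>
    {v | v ∈ closure B ∧ ∀ g ∈ p.1, ∀ i, |g.1 (t i) - g.1 (v i)| ≤ 1 / ((p.2 : ℝ) + 1)}
  have hKc : ∀ p, IsClosed (K p) := by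
    intro p
    have : K p = closure B ∩ ⋂ g ∈ {g | g ∈ p.1}, ⋂ i,
        {v : I → X | |g.1 (t i) - g.1 (v i)| ≤ 1 / ((p.2 : ℝ) + 1)} := by
      ext v
      simp [K]
    rw [this]
    refine isClosed_closure.inter (isClosed_biInter fun g _ => isClosed_iInter fun i => ?_)
    refine isClosed_le ?_ continuous_const
    exact (continuous_const.sub (g.1.continuous.comp (continuous_apply i))).abs
  have hne : (⋂ p, K p).Nonempty := by
    refine IsCompact.nonempty_iInter_of_directed_nonempty_isCompact_isClosed K ?_ ?_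
      (fun p => (hKc p).isCompact) hKc
    · intro p q
      refine ⟨(p.1 ++ q.1, max p.2 q.2), ?_, ?_⟩
      · rintro v ⟨h1, h2⟩
        refine ⟨h1, fun g hg i => (h2 g (List.mem_append_left _ hg) i).trans ?_⟩
        apply one_div_le_one_div_of_le (by positivity)
        have : (p.2 : ℝ) ≤ ((max p.2 q.2 : ℕ) : ℝ) := by exact_mod_cast le_max_left _ _
        linarith
      · rintro v ⟨h1, h2⟩
        refine ⟨h1, fun g hg i => (h2 g (List.mem_append_right _ hg) i).trans ?_⟩
        apply one_div_le_one_div_of_le (by positivity)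
        have : (q.2 : ℝ) ≤ ((max p.2 q.2 : ℕ) : ℝ) := by exact_mod_cast le_max_right _ _
        linarith
    · intro p
      obtain ⟨b, hb, h1⟩ := h (p.1.map Subtype.val) p.2 (by
        intro g hg
        obtain ⟨a, _, rfl⟩ := List.mem_map.1 hg
        exact a.2)
      refine ⟨b, subset_closure hb, fun g hg i => ?_⟩
      exact (h1 g.1 (List.mem_map.2 ⟨g, hg, rfl⟩) i).le
  obtain ⟨v, hv⟩ := hne
  rw [mem_iInter] at hv
  refine ⟨v, (hv ([], 0)).1, fun g hg i => ?_⟩
  have h1 : ∀ n : ℕ, |g (t i) - g (v i)| ≤ 1 / ((n : ℝ) + 1) := by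
    intro n
    exact (hv ([⟨g, hg⟩], n)).2 ⟨g, hg⟩ (List.mem_singleton.2 rfl) i
  by_contra hne
  have h4 : 0 < |g (t i) - g (v i)| := abs_pos.2 (sub_ne_zero.2 hne)
  obtain ⟨n, hn⟩ := exists_nat_one_div_lt h4
  exact absurd hn (not_lt.2 (h1 n))

/-- The inductive step. -/
theorem IsSok.good_step (hS : IsSok X) (μ : Cardinal.{u}) (hμ : ℵ₀ < μ) (hM : MonCof X μ)
    {I : Type} [Fintype I] (c : I → ℝ) (T : Set (I → X)) (hT0 : ℵ₀ < #T) (hTμ : #T ≤ μ)
    (ih : ∀ (I' : Type) [Fintype I'] (c' : I' → ℝ) (T' : Set (I' → X)), #T' < #T → Good c' T') :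
    Good c T := by
  classical
  obtain ⟨Ω, _, _, hΩ, hΩc⟩ : ∃ (Ω : Type u) (_ : LinearOrder Ω), ∃ (_ : WellFoundedLT Ω),
      #Ω = #T ∧ ∀ γ : Ω, #(Iic γ) < #T := by
    refine ⟨(#T).ord.ToType, inferInstance, inferInstance, by simp, fun γ => ?_⟩
    have h1 : #(Iio γ) < #T := by
      have := Cardinal.mk_Iio_lt γ (by simp)
      rwa [Cardinal.mk_ord_toType] at this
    have h2 : Iic γ = insert γ (Iio γ) := by
      ext b
      simp [le_iff_eq_or_lt]
    rw [h2]
    refine lt_of_le_of_lt (Cardinal.mk_insert_le) ?_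
    exact Cardinal.add_lt_of_lt hT0.le h1 (lt_trans Cardinal.one_lt_aleph0 hT0)
  obtain ⟨e⟩ := Cardinal.eq.1 hΩ
  -- separating families and nets
  have hsep : ∀ D : Set (I → X), ∃ S : Set C(X, ℝ), #D < μ → (#S ≤ max #D ℵ₀ ∧
      ∀ w ∈ closure D, ∀ v ∈ closure D, Agree S w v → w = v) := by
    intro D
    by_cases hD : #D < μ
    · obtain ⟨S, h⟩ := hS.mon_pow μ hμ hM D hD
      exact ⟨S, fun _ => h⟩
    · exact ⟨∅, fun h => absurd h hD⟩
  choose sep hsep using hsep
  choose N hNf hNT hN using fun (L : List C(X, ℝ)) (n : ℕ) => exists_net T L n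
  -- the recursion
  let step : Ω → Set C(X, ℝ) → Set (I → X) := fun γ S =>
    ((fun ξ => (e ξ).1) '' Iic γ) ∪ ⋃ p : (List S) × ℕ, N (p.1.map Subtype.val) p.2
  obtain ⟨TT, hTT⟩ := exists_rec (Ω := Ω) (Z := Set (I → X))
    (fun γ h z => z = step γ (low (fun η => sep (h η)) γ))
    (by
      intro α h h' z hh hz
      have h1 : low (fun η => sep (h' η)) α = low (fun η => sep (h η)) α := by
        refine iUnion₂_congr fun β hβ => ?_
        change sep (h' β) = sep (h β)
        rw [hh β hβ]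
      rw [h1]
      exact hz)
    (fun α h _ => ⟨_, rfl⟩)
  let sp : Ω → Set C(X, ℝ) := fun η => sep (TT η)
  have hTTe : ∀ γ, TT γ = step γ (low sp γ) := hTT
  have hTTT : ∀ γ, TT γ ⊆ T := by
    intro γ
    rw [hTTe]
    refine union_subset ?_ (iUnion_subset fun p => hNT _ _)
    rintro _ ⟨ξ, _, rfl⟩
    exact (e ξ).2
  have hstep : ∀ γ γ' : Ω, γ ≤ γ' → ∀ S S' : Set C(X, ℝ), S ⊆ S' → step γ S ⊆ step γ' S' := by
    intro γ γ' h S S' hSS
    refine union_subset_union (image_mono (Iic_subset_Iic.2 h)) ?_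
    refine iUnion_subset fun p => ?_
    have h1 : p.1.map Subtype.val = (p.1.map (inclusion hSS)).map Subtype.val := by
      rw [List.map_map]
      rfl
    rw [h1]
    exact subset_iUnion (fun p : (List S') × ℕ => N (p.1.map Subtype.val) p.2)
      (p.1.map (inclusion hSS), p.2)
  have hmono : Monotone TT := by
    intro γ γ' h
    rw [hTTe γ, hTTe γ']
    exact hstep γ γ' h _ _ (low_mono sp h)
  have hmem : ∀ γ, (e γ).1 ∈ TT γ := by
    intro γ
    rw [hTTe]
    exact Or.inl ⟨γ, self_mem_Iic, rfl⟩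
  have hnet : ∀ γ (L : List C(X, ℝ)) (n : ℕ), (∀ g ∈ L, g ∈ low sp γ) → N L n ⊆ TT γ := by
    intro γ L n hL
    rw [hTTe]
    refine Subset.trans ?_ subset_union_right
    have h1 : (L.attach.map fun g => (⟨g.1, hL g.1 g.2⟩ : low sp γ)).map Subtype.val = L := by
      simp
    have h2 := subset_iUnion (fun p : (List (low sp γ)) × ℕ => N (p.1.map Subtype.val) p.2)
      (L.attach.map fun g => (⟨g.1, hL g.1 g.2⟩ : low sp γ), n)
    simp only [h1] at h2
    exact h2
  -- cardinalities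
  have hcard : ∀ γ, #(TT γ) ≤ max #(Iic γ) ℵ₀ := by
    intro γ
    induction γ using WellFoundedLT.induction with
    | ind γ ihγ =>
      set κ : Cardinal := max #(Iic γ) ℵ₀ with hκ
      have hκ0 : ℵ₀ ≤ κ := le_max_right _ _
      have h1 : ∀ η < γ, #(sp η) ≤ κ := by
        intro η hη
        have h2 : #(Iic η) ≤ #(Iic γ) := Cardinal.mk_le_mk_of_subset (Iic_subset_Iic.2 hη.le)
        have h3 : #(TT η) ≤ κ := (ihγ η hη).trans (max_le_max h2 le_rfl)
        have h4 : #(TT η) < μ := by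
          refine lt_of_le_of_lt (ihγ η hη) (max_lt (lt_of_lt_of_le (hΩc η) hTμ) hμ)
        exact (hsep (TT η) h4).1.trans (max_le h3 hκ0)
      have h2 : #(low sp γ) ≤ κ := by
        have h3 : low sp γ = ⋃ η : Iio γ, sp η.1 := by
          simp [low, iUnion_subtype]
        rw [h3]
        refine le_trans (Cardinal.mk_iUnion_le_sum_mk) ?_
        refine le_trans (Cardinal.sum_le_sum _ (fun _ => κ) fun i => h1 i.1 i.2) ?_
        rw [Cardinal.sum_const']
        have h4 : #(Iio γ) ≤ κ :=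
          (Cardinal.mk_le_mk_of_subset Iio_subset_Iic_self).trans (le_max_left _ _)
        exact (mul_le_mul' h4 le_rfl).trans (Cardinal.mul_eq_self hκ0).le
      have h3 : #(List (low sp γ)) ≤ κ := (Cardinal.mk_list_le_max _).trans (max_le hκ0 h2)
      have h4 : #((List (low sp γ)) × ℕ) ≤ κ := by
        rw [Cardinal.mk_prod]
        simp only [Cardinal.lift_uzero, Cardinal.mk_nat, Cardinal.lift_aleph0]
        exact (mul_le_mul' h3 hκ0).trans (Cardinal.mul_eq_self hκ0).le
      rw [hTTe]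
      refine (Cardinal.mk_union_le _ _).trans ?_
      refine (add_le_add (b := κ) (d := κ) ?_ ?_).trans (Cardinal.add_eq_self hκ0).le
      · exact Cardinal.mk_image_le.trans (le_max_left _ _)
      · refine le_trans (Cardinal.mk_iUnion_le_sum_mk) ?_
        refine le_trans (Cardinal.sum_le_sum _ (fun _ => κ) fun p => ?_) ?_
        · exact ((hNf _ _).countable.le_aleph0).trans hκ0
        · rw [Cardinal.sum_const']
          exact (mul_le_mul' h4 le_rfl).trans (Cardinal.mul_eq_self hκ0).le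
  have hcard' : ∀ γ, #(TT γ) < #T := fun γ =>
    lt_of_le_of_lt (hcard γ) (max_lt (hΩc γ) hT0)
  have hspsep : ∀ η, ∀ w ∈ closure (TT η), ∀ v ∈ closure (TT η), Agree (sp η) w v → w = v :=
    fun η => (hsep (TT η) (lt_of_lt_of_le (hcard' η) hTμ)).2
  -- companions
  have hcomp : ∀ γ, (Iio γ).Nonempty → ∀ t ∈ T,
      ∃ v ∈ closure (low TT γ), Agree (low (low sp) γ) t v := by
    intro γ hγ t ht
    refine exists_companion _ _ t fun L n hL => ?_
    obtain ⟨η, hη, h⟩ := list_low (low sp) (low_mono sp) γ hγ L hL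
    obtain ⟨t', ht', h2⟩ := hN L n t ht
    exact ⟨t', subset_low TT hη (hnet η L n h ht'), h2⟩
  -- the pieces
  have hpiece : ∀ γ, ∃ (A : Type u) (φ : A → ((X → ℝ) →L[ℝ] ℝ)),
      (∀ g : C(X, ℝ), (∀ a, φ a g = 0) → (∀ t ∈ low TT γ, ev c t g = 0) →
        ∀ t ∈ TT γ, ev c t g = 0) ∧
      (∀ g : C(X, ℝ), {a | φ a g ≠ 0}.Countable) ∧
      (∀ g : C(X, ℝ), (Iio γ).Nonempty → (∀ w ∈ closure (TT γ), ∀ v ∈ closure (low TT γ),
        Agree (low (low sp) γ) w v → ev c w g = ev c v g) → ∀ a, φ a g = 0) ∧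
      (∀ g : C(X, ℝ), (∀ w ∈ closure T, ev c w g = 0) → ∀ a, φ a g = 0) := by
    intro γ
    by_cases hγ : (Iio γ).Nonempty
    · choose v hv hva using hcomp γ hγ
      let j : TT γ → (I ⊕ I → X) := fun t => Sum.elim t.1 (v t.1 (hTTT γ t.2))
      obtain ⟨A, φ, h1, h2, h3⟩ := ih (I ⊕ I) (Sum.elim c (-c)) (range j)
        (lt_of_le_of_lt Cardinal.mk_range_le (hcard' γ))
      have hev : ∀ (w v : I → X) (g : C(X, ℝ)),
          ev (Sum.elim c (-c)) (Sum.elim w v) g = ev c w g - ev c v g := by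
        intro w v g
        simp [ev_apply, Fintype.sum_sum_type, Finset.sum_neg_distrib, sub_eq_add_neg]
      have hcl : ∀ z ∈ closure (range j), (z ∘ Sum.inl) ∈ closure (TT γ) ∧
          (z ∘ Sum.inr) ∈ closure (low TT γ) ∧
          Agree (low (low sp) γ) (z ∘ Sum.inl) (z ∘ Sum.inr) := by
        intro z hz
        refine ⟨?_, ?_, ?_⟩
        · have hc : IsClosed {z : I ⊕ I → X | z ∘ Sum.inl ∈ closure (TT γ)} :=
            isClosed_closure.preimage (by fun_prop)
          refine closure_minimal ?_ hc hz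
          rintro _ ⟨t, rfl⟩
          exact subset_closure t.2
        · have hc : IsClosed {z : I ⊕ I → X | z ∘ Sum.inr ∈ closure (low TT γ)} :=
            isClosed_closure.preimage (by fun_prop)
          refine closure_minimal ?_ hc hz
          rintro _ ⟨t, rfl⟩
          exact hv t.1 _
        · have hc : IsClosed {z : I ⊕ I → X |
              Agree (low (low sp) γ) (z ∘ Sum.inl) (z ∘ Sum.inr)} :=
            (isClosed_agree (I := I) (low (low sp) γ)).preimage
              (f := fun z : I ⊕ I → X => (z ∘ Sum.inl, z ∘ Sum.inr)) (by fun_prop)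
          refine closure_minimal ?_ hc hz
          rintro _ ⟨t, rfl⟩
          exact hva t.1 _
      have hz : ∀ z : I ⊕ I → X, z = Sum.elim (z ∘ Sum.inl) (z ∘ Sum.inr) := fun z =>
        (Sum.elim_comp_inl_inr z).symm
      refine ⟨A, φ, ?_, h2, ?_, ?_⟩
      · intro g hg hlow t ht
        have h4 := h1 g hg (j ⟨t, ht⟩) (mem_range_self _)
        rw [hev] at h4
        have h5 : ev c (v t (hTTT γ ht)) g = 0 := by
          have h6 : closure (low TT γ) ⊆ {w | ev c w g = 0} :=
            closure_minimal hlow (isClosed_eq (continuous_ev c g) continuous_const)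
          exact h6 (hv t _)
        rw [h5, sub_zero] at h4
        exact h4
      · intro g _ hg a
        refine h3 g (fun z hz' => ?_) a
        obtain ⟨h4, h5, h6⟩ := hcl z hz'
        rw [hz z, hev, hg _ h4 _ h5 h6, sub_self]
      · intro g hg a
        refine h3 g (fun z hz' => ?_) a
        obtain ⟨h4, h5, h6⟩ := hcl z hz'
        have h7 : closure (low TT γ) ⊆ closure T :=
          closure_mono (iUnion₂_subset fun η _ => hTTT η)
        rw [hz z, hev, hg _ (closure_mono (hTTT γ) h4), hg _ (h7 h5), sub_self]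
    · obtain ⟨A, φ, h1, h2, h3⟩ := ih I c (TT γ) (hcard' γ)
      refine ⟨A, φ, fun g hg _ => h1 g hg, h2, fun g h => absurd h hγ, fun g hg => h3 g ?_⟩
      exact fun w hw => hg w (closure_mono (hTTT γ) hw)
  choose A φ h1 h2 h3 h4 using hpiece
  refine ⟨Σ γ, A γ, fun p => φ p.1 p.2, ?_, ?_, ?_⟩
  · intro g hg
    have hall : ∀ γ, ∀ t ∈ TT γ, ev c t g = 0 := by
      intro γ
      induction γ using WellFoundedLT.induction with
      | ind γ ihγ =>
        refine h1 γ g (fun a => hg ⟨γ, a⟩) fun t ht => ?_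
        simp only [low, mem_iUnion] at ht
        obtain ⟨η, hη, ht⟩ := ht
        exact ihγ η hη t ht
    intro t ht
    have := hall (e.symm ⟨t, ht⟩) _ (hmem _)
    simpa using this
  · intro g
    let Γ : Set Ω := {γ | ∃ a, φ γ a g ≠ 0}
    have hΓ : Γ.Countable := by
      refine hS.gamma_countable TT hmono sp hspsep c g Γ fun γ hγ hne => ?_
      by_contra hcon
      push Not at hcon
      obtain ⟨a, ha⟩ := hγ
      exact ha (h3 γ g hne hcon a)
    have : {p : Σ γ, A γ | φ p.1 p.2 g ≠ 0} ⊆ ⋃ γ ∈ Γ, Sigma.mk γ '' {a | φ γ a g ≠ 0} := by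
      rintro ⟨γ, a⟩ hp
      exact mem_biUnion (show γ ∈ Γ from ⟨a, hp⟩) ⟨a, hp, rfl⟩
    refine Set.Countable.mono this ?_
    exact hΓ.biUnion fun γ _ => (h2 γ g).image _
  · intro g hg p
    exact h4 p.1 g hg p.2

/-- Every set of at most `μ` points of a finite power is good. -/
theorem IsSok.good (hS : IsSok X) (μ : Cardinal.{u}) (hμ : ℵ₀ < μ) (hM : MonCof X μ)
    {I : Type} [Fintype I] (c : I → ℝ) (T : Set (I → X)) (hTμ : #T ≤ μ) : Good c T := by
  induction hκ : #T using WellFoundedLT.induction generalizing I with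
  | ind κ ih =>
    rcases le_or_gt κ ℵ₀ with h0 | h0
    · exact good_of_countable c T (Cardinal.le_aleph0_iff_set_countable.1 (hκ ▸ h0))
    · refine hS.good_step μ hμ hM c T (hκ ▸ h0) hTμ fun I' _ c' T' h => ?_
      exact ih #T' (hκ ▸ h) c' T' (h.le.trans hTμ) rfl

end Pool.Agent.Helper66
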